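import Pool.Agent.X250.RT.Cone

/-!
# The theorem
-/

set_option autoImplicit false
set_option linter.unusedSectionVars false

open scoped Topology

namespace Pool.Agent.X250.RT

open Pool.Agent.W907.SG Pool.Agent.W461.SGN
open Pool.Agent.H919R4.ZS (FinRes augm toRed)
open Pool.Agent.X250.ZS (Cx sm sm_sm sm_inv sm_inj w_ind ps_comm cp)

variable {V : Type} {G : SimpleGraph V} {π : Type} [Group π] [MulAction π V]

/-! ### the action on the Coxeter group -/

theorem exists_hom (hadj : ∀ (g : π) (u v : V), G.Adj u v → G.Adj (g • u) (g • v)) (g : π) :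
    ∃ f : W G →* W G, ∀ v, f (sm G v) = sm G (g • v) := by
  refine ⟨(cox G).toCoxeterSystem.lift ⟨fun v => sm G (g • v), liftable G _ (fun v => sm_sm G _) fun u v h => ?_⟩,
    fun v => CoxeterSystem.lift_apply_simple _ _ v⟩
  have h1 := hadj g u v h
  exact simple_comm G _ _ h1

theorem hom_ext' {A : Type} [Monoid A] {f f' : W G →* A} (h : ∀ v, f (sm G v) = f' (sm G v)) : f = f' := by
  refine MonoidHom.ext fun w => ?_
  refine w_ind G (p := fun w => f w = f' w) w ?_ ?_
  · rw [map_one, map_one]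
  · intro w v ih
    rw [map_mul, map_mul, h, ih]

theorem exists_phi (hadj : ∀ (g : π) (u v : V), G.Adj u v → G.Adj (g • u) (g • v)) :
    ∃ φ : π →* MulAut (W G), ∀ g v, φ g (sm G v) = sm G (g • v) := by
  choose f hf using exists_hom hadj
  have h1 : f 1 = MonoidHom.id _ := hom_ext' fun v => by rw [hf, one_smul]; rfl
  have h2 : ∀ g h, f (g * h) = (f g).comp (f h) := fun g h => hom_ext' fun v => by
    rw [hf, MonoidHom.comp_apply, hf, hf, mul_smul]
  refine ⟨⟨⟨fun g => ⟨⟨f g, f g⁻¹, fun w => ?_, fun w => ?_⟩, (f g).map_mul'⟩, ?_⟩, fun g h => ?_⟩, fun g v => hf g v⟩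
  · have := DFunLike.congr_fun (h2 g⁻¹ g) w
    rw [inv_mul_cancel, h1] at this
    exact this.symm
  · have := DFunLike.congr_fun (h2 g g⁻¹) w
    rw [mul_inv_cancel, h1] at this
    exact this.symm
  · exact MulEquiv.ext fun w => DFunLike.congr_fun h1 w
  · exact MulEquiv.ext fun w => DFunLike.congr_fun (h2 g h) w

/-! ### orientations -/

theorem exists_ori (hfree : ∀ (g : π) (T : Finset V), G.IsClique (T : Set V) → T.Nonempty →
    (∀ v ∈ T, g • v ∈ T) → g = 1) :
    ∃ o : Ori G, ∀ (g : π) (s t : V), o.σ (g • s) (g • t) = o.σ s t := by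
  classical
  obtain ⟨_, _⟩ := exists_wellFoundedLT (MulAction.orbitRel.Quotient π (V × V))
  let q : V → V → MulAction.orbitRel.Quotient π (V × V) := fun s t => Quotient.mk _ (s, t)
  have hq : ∀ (g : π) s t, q (g • s) (g • t) = q s t := by
    intro g s t
    exact Quotient.sound ⟨g, rfl⟩
  have hne : ∀ s t, G.Adj s t → q s t ≠ q t s := by
    intro s t h he
    obtain ⟨g, hg⟩ := Quotient.exact he
    have h1 : g • t = s := congrArg Prod.fst hg
    have h2 : g • s = t := congrArg Prod.snd hg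
    have h3 : g = 1 := by
      refine hfree g {s, t} ?_ ⟨s, by simp⟩ ?_
      · intro a ha b hb hab
        simp only [Finset.coe_insert, Finset.coe_singleton, Set.mem_insert_iff, Set.mem_singleton_iff] at ha hb
        rcases ha with rfl | rfl <;> rcases hb with rfl | rfl
        · exact absurd rfl hab
        · exact h
        · exact h.symm
        · exact absurd rfl hab
      · intro v hv
        simp only [Finset.mem_insert, Finset.mem_singleton] at hv ⊢
        rcases hv with rfl | rfl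
        · exact Or.inr h2
        · exact Or.inl h1
    rw [h3, one_smul] at h1
    rw [h1] at h
    exact G.loopless.irrefl _ h
  refine ⟨⟨fun s t => if q s t < q t s then 1 else -1, ?_, ?_⟩, ?_⟩
  · intro s t
    split_ifs <;> norm_num
  · intro s t h
    rcases lt_or_gt_of_ne (hne s t h) with h1 | h1
    · rw [if_pos h1, if_neg (not_lt.2 h1.le), neg_neg]
    · rw [if_neg (not_lt.2 h1.le), if_pos h1]
  · intro g s t
    dsimp only
    rw [hq, hq]

/-! ### representatives -/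

theorem exists_rep [DecidableEq V] (hφ : ∀ (g : π) (u v : V), G.Adj u v → G.Adj (g • u) (g • v))
    (hfree : ∀ (g : π) (T : Finset V), G.IsClique (T : Set V) → T.Nonempty → (∀ v ∈ T, g • v ∈ T) → g = 1)
    (hfin : ∃ F : Finset V, ∀ v : V, ∃ g : π, ∃ u ∈ F, g • u = v) (hloc : ∀ v, (G.neighborSet v).Finite)
    [Nonempty V] : ∃ R : Rep G π, R.K.Nonempty := by
  classical
  obtain ⟨F, hF⟩ := hfin
  have hcl : ∀ (g : π) {T : Finset V}, G.IsClique (T : Set V) → G.IsClique ((gT g T : Finset V) : Set V) := by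
    intro g T h u hu v hv huv
    have hu' := mem_gT.1 (Finset.mem_coe.1 hu)
    have hv' := mem_gT.1 (Finset.mem_coe.1 hv)
    have h1 := hφ g _ _ (h hu' hv' (fun h => huv (smul_left_cancel g⁻¹ h)))
    rwa [smul_inv_smul, smul_inv_smul] at h1
  -- representatives of all cliques
  have hK0 : ∃ K0 : Finset (Finset V), ∀ T : Finset V, G.IsClique (T : Set V) → T.Nonempty →
      ∃ g : π, ∃ S ∈ K0, gT g S = T := by
    refine ⟨F.biUnion fun u => (insert u (hloc u).toFinset).powerset, fun T hT hne => ?_⟩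
    obtain ⟨v, hv⟩ := hne
    obtain ⟨g, u, hu, rfl⟩ := hF v
    refine ⟨g, gT g⁻¹ T, Finset.mem_biUnion.2 ⟨u, hu, Finset.mem_powerset.2 fun w hw => ?_⟩, gT_inv' g T⟩
    have h1 : u ∈ gT g⁻¹ T := by
      rw [mem_gT, inv_inv]
      exact hv
    by_cases hwu : w = u
    · rw [hwu]
      exact Finset.mem_insert_self _ _
    · refine Finset.mem_insert_of_mem ?_
      rw [Set.Finite.mem_toFinset]
      exact hcl g⁻¹ hT (Finset.mem_coe.2 h1) (Finset.mem_coe.2 hw) (Ne.symm hwu)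
  obtain ⟨K0, hK0⟩ := hK0
  let r : Setoid (Finset V) :=
    { r := fun T T' => ∃ g : π, gT g T = T'
      iseqv :=
        { refl := fun T => ⟨1, gT_one T⟩
          symm := by
            rintro T T' ⟨g, rfl⟩
            exact ⟨g⁻¹, gT_inv g T⟩
          trans := by
            rintro T T' T'' ⟨g, rfl⟩ ⟨h, rfl⟩
            exact ⟨h * g, gT_mul h g T⟩ } }
  obtain ⟨ρ, hρ1, hρ2⟩ : ∃ ρ : Finset V → Finset V, (∀ T, ∃ g : π, gT g (ρ T) = T) ∧
      ∀ T T', (∃ g : π, gT g T = T') → ρ T = ρ T' := by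
    refine ⟨fun T => (Quotient.mk r T).out, fun T => ?_, fun T T' h => ?_⟩
    · exact Quotient.exact (Quotient.out_eq (Quotient.mk r T))
    · show (Quotient.mk r T).out = (Quotient.mk r T').out
      rw [show Quotient.mk r T = Quotient.mk r T' from Quotient.sound h]
  choose γ hγ using hρ1
  have hρ3 : ∀ T : Finset V, G.IsClique (T : Set V) → G.IsClique ((ρ T : Finset V) : Set V) := by
    intro T hT
    have h1 := hcl (γ T)⁻¹ hT
    have h2 : gT (γ T)⁻¹ T = ρ T := by
      have := gT_inv (γ T) (ρ T)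
      rwa [hγ T] at this
    rwa [h2] at h1
  have hρ4 : ∀ T : Finset V, T.Nonempty → (ρ T).Nonempty := by
    intro T hT
    rw [← hγ T] at hT
    exact gT_nonempty.1 hT
  refine ⟨⟨(K0.filter fun S : Finset V => G.IsClique (S : Set V) ∧ S.Nonempty).image ρ, ρ, γ, ?_, ?_, ?_, ?_, ?_⟩, ?_⟩
  · intro T hT
    obtain ⟨S, hS, rfl⟩ := Finset.mem_image.1 hT
    exact hρ3 S (Finset.mem_filter.1 hS).2.1
  · intro T hT
    obtain ⟨S, hS, rfl⟩ := Finset.mem_image.1 hT
    exact hρ4 S (Finset.mem_filter.1 hS).2.2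
  · intro T hT hne
    obtain ⟨g, S, hS, hg⟩ := hK0 T hT hne
    have h1 : G.IsClique (S : Set V) := by
      have := hcl g⁻¹ hT
      rwa [← hg, gT_inv] at this
    have h2 : S.Nonempty := by
      rw [← hg] at hne
      exact gT_nonempty.1 hne
    exact Finset.mem_image.2 ⟨S, Finset.mem_filter.2 ⟨hS, h1, h2⟩, hρ2 _ _ ⟨g, hg⟩⟩
  · intro T _ _
    exact hγ T
  · intro T hT g
    obtain ⟨S, hS, rfl⟩ := Finset.mem_image.1 hT
    have h1 : ρ (gT g (ρ S)) = ρ S := (hρ2 _ _ ⟨g * (γ S)⁻¹, by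
      nth_rewrite 2 [← hγ S]
      rw [← gT_mul, inv_mul_cancel_right]⟩).symm
    refine ⟨h1, ?_⟩
    have h2 := hγ (gT g (ρ S))
    rw [h1] at h2
    have h3 : gT (g⁻¹ * γ (gT g (ρ S))) (ρ S) = ρ S := by rw [gT_mul, h2, gT_inv]
    have h4 : g⁻¹ * γ (gT g (ρ S)) = 1 := by
      refine hfree _ (ρ S) (hρ3 S (Finset.mem_filter.1 hS).2.1) (hρ4 S (Finset.mem_filter.1 hS).2.2) fun v hv => ?_
      have h5 : (g⁻¹ * γ (gT g (ρ S))) • v ∈ gT (g⁻¹ * γ (gT g (ρ S))) (ρ S) := smul_mem_gT.2 hv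
      rwa [h3] at h5
    exact (inv_mul_eq_one.1 h4).symm
  · obtain ⟨v⟩ := ‹Nonempty V›
    obtain ⟨g, S, hS, hg⟩ := hK0 {v} (by simp) ⟨v, by simp⟩
    have h1 : G.IsClique (S : Set V) := by
      have := hcl g⁻¹ (T := {v}) (by simp)
      rwa [← hg, gT_inv] at this
    have h2 : S.Nonempty := by
      have : ({v} : Finset V).Nonempty := ⟨v, by simp⟩
      rw [← hg] at this
      exact gT_nonempty.1 this
    exact ⟨ρ S, Finset.mem_image.2 ⟨S, Finset.mem_filter.2 ⟨hS, h1, h2⟩, rfl⟩⟩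

/-! ### the theorem -/

theorem main' (hadj : ∀ (g : π) (u v : V), G.Adj u v → G.Adj (g • u) (g • v))
    (hfree : ∀ (g : π) (T : Finset V), G.IsClique (T : Set V) → T.Nonempty → (∀ v ∈ T, g • v ∈ T) → g = 1)
    (hfin : ∃ F : Finset V, ∀ v : V, ∃ g : π, ∃ u ∈ F, g • u = v) (hloc : ∀ v, (G.neighborSet v).Finite)
    [Nonempty V] (Y : FinRes π) (φ : π →* MulAut (W G)) (hφ : ∀ g v, φ g (sm G v) = sm G (g • v))
    (Γ : Subgroup (W G ⋊[φ] π)) [Γ.FiniteIndex] (X : FinRes Γ)
    (hX : ∀ i, Subsingleton (X.homology (toRed Γ) i)) : False := by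
  classical
  obtain ⟨o, hoi⟩ := exists_ori hfree
  obtain ⟨R, T₀, hT₀⟩ := exists_rep hadj hfree hfin hloc
  have hc : Com φ := ⟨hadj, hφ⟩
  obtain ⟨C, p, β, y0, hC, hβ, hy0, hN, hT⟩ := cone hc o R hoi Y
  have h1 := euler X hX (fun x => TH hc x) (x₀ := 1 / 2) (fun a => TH_half hc a)
    (fun a => (TH_cont hc a).continuousAt) (fun x a b => TH_comm hc x a b) C p hN hC β hβ y0 hy0
  obtain ⟨N, hNe⟩ : ∃ N, N = R.K.sup Finset.card + Y.len := ⟨_, rfl⟩
  rw [← hNe] at h1
  obtain ⟨Q, hQ⟩ : ∃ Q : Polynomial ℂ, Q = ∑ n ∈ Finset.range (N + 1),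
      (Polynomial.C ((-1 : ℂ) ^ n * ((R.K.filter fun T : Finset V => T.card = n).card : ℂ)) * Polynomial.X ^ n +
        Polynomial.C ((-1 : ℂ) ^ n * (Y.n n : ℂ))) := ⟨_, rfl⟩
  have h2 : ∀ᶠ x : ℝ in 𝓝 (1 / 2), Q.eval (x : ℂ) = 0 := by
    have h3 : ∀ᶠ x : ℝ in 𝓝 (1 / 2), 0 < x ∧ x < 1 :=
      (isOpen_Ioo (a := (0 : ℝ)) (b := 1)).mem_nhds ⟨by norm_num, by norm_num⟩
    filter_upwards [h1, h3] with x hx hx01
    rw [hQ, Polynomial.eval_finsetSum, ← hx]
    refine Finset.sum_congr rfl fun n _ => ?_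
    rw [Polynomial.eval_add, Polynomial.eval_mul, Polynomial.eval_pow, Polynomial.eval_X, Polynomial.eval_C,
      Polynomial.eval_C, hT]
    have h4 : sq (TH hc x) 1 = 1 := by
      rw [sq_apply]
      exact tau_one hc x
    have h5 : ∀ T ∈ R.K.filter (fun T : Finset V => T.card = n), sq (TH hc x) (PT φ T) = (x : ℂ) ^ n := by
      intro T hT
      obtain ⟨hT1, hT2⟩ := Finset.mem_filter.1 hT
      rw [sq_apply]
      show tau (TH hc x (qc (iW φ (cp (ps_comm G) T)))) = _
      rw [tau_cp hc x (R.clq T hT1), cl_eq hx01.1.le hx01.2.le, hT2]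
      push_cast
      rfl
    rw [h4, Finset.sum_congr rfl h5, Finset.sum_const, nsmul_eq_mul]
    ring
  have h3 : Q = 0 := by
    refine Polynomial.eq_zero_of_infinite_isRoot Q ?_
    obtain ⟨ε, hε, hb⟩ := Metric.eventually_nhds_iff_ball.1 h2
    have h4 : (Set.Ioo (1 / 2 - ε) (1 / 2 + ε) : Set ℝ).Infinite := Set.Ioo_infinite (by linarith)
    have h5 := h4.image (f := fun x : ℝ => (x : ℂ)) (Complex.ofReal_injective.injOn)
    refine h5.mono ?_
    rintro _ ⟨x, hx, rfl⟩
    refine hb x ?_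
    rw [Real.ball_eq_Ioo]
    exact hx
  obtain ⟨m, hm⟩ : ∃ m, m = T₀.card := ⟨_, rfl⟩
  have hm1 : 1 ≤ m := by
    rw [hm]
    exact (R.ne T₀ hT₀).card_pos
  have hm2 : m ≤ N := by
    have : T₀.card ≤ R.K.sup Finset.card := Finset.le_sup (f := Finset.card) hT₀
    omega
  have h4 : Q.coeff m = (-1 : ℂ) ^ m * ((R.K.filter fun T : Finset V => T.card = m).card : ℂ) := by
    rw [hQ, Polynomial.finsetSum_coeff, Finset.sum_eq_single m]
    · rw [Polynomial.coeff_add, Polynomial.coeff_C_mul, Polynomial.coeff_X_pow, if_pos rfl, mul_one,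
        Polynomial.coeff_C_of_ne_zero (by omega), add_zero]
    · intro n _ hn
      rw [Polynomial.coeff_add, Polynomial.coeff_C_mul, Polynomial.coeff_X_pow, if_neg (Ne.symm hn), mul_zero,
        Polynomial.coeff_C_of_ne_zero (by omega), add_zero]
    · intro h
      exact absurd (Finset.mem_range.2 (by omega)) h
  rw [h3, Polynomial.coeff_zero] at h4
  have h5 : (R.K.filter fun T : Finset V => T.card = m).card ≠ 0 :=
    Finset.card_ne_zero_of_mem (Finset.mem_filter.2 ⟨hT₀, hm.symm⟩)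
  have h6 : ((-1 : ℂ) ^ m * ((R.K.filter fun T : Finset V => T.card = m).card : ℂ)) ≠ 0 :=
    mul_ne_zero (pow_ne_zero _ (by norm_num)) (Nat.cast_ne_zero.2 h5)
  exact h6 h4.symm

end Pool.Agent.X250.RT
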