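import Pool.Agent.X250.RT.Van

/-!
# Traces of endomorphisms of finitely generated projective modules
-/

set_option autoImplicit false
set_option linter.unusedSectionVars false

open scoped Matrix

namespace Pool.Agent.X250.RT

open Pool.Agent.X250.ZS (Cx)

section tm

variable {R : Type} [Ring R] {θ : R →+ ℂ}

/-- the trace of an endomorphism of a free module -/
noncomputable def tm (θ : R →+ ℂ) {n : Type} [Fintype n] [DecidableEq n] (φ : (n → R) →ₗ[R] (n → R)) : ℂ :=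
  ∑ j, θ (φ (Pi.single j 1) j)

theorem pi_apply {n : Type} [Fintype n] [DecidableEq n] {M : Type} [AddCommGroup M] [Module R M]
    (φ : (n → R) →ₗ[R] M) (x : n → R) : φ x = ∑ k, x k • φ (Pi.single k 1) := by
  have h := LinearMap.pi_apply_eq_sum_univ φ x
  rw [h]
  refine Finset.sum_congr rfl fun k _ => ?_
  congr 2
  funext j
  rw [Pi.single_apply]
  simp only [eq_comm]

theorem tm_comm (hθ : ∀ a b, θ (a * b) = θ (b * a)) {n m : Type} [Fintype n] [DecidableEq n] [Fintype m]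
    [DecidableEq m] (φ : (n → R) →ₗ[R] (m → R)) (ψ : (m → R) →ₗ[R] (n → R)) :
    tm θ (ψ ∘ₗ φ) = tm θ (φ ∘ₗ ψ) := by
  unfold tm
  have h1 : ∀ j, θ ((ψ ∘ₗ φ) (Pi.single j 1) j) = ∑ k, θ (φ (Pi.single j 1) k * ψ (Pi.single k 1) j) := by
    intro j
    rw [← map_sum]
    congr 1
    show ψ (φ (Pi.single j 1)) j = _
    rw [pi_apply ψ, Finset.sum_apply]
    rfl
  have h2 : ∀ k, θ ((φ ∘ₗ ψ) (Pi.single k 1) k) = ∑ j, θ (ψ (Pi.single k 1) j * φ (Pi.single j 1) k) := by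
    intro k
    rw [← map_sum]
    congr 1
    show φ (ψ (Pi.single k 1)) k = _
    rw [pi_apply φ, Finset.sum_apply]
    rfl
  rw [Finset.sum_congr rfl fun j _ => h1 j, Finset.sum_congr rfl fun k _ => h2 k, Finset.sum_comm]
  exact Finset.sum_congr rfl fun k _ => Finset.sum_congr rfl fun j _ => hθ _ _

theorem tm_add {n : Type} [Fintype n] [DecidableEq n] (φ ψ : (n → R) →ₗ[R] (n → R)) :
    tm θ (φ + ψ) = tm θ φ + tm θ ψ := by
  unfold tm
  rw [← Finset.sum_add_distrib]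
  refine Finset.sum_congr rfl fun j _ => ?_
  exact map_add θ _ _

theorem tm_mat {n : ℕ} (A : Matrix (Fin n) (Fin n) R) : tm θ A.vecMulLinear = mt θ A := by
  unfold tm mt
  refine Finset.sum_congr rfl fun j _ => ?_
  congr 1
  show ((Pi.single j 1 : Fin n → R) ᵥ* A) j = A j j
  simp [Matrix.vecMul, dotProduct, Pi.single_apply]

/-- presentation of a module as a summand of a finite free module -/
structure FP (R : Type) [Ring R] (M : Type) [AddCommGroup M] [Module R M] where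
  /-- the index set -/
  k : Type
  [fk : Fintype k]
  [dk : DecidableEq k]
  /-- the inclusion -/
  i : M →ₗ[R] (k → R)
  /-- the retraction -/
  r : (k → R) →ₗ[R] M
  ri : ∀ x, r (i x) = x

attribute [instance] FP.fk FP.dk

variable {M N : Type} [AddCommGroup M] [Module R M] [AddCommGroup N] [Module R N]

/-- the trace of an endomorphism -/
noncomputable def Tt (θ : R →+ ℂ) (p : FP R M) (φ : M →ₗ[R] M) : ℂ := tm θ (p.i ∘ₗ φ ∘ₗ p.r)

theorem Tt_add (p : FP R M) (φ ψ : M →ₗ[R] M) : Tt θ p (φ + ψ) = Tt θ p φ + Tt θ p ψ := by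
  unfold Tt
  rw [← tm_add]
  congr 1
  refine LinearMap.ext fun x => ?_
  show p.i (φ (p.r x) + ψ (p.r x)) = p.i (φ (p.r x)) + p.i (ψ (p.r x))
  rw [map_add]

theorem Tt_comm (hθ : ∀ a b, θ (a * b) = θ (b * a)) (p : FP R M) (q : FP R N) (φ : M →ₗ[R] N) (ψ : N →ₗ[R] M) :
    Tt θ p (ψ ∘ₗ φ) = Tt θ q (φ ∘ₗ ψ) := by
  have h1 := tm_comm hθ (q.i ∘ₗ φ ∘ₗ p.r) (p.i ∘ₗ ψ ∘ₗ q.r)
  have e1 : (p.i ∘ₗ ψ ∘ₗ q.r) ∘ₗ (q.i ∘ₗ φ ∘ₗ p.r) = p.i ∘ₗ (ψ ∘ₗ φ) ∘ₗ p.r := by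
    refine LinearMap.ext fun x => ?_
    show p.i (ψ (q.r (q.i (φ (p.r x))))) = p.i (ψ (φ (p.r x)))
    rw [q.ri]
  have e2 : (q.i ∘ₗ φ ∘ₗ p.r) ∘ₗ (p.i ∘ₗ ψ ∘ₗ q.r) = q.i ∘ₗ (φ ∘ₗ ψ) ∘ₗ q.r := by
    refine LinearMap.ext fun x => ?_
    show q.i (φ (p.r (p.i (ψ (q.r x))))) = q.i (φ (ψ (q.r x)))
    rw [p.ri]
  rw [e1, e2] at h1
  exact h1

theorem Tt_sub (p : FP R M) (φ ψ : M →ₗ[R] M) : Tt θ p (φ - ψ) = Tt θ p φ - Tt θ p ψ := by
  have := Tt_add (θ := θ) p (φ - ψ) ψ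
  rw [sub_add_cancel] at this
  rw [this]
  ring

/-- traces on modules which vanish -/
theorem Tt_zero (p : FP R M) (h : ∀ x : M, x = 0) (φ : M →ₗ[R] M) : Tt θ p φ = 0 := by
  unfold Tt tm
  refine Finset.sum_eq_zero fun j _ => ?_
  have h1 : (p.i ∘ₗ φ ∘ₗ p.r) (Pi.single j 1) = 0 := by
    show p.i (φ (p.r (Pi.single j 1))) = 0
    rw [h (φ _), map_zero]
  rw [h1, Pi.zero_apply, map_zero]

/-- homotopic chain maps have the same supertrace -/
theorem str_htpy (hθ : ∀ a b, θ (a * b) = θ (b * a)) (C : Cx R) (p : ∀ n, FP R (C.M n)) {N : ℕ}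
    (hN : ∀ x : C.M (N + 1), x = 0) (φ : ∀ n, C.M n →ₗ[R] C.M n) (h : ∀ n, C.M n →ₗ[R] C.M (n + 1))
    (h0 : ∀ x, C.d 0 (h 0 x) = φ 0 x) (h1 : ∀ n x, C.d (n + 1) (h (n + 1) x) + h n (C.d n x) = φ (n + 1) x) :
    ∑ n ∈ Finset.range (N + 1), (-1) ^ n * Tt θ (p n) (φ n) = 0 := by
  have key : ∀ m, ∑ n ∈ Finset.range (m + 1), (-1) ^ n * Tt θ (p n) (φ n) =
      (-1) ^ m * Tt θ (p (m + 1)) (h m ∘ₗ C.d m) := by
    intro m
    induction m with
    | zero =>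
      refine (Finset.sum_range_one _).trans ?_
      have e : φ 0 = C.d 0 ∘ₗ h 0 := LinearMap.ext fun x => (h0 x).symm
      rw [e, Tt_comm hθ (p 0) (p (0 + 1)) (h 0) (C.d 0)]
    | succ m ih =>
      have e : φ (m + 1) = C.d (m + 1) ∘ₗ h (m + 1) + h m ∘ₗ C.d m := LinearMap.ext fun x => (h1 m x).symm
      rw [Finset.sum_range_succ, ih, e, Tt_add, Tt_comm hθ (p (m + 1)) (p (m + 1 + 1)) (h (m + 1)) (C.d (m + 1)),
        pow_succ]
      ring
  rw [key, Tt_zero (p (N + 1)) hN, mul_zero]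

end tm

end Pool.Agent.X250.RT
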