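import Pool.Agent.X250.RT.Alg

/-!
# Comparison of the induced resolution with a projective resolution
-/

set_option autoImplicit false
set_option linter.unusedSectionVars false

open scoped Matrix

namespace Pool.Agent.X250.RT

open Pool.Agent.X250.ZS (Cx exists_lift exists_htpy ind ext0 ind_single ext0_single ind_exact ext_exact)
open Pool.Agent.H919R4.ZS (FinRes augm)

variable {P : Type} [Group P]

/-- the rational group ring -/
abbrev RP (P : Type) [Group P] : Type := MonoidAlgebra ℚ P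

/-- group elements -/
noncomputable abbrev gp (w : P) : RP P := MonoidAlgebra.single w 1

theorem gp_mul (u w : P) : gp u * gp w = gp (u * w) := by
  rw [MonoidAlgebra.single_mul_single, mul_one]

theorem gp_one : gp (1 : P) = 1 := rfl

/-- the augmentation -/
noncomputable def aug : RP P →+* ℚ := (MonoidAlgebra.lift ℚ ℚ P 1).toRingHom

theorem aug_single (w : P) (r : ℚ) : aug (MonoidAlgebra.single w r) = r := by
  show MonoidAlgebra.lift ℚ ℚ P 1 (MonoidAlgebra.single w r) = r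
  rw [MonoidAlgebra.lift_single]
  simp

theorem aug_smul (r : ℚ) (a : RP P) : aug (r • a) = r * aug a := by
  show MonoidAlgebra.lift ℚ ℚ P 1 (r • a) = r * MonoidAlgebra.lift ℚ ℚ P 1 a
  rw [map_smul, smul_eq_mul]

/-- the augmentation ideal is generated by the elements `g - 1` -/
theorem mem_of_aug {J : Submodule (RP P) (RP P)} (hJ : ∀ g : P, gp g - 1 ∈ J) {a : RP P} (ha : aug a = 0) : a ∈ J := by
  have key : ∀ a : RP P, a - algebraMap ℚ (RP P) (aug a) ∈ J := by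
    intro a
    induction a using MonoidAlgebra.induction_linear with
    | zero =>
      rw [map_zero, map_zero, sub_zero]
      exact zero_mem _
    | add x y hx hy =>
      have : x + y - algebraMap ℚ (RP P) (aug (x + y)) =
          (x - algebraMap ℚ (RP P) (aug x)) + (y - algebraMap ℚ (RP P) (aug y)) := by
        rw [map_add, map_add]
        abel
      rw [this]
      exact add_mem hx hy
    | single w r =>
      have : (MonoidAlgebra.single w r : RP P) - algebraMap ℚ (RP P) (aug (MonoidAlgebra.single w r)) =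
          algebraMap ℚ (RP P) r • (gp w - 1) := by
        rw [aug_single, smul_eq_mul, mul_sub, mul_one, ← Algebra.smul_def, MonoidAlgebra.smul_single', mul_one]
      rw [this]
      exact Submodule.smul_mem _ _ (hJ w)
  have := key a
  rwa [ha, map_zero, sub_zero] at this

section Ind

variable (Γ : Subgroup P)

/-- the inclusion of the group rings -/
noncomputable def ph : MonoidAlgebra ℤ Γ →+* RP P := ext0.comp (ind Γ)

theorem ph_single (γ : Γ) (m : ℤ) : ph Γ (MonoidAlgebra.single γ m) = MonoidAlgebra.single (γ : P) (m : ℚ) := by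
  show ext0 (ind Γ _) = _
  rw [ind_single, ext0_single]

theorem augm_single (γ : Γ) (m : ℤ) : augm Γ (MonoidAlgebra.single γ m) = m := by
  show MonoidAlgebra.lift ℤ ℤ Γ 1 (MonoidAlgebra.single γ m) = m
  rw [MonoidAlgebra.lift_single]
  simp

theorem aug_ph (a : MonoidAlgebra ℤ Γ) : aug (ph Γ a) = ((augm Γ a : ℤ) : ℚ) := by
  induction a using MonoidAlgebra.induction_linear with
  | zero => simp
  | add x y hx hy => rw [map_add, map_add, map_add, hx, hy, Int.cast_add]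
  | single γ m => rw [ph_single, aug_single, augm_single]

variable {Γ}

/-- the induced complex -/
noncomputable def Indc (X : FinRes Γ) : Cx (RP P) where
  M i := Fin (X.n i) → RP P
  d i := ((X.d i).map (ph Γ)).vecMulLinear
  dd i x := by
    show (x ᵥ* (X.d (i + 1)).map (ph Γ)) ᵥ* (X.d i).map (ph Γ) = 0
    rw [Matrix.vecMul_vecMul, ← Matrix.map_mul, Pool.Agent.H919R4.ZS.d_mul_d]
    have : (0 : Matrix (Fin (X.n (i + 1 + 1))) (Fin (X.n i)) (MonoidAlgebra ℤ Γ)).map (ph Γ) = 0 := by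
      ext1 a b
      exact map_zero (ph Γ)
    rw [this, Matrix.vecMul_zero]

theorem Indc_ex [Γ.FiniteIndex] (X : FinRes Γ) : (Indc X).Ex := by
  intro i x hx
  have hfin : Fintype (P ⧸ Γ) := Fintype.ofFinite _
  have e : ∀ i, (X.d i).map (ph Γ) = ((X.d i).map (ind Γ)).map ext0 := by
    intro i
    rw [Matrix.map_map]
    rfl
  have hx' : x ᵥ* (X.d i).map (ph Γ) = 0 := hx
  rw [e] at hx'
  obtain ⟨y, hy⟩ := ext_exact (D' := (X.d (i + 1)).map (ind Γ))
    (fun z hz => ind_exact Γ (D' := X.d (i + 1)) (fun x hx => (X.exact_succ i x).1 hx) z hz) x hx'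
  refine ⟨y, ?_⟩
  show y ᵥ* (X.d (i + 1)).map (ph Γ) = x
  rw [e, hy]

theorem Indc_proj (X : FinRes Γ) (i : ℕ) : Module.Projective (RP P) ((Indc X).M i) := by
  show Module.Projective (RP P) (Fin (X.n i) → RP P)
  infer_instance

/-- elements with vanishing augmentation are boundaries -/
theorem row_mem (X : FinRes Γ) (x : Fin (X.n 0) → MonoidAlgebra ℤ Γ) (hx : ∑ j, augm Γ (x j) * X.aug j = 0) :
    ∃ y, (Indc X).d 0 y = fun j => ph Γ (x j) := by
  obtain ⟨y, hy⟩ := (X.exact_zero x).1 hx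
  refine ⟨fun k => ph Γ (y k), ?_⟩
  show (fun k => ph Γ (y k)) ᵥ* (X.d 0).map (ph Γ) = _
  funext j
  rw [← hy, Matrix.vecMul, dotProduct, Matrix.vecMul, dotProduct, map_sum]
  refine Finset.sum_congr rfl fun k _ => ?_
  rw [Matrix.map_apply, map_mul]

/-- the element in degree zero -/
noncomputable def xi [Fintype (P ⧸ Γ)] {n : ℕ} (x0 : Fin n → MonoidAlgebra ℤ Γ) (j : Fin n) : RP P :=
  ((Fintype.card (P ⧸ Γ) : ℚ)⁻¹) • ∑ c : P ⧸ Γ, gp (Quotient.out c) * ph Γ (x0 j)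

theorem card_ne [Fintype (P ⧸ Γ)] : (Fintype.card (P ⧸ Γ) : ℚ) ≠ 0 := by
  have : Nonempty (P ⧸ Γ) := ⟨QuotientGroup.mk 1⟩
  exact_mod_cast Fintype.card_ne_zero

theorem aug_xi [Fintype (P ⧸ Γ)] {n : ℕ} (x0 : Fin n → MonoidAlgebra ℤ Γ) (j : Fin n) :
    aug (xi x0 j) = ((augm Γ (x0 j) : ℤ) : ℚ) := by
  unfold xi
  rw [aug_smul, map_sum]
  have h2 : ∀ c : P ⧸ Γ, aug (gp (Quotient.out c) * ph Γ (x0 j)) = ((augm Γ (x0 j) : ℤ) : ℚ) := by
    intro c
    rw [map_mul, aug_single, one_mul, aug_ph]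
  rw [Finset.sum_congr rfl fun c _ => h2 c, Finset.sum_const, nsmul_eq_mul, Finset.card_univ, ← mul_assoc,
    inv_mul_cancel₀ card_ne, one_mul]

/-- invariance up to boundaries -/
theorem xi_inv [Fintype (P ⧸ Γ)] (X : FinRes Γ) (x0 : Fin (X.n 0) → MonoidAlgebra ℤ Γ)
    (g : P) : ∃ y, (Indc X).d 0 y = fun j => gp g * xi x0 j - xi x0 j := by
  classical
  have hΓ : ∀ c : P ⧸ Γ, (Quotient.out (g • c))⁻¹ * (g * Quotient.out c) ∈ Γ := by
    intro c
    rw [← QuotientGroup.eq]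
    have h1 : (QuotientGroup.mk (Quotient.out (g • c)) : P ⧸ Γ) = g • c := Quotient.out_eq _
    have h2 : (QuotientGroup.mk (g * Quotient.out c) : P ⧸ Γ) = g • (QuotientGroup.mk (Quotient.out c) : P ⧸ Γ) :=
      rfl
    have h3 : (QuotientGroup.mk (Quotient.out c) : P ⧸ Γ) = c := Quotient.out_eq _
    rw [h1, h2, h3]
  obtain ⟨γ, hγ⟩ : ∃ γ : P ⧸ Γ → Γ, ∀ c, (γ c : P) = (Quotient.out (g • c))⁻¹ * (g * Quotient.out c) :=
    ⟨fun c => ⟨_, hΓ c⟩, fun c => rfl⟩
  have hb : ∀ c : P ⧸ Γ, ∃ y, (Indc X).d 0 y = fun j => ph Γ (MonoidAlgebra.single (γ c) 1 * x0 j - x0 j) := by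
    intro c
    refine row_mem X _ ?_
    refine Finset.sum_eq_zero fun j _ => ?_
    rw [map_sub, map_mul, augm_single, one_mul, sub_self, zero_mul]
  choose y hy using hb
  obtain ⟨κ, hκ⟩ : ∃ κ : RP P, κ = algebraMap ℚ (RP P) (Fintype.card (P ⧸ Γ) : ℚ)⁻¹ := ⟨_, rfl⟩
  refine ⟨κ • ∑ c : P ⧸ Γ, gp (Quotient.out (g • c)) • y c, ?_⟩
  obtain ⟨F, hF⟩ : ∃ F : P ⧸ Γ → (Fin (X.n 0) → RP P), F = fun (c : P ⧸ Γ) j =>
      gp (Quotient.out (g • c)) * ph Γ (MonoidAlgebra.single (γ c) 1 * x0 j - x0 j) := ⟨_, rfl⟩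
  have hlin : (Indc X).d 0 (κ • ∑ c : P ⧸ Γ, gp (Quotient.out (g • c)) • y c) =
      (κ • ∑ c : P ⧸ Γ, F c : Fin (X.n 0) → RP P) := by
    refine (LinearMap.map_smul ((Indc X).d 0) κ _).trans ?_
    refine congrArg (fun z : Fin (X.n 0) → RP P => κ • z) ?_
    refine (map_sum ((Indc X).d 0) _ _).trans ?_
    refine Finset.sum_congr rfl fun c _ => ?_
    refine (LinearMap.map_smul ((Indc X).d 0) (gp (Quotient.out (g • c))) (y c)).trans ?_
    rw [hy, hF]
    rfl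
  refine hlin.trans ?_
  funext j
  have h4 : (κ • ∑ c : P ⧸ Γ, F c : Fin (X.n 0) → RP P) j = ((Fintype.card (P ⧸ Γ) : ℚ)⁻¹) •
      ∑ c : P ⧸ Γ, gp (Quotient.out (g • c)) * ph Γ (MonoidAlgebra.single (γ c) 1 * x0 j - x0 j) := by
    rw [Pi.smul_apply, Finset.sum_apply, hκ, smul_eq_mul, ← Algebra.smul_def, hF]
  rw [h4]
  unfold xi
  rw [mul_smul_comm, ← smul_sub]
  congr 1
  have h5 : ∀ c : P ⧸ Γ, gp (Quotient.out (g • c)) * ph Γ (MonoidAlgebra.single (γ c) 1 * x0 j - x0 j) =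
      gp g * (gp (Quotient.out c) * ph Γ (x0 j)) - gp (Quotient.out (g • c)) * ph Γ (x0 j) := by
    intro c
    rw [map_sub, map_mul, mul_sub, ph_single]
    congr 1
    rw [← mul_assoc, ← mul_assoc]
    congr 1
    rw [Int.cast_one]
    show gp (Quotient.out (g • c)) * gp (γ c : P) = gp g * gp (Quotient.out c)
    rw [gp_mul, gp_mul, hγ, mul_inv_cancel_left]
  rw [Finset.sum_congr rfl fun c _ => h5 c, Finset.sum_sub_distrib, ← Finset.mul_sum]
  congr 1
  exact Equiv.sum_comp (MulAction.toPerm g : P ⧸ Γ ≃ P ⧸ Γ) fun c : P ⧸ Γ =>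
    gp (Quotient.out c) * ph Γ (x0 j)

/-- the augmentation of the induced complex -/
noncomputable def bA (X : FinRes Γ) : (Fin (X.n 0) → RP P) →ₗ[RP P] RP P where
  toFun z := ∑ j, z j * (X.aug j : RP P)
  map_add' x y := by
    rw [← Finset.sum_add_distrib]
    refine Finset.sum_congr rfl fun j _ => ?_
    rw [Pi.add_apply, add_mul]
  map_smul' a x := by
    rw [RingHom.id_apply, smul_eq_mul, Finset.mul_sum]
    refine Finset.sum_congr rfl fun j _ => ?_
    rw [Pi.smul_apply, smul_eq_mul, mul_assoc]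

theorem bA_d (X : FinRes Γ) (y : (Indc X).M 1) : aug (bA X ((Indc X).d 0 y)) = 0 := by
  have h2 : bA X ((Indc X).d 0 y) = ∑ k, (y : Fin (X.n 1) → RP P) k * ∑ j, ph Γ (X.d 0 k j) * (X.aug j : RP P) := by
    show ∑ j, ((y : Fin (X.n 1) → RP P) ᵥ* (X.d 0).map (ph Γ)) j * (X.aug j : RP P) = _
    simp only [Matrix.vecMul, dotProduct, Finset.sum_mul, Finset.mul_sum, Matrix.map_apply]
    rw [Finset.sum_comm]
    refine Finset.sum_congr rfl fun k _ => Finset.sum_congr rfl fun j _ => ?_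
    rw [mul_assoc]
  rw [h2, map_sum]
  refine Finset.sum_eq_zero fun k _ => ?_
  have h3 : ∑ j, augm Γ (X.d 0 k j) * X.aug j = 0 := by
    refine (X.exact_zero (X.d 0 k)).2 ⟨Pi.single k 1, ?_⟩
    funext j
    simp [Matrix.vecMul, dotProduct, Pi.single_apply]
  have h4 : ∀ j, aug (ph Γ (X.d 0 k j) * (X.aug j : RP P)) = ((augm Γ (X.d 0 k j) * X.aug j : ℤ) : ℚ) := by
    intro j
    rw [map_mul, aug_ph, map_intCast]
    push_cast
    rfl
  rw [map_mul, map_sum, Finset.sum_congr rfl fun j _ => h4 j, ← Int.cast_sum, h3, Int.cast_zero, mul_zero]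

theorem bA_xi [Fintype (P ⧸ Γ)] (X : FinRes Γ) (x0 : Fin (X.n 0) → MonoidAlgebra ℤ Γ)
    (hx0 : ∑ j, augm Γ (x0 j) * X.aug j = 1) : aug (bA X (xi x0)) = 1 := by
  show aug (∑ j, xi x0 j * (X.aug j : RP P)) = 1
  have h4 : ∀ j, aug (xi x0 j * (X.aug j : RP P)) = ((augm Γ (x0 j) * X.aug j : ℤ) : ℚ) := by
    intro j
    rw [map_mul, aug_xi, map_intCast]
    push_cast
    rfl
  rw [map_sum, Finset.sum_congr rfl fun j _ => h4 j, ← Int.cast_sum, hx0, Int.cast_one]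

/-- comparison -/
theorem compare [Γ.FiniteIndex] (X : FinRes Γ) (C : Cx (RP P)) (hP : ∀ n, Module.Projective (RP P) (C.M n))
    (hC : C.Ex) (β : C.M 0 →ₗ[RP P] RP P) (hβ : ∀ x, aug (β x) = 0 ↔ ∃ y, C.d 0 y = x) (y0 : C.M 0)
    (hy0 : aug (β y0) = 1) :
    ∃ (f : ∀ n, C.M n →ₗ[RP P] (Indc X).M n) (g : ∀ n, (Indc X).M n →ₗ[RP P] C.M n)
      (h : ∀ n, C.M n →ₗ[RP P] C.M (n + 1)),
      (∀ n x, (Indc X).d n (f (n + 1) x) = f n (C.d n x)) ∧ (∀ n x, C.d n (g (n + 1) x) = g n ((Indc X).d n x)) ∧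
      (∀ x, C.d 0 (h 0 x) = g 0 (f 0 x) - x) ∧
      ∀ n x, C.d (n + 1) (h (n + 1) x) + h n (C.d n x) = g (n + 1) (f (n + 1) x) - x := by
  classical
  have hfin : Fintype (P ⧸ Γ) := Fintype.ofFinite _
  obtain ⟨x0, hx0⟩ := X.surj
  have hJ : ∀ a : RP P, aug a = 0 → ∃ y, (Indc X).d 0 y = (fun j => a * xi x0 j : Fin (X.n 0) → RP P) := by
    intro a ha
    have h1 : a ∈ (LinearMap.range ((Indc X).d 0)).comap
        (LinearMap.toSpanSingleton (RP P) (Fin (X.n 0) → RP P) (xi x0)) := by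
      refine mem_of_aug (fun g => ?_) ha
      obtain ⟨y, hy⟩ := xi_inv X x0 g
      refine ⟨y, hy.trans ?_⟩
      funext j
      show _ = (gp g - 1) * xi x0 j
      rw [sub_mul, one_mul]
    obtain ⟨y, hy⟩ := h1
    exact ⟨y, hy⟩
  -- the map to the induced complex
  obtain ⟨f0, hf0'⟩ : ∃ f0 : C.M 0 →ₗ[RP P] (Indc X).M 0, ∀ x, f0 x =
      (fun j => β x * xi x0 j : Fin (X.n 0) → RP P) :=
    ⟨(LinearMap.toSpanSingleton (RP P) (Fin (X.n 0) → RP P) (xi x0)) ∘ₗ β, fun x => rfl⟩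
  obtain ⟨f, hf0, hf⟩ := exists_lift C (Indc X) hP (Indc_ex X) f0 (fun x => by
    obtain ⟨y, hy⟩ := hJ (β (C.d 0 x)) ((hβ _).2 ⟨x, rfl⟩)
    exact ⟨y, hy.trans (hf0' _).symm⟩)
  -- the map back
  obtain ⟨g0, hg0'⟩ : ∃ g0 : (Indc X).M 0 →ₗ[RP P] C.M 0, ∀ z, g0 z = bA X z • y0 :=
    ⟨(LinearMap.toSpanSingleton (RP P) (C.M 0) y0) ∘ₗ bA X, fun x => rfl⟩
  obtain ⟨g, hg0, hg⟩ := exists_lift (Indc X) C (Indc_proj X) hC g0 (fun y => by
    refine (hβ _).1 ?_
    rw [hg0', map_smul, smul_eq_mul, map_mul, bA_d, zero_mul])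
  obtain ⟨h, hh0, hh⟩ := exists_htpy C hP hC (fun n => g n ∘ₗ f n - LinearMap.id) (fun n x => by
    show C.d n (g (n + 1) (f (n + 1) x) - x) = g n (f n (C.d n x)) - C.d n x
    rw [map_sub, hg, hf]) (fun x => by
    refine (hβ _).1 ?_
    show aug (β (g 0 (f 0 x) - x)) = 0
    have e1 : g 0 (f 0 x) = bA X (fun j => β x * xi x0 j : Fin (X.n 0) → RP P) • y0 := by
      rw [hf0, hg0, hg0']
      exact congrArg (fun z : Fin (X.n 0) → RP P => bA X z • y0) (hf0' x)
    rw [e1, map_sub, map_smul, smul_eq_mul, map_sub, map_mul, hy0, mul_one]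
    have h1 : bA X (fun j => β x * xi x0 j : Fin (X.n 0) → RP P) = β x * bA X (xi x0) := by
      have := (bA X).map_smul (β x) (xi x0)
      exact this
    rw [h1, map_mul, bA_xi X x0 hx0, mul_one, sub_self])
  exact ⟨f, g, h, hf, hg, hh0, hh⟩

end Ind

end Pool.Agent.X250.RT
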