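import Pool.Agent.X250.RT.Dx

/-!
# The resolution
-/

set_option autoImplicit false
set_option linter.unusedSectionVars false

namespace Pool.Agent.X250.RT

open Pool.Agent.W907.SG Pool.Agent.W461.SGN
open Pool.Agent.H919R4.ZS (FinRes augm)
open Pool.Agent.X250.ZS (Cx sm sm_sm sm_inv sm_inj ps qs cp cp_empty cp_insert cp_neg ps_comm ps_idem cp_idem cp_sub
  RW gs gs_mul cl_sub cl_ins ext_exact exists_lift w_ind)

variable {V : Type} {G : SimpleGraph V} {π : Type} [Group π] [MulAction π V] {φ : π →* MulAut (W G)}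
  [DecidableEq V] (hφ : Com φ) (o : Ori G) (R : Rep G π)
  (hoi : ∀ (g : π) (s t : V), o.σ (g • s) (g • t) = o.σ s t)

/-- the sum of the components -/
noncomputable def sK (φ : π →* MulAut (W G)) (R : Rep G π) : (Dn φ R 1) →ₗ[RP (SP φ)] RP (SP φ) where
  toFun a := ∑ T ∈ R.K, a.1 T
  map_add' a b := by
    rw [← Finset.sum_add_distrib]
    rfl
  map_smul' c a := by
    rw [RingHom.id_apply, smul_eq_mul, Finset.mul_sum]
    rfl

theorem iW_smul (r : ℚ) (b : RW G) : iW φ (r • b) = r • iW φ b := by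
  induction b using MonoidAlgebra.induction_linear with
  | zero => rw [smul_zero, map_zero, smul_zero]
  | add x y hx hy => rw [smul_add, map_add, map_add, smul_add, hx, hy]
  | single p c => rw [MonoidAlgebra.smul_single', iW_single, iW_single, MonoidAlgebra.smul_single']

theorem smul_mem_J (J : Submodule (RP (SP φ)) (RP (SP φ))) (r : ℚ) {a : RP (SP φ)} (h : a ∈ J) : r • a ∈ J := by
  rw [Algebra.smul_def]
  exact J.smul_mem _ h

theorem Yrow' (Y : FinRes π) (x : Fin (Y.n 0) → MonoidAlgebra ℤ π) (hx : ∑ j, augm π (x j) * Y.aug j = 0) :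
    ∃ y : Fin (Y.n 1) → RP (SP φ), Matrix.vecMul y ((Y.d 0).map (ip φ)) = fun j => ip φ (x j) := Y_row Y x hx

include hφ hoi in
theorem cdata (Y : FinRes π) (y0 : Fin (Y.n 0) → RP (SP φ)) (hka : ∀ c : RP (SP φ), ka φ c = 0 →
    ∃ y : Fin (Y.n 1) → RP (SP φ), Matrix.vecMul y ((Y.d 0).map (ip φ)) = c • y0) :
    ∃ (dl : ∀ n, (Dn φ R (n + 1)) →ₗ[RP (SP φ)] (Dn φ R n))
      (Yd : ∀ n, (Fin (Y.n (n + 1)) → RP (SP φ)) →ₗ[RP (SP φ)] (Fin (Y.n n) → RP (SP φ)))
      (lam : ∀ n, (Dn φ R (n + 1)) →ₗ[RP (SP φ)] (Fin (Y.n n) → RP (SP φ))),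
      (∀ n x, (dl n x).1 = dD o R x.1) ∧ (∀ n x, Yd n (Yd (n + 1) x) = 0) ∧
      (∀ n x, Yd n x = 0 → ∃ y, Yd (n + 1) y = x) ∧ (∀ x, Yd 0 x = Matrix.vecMul x ((Y.d 0).map (ip φ))) ∧
      (∀ a, lam 0 a = sK φ R a • y0) ∧ ∀ n x, Yd n (lam (n + 1) x) = lam n (dl (n + 1) x) := by
  obtain ⟨l0, hl0⟩ : ∃ l0 : (Dsh hφ o hoi (R := R)).M 0 →ₗ[RP (SP φ)] (Yc φ Y).M 0, ∀ a, l0 a = sK φ R a • y0 :=
    ⟨(LinearMap.toSpanSingleton (RP (SP φ)) (Fin (Y.n 0) → RP (SP φ)) y0) ∘ₗ sK φ R, fun a => rfl⟩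
  have hproj : ∀ n, Module.Projective (RP (SP φ)) (Dn φ R n) := fun n =>
    Module.Projective.of_split (fpD φ R n).i (fpD φ R n).r (LinearMap.ext fun x => (fpD φ R n).ri x)
  obtain ⟨lam, hlam0, hlam⟩ := exists_lift (Dsh hφ o hoi (R := R)) (Yc φ Y) (fun n => hproj (n + 1)) (Yc_ex Y) l0
    (fun x => by
      rw [hl0]
      exact hka _ (ka_dD hφ o hoi x.2))
  exact ⟨fun n => (dD o R).restrict fun _ hx => dD_mem hφ o R hx, (Yc φ Y).d, lam, fun n x => rfl, (Yc φ Y).dd,
    Yc_ex Y, fun x => rfl, fun a => (LinearMap.congr_fun hlam0 a).trans (hl0 a), hlam⟩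

include hφ hoi in
theorem cone (Y : FinRes π) : ∃ (C : Cx (RP (SP φ))) (p : ∀ n, FP (RP (SP φ)) (C.M n))
    (β : C.M 0 →ₗ[RP (SP φ)] RP (SP φ)) (y0 : C.M 0), C.Ex ∧ (∀ x, aug (β x) = 0 ↔ ∃ y, C.d 0 y = x) ∧
    aug (β y0) = 1 ∧ (∀ n, R.K.sup Finset.card + Y.len < n → ∀ x : C.M n, x = 0) ∧
    ∀ (θ : RP (SP φ) →+ ℂ) n, Tt θ (p n) LinearMap.id =
      ∑ T ∈ R.K.filter (fun T : Finset V => T.card = n), θ (PT φ T) + Y.n n * θ 1 := by
  classical
  obtain ⟨x0, hx0⟩ := Y.surj
  obtain ⟨y0, hy0⟩ : ∃ y0 : Fin (Y.n 0) → RP (SP φ), y0 = fun j => ip φ (x0 j) := ⟨_, rfl⟩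
  have hby0 : bY φ Y y0 = ip φ (∑ j, x0 j * (Y.aug j : MonoidAlgebra ℤ π)) := by
    rw [hy0, bY_ip]
  have hau0 : augm π (∑ j, x0 j * (Y.aug j : MonoidAlgebra ℤ π)) = 1 := by
    rw [augm_sum, hx0]
  have haug0 : aug (bY φ Y y0) = 1 := by
    rw [hby0, aug_ip, hau0, Int.cast_one]
  -- the submodule of the elements which annihilate the base point modulo boundaries
  obtain ⟨J', hJ'⟩ : ∃ J' : Submodule (RP (SP φ)) (RP (SP φ)), ∀ c, c ∈ J' ↔
      ∃ y : Fin (Y.n 1) → RP (SP φ), Matrix.vecMul y ((Y.d 0).map (ip φ)) = c • y0 :=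
    ⟨(LinearMap.range ((Yc φ Y).d 0)).comap
      (LinearMap.toSpanSingleton (RP (SP φ)) (Fin (Y.n 0) → RP (SP φ)) y0), fun c => Iff.rfl⟩
  have hgi : ∀ h : π, gi φ h - 1 ∈ J' := by
    intro h
    obtain ⟨y, hy⟩ := Yrow' (φ := φ) Y (fun j => MonoidAlgebra.single h 1 * x0 j - x0 j) (by
      refine Finset.sum_eq_zero fun j _ => ?_
      have e1 : augm π (MonoidAlgebra.single h 1) = 1 := by
        show MonoidAlgebra.lift ℤ ℤ π 1 (MonoidAlgebra.single h 1) = 1
        rw [MonoidAlgebra.lift_single]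
        simp
      rw [map_sub, map_mul, e1, one_mul, sub_self, zero_mul])
    refine (hJ' _).2 ⟨y, hy.trans ?_⟩
    funext j
    show ip φ (MonoidAlgebra.single h 1 * x0 j - x0 j) = (gi φ h - 1) * y0 j
    rw [map_sub, map_mul, ip_single, Int.cast_one, one_smul, hy0, sub_mul, one_mul]
  have hka : ∀ c : RP (SP φ), ka φ c = 0 → c ∈ J' := by
    have key : ∀ c : RP (SP φ), c - iW φ (ka φ c) ∈ J' := by
      intro c
      induction c using MonoidAlgebra.induction_linear with
      | zero =>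
        rw [map_zero, map_zero, sub_zero]
        exact zero_mem _
      | add x y hx hy =>
        have : x + y - iW φ (ka φ (x + y)) = (x - iW φ (ka φ x)) + (y - iW φ (ka φ y)) := by
          rw [map_add, map_add]
          abel
        rw [this]
        exact add_mem hx hy
      | single p r =>
        have : (MonoidAlgebra.single p r : RP (SP φ)) - iW φ (ka φ (MonoidAlgebra.single p r)) =
            (MonoidAlgebra.single (SemidirectProduct.inl p.left : SP φ) r : RP (SP φ)) • (gi φ p.right - 1) := by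
          rw [ka_single, iW_single, smul_eq_mul, mul_sub, mul_one, MonoidAlgebra.single_mul_single, mul_one,
            SemidirectProduct.inl_left_mul_inr_right]
        rw [this]
        exact J'.smul_mem _ (hgi _)
    intro c hc
    have := key c
    rwa [hc, map_zero, sub_zero] at this
  obtain ⟨dl, Yd, lam, hdl, hYdd, hYex, hYd, hl0, hlam⟩ := cdata hφ o R hoi Y y0 fun c hc => (hJ' c).1 (hka c hc)
  -- the complex
  obtain ⟨C, hCM, hCd⟩ : ∃ C : ∀ n, (Dn φ R (n + 1) × (Fin (Y.n (n + 1)) → RP (SP φ))) →ₗ[RP (SP φ)]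
      (Dn φ R n × (Fin (Y.n n) → RP (SP φ))),
      (∀ n x, (C n x).1 = -dl n x.1) ∧ ∀ n x, (C n x).2 = Yd n x.2 + lam n x.1 :=
    ⟨fun n => LinearMap.prod (-(dl n ∘ₗ LinearMap.fst _ _ _))
      (Yd n ∘ₗ LinearMap.snd _ _ _ + lam n ∘ₗ LinearMap.fst _ _ _), fun n x => rfl, fun n x => rfl⟩
  have hdd : ∀ n x, C n (C (n + 1) x) = 0 := by
    intro n x
    refine Prod.ext ?_ ?_
    · rw [hCM, hCM, map_neg, neg_neg]
      refine Subtype.ext ?_
      rw [hdl, hdl, dD_dD hφ o hoi x.1.2]
      rfl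
    · rw [hCd, hCd, hCM, map_add, map_neg, hYdd, hlam, zero_add, add_neg_cancel]
      rfl
  have hK1 : ∀ y : Dn φ R 0, y = 0 := by
    intro y
    refine Subtype.ext (funext fun T => ?_)
    by_cases hT : T ∈ R.K
    · exact (y.2 T).2.2 (by have := (R.ne T hT).card_pos; omega)
    · exact (y.2 T).2.1 hT
  have haD : ∀ a : Dn φ R 1, aug (sK φ R a) = 0 := by
    intro a
    show aug (∑ T ∈ R.K, a.1 T) = 0
    rw [map_sum]
    refine Finset.sum_eq_zero fun T hT => ?_
    obtain ⟨t, ht⟩ := R.ne T hT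
    rw [← (a.2 T).1, map_mul]
    have h1 : aug (PT φ T) = 0 := by
      have e1 : cp (ps_comm G) T = cp (ps_comm G) (T.erase t) * ps G t := by
        have h2 : t ∉ T.erase t := Finset.notMem_erase t T
        have h3 : G.IsClique ((insert t (T.erase t) : Finset V) : Set V) := by
          rw [Finset.insert_erase ht]
          exact R.clq T hT
        rw [← Pool.Agent.X250.ZS.cp_comm (ps_comm G) h2 h3, ← cp_insert (ps_comm G) h2 h3, Finset.insert_erase ht]
      unfold PT
      rw [e1, map_mul, map_mul]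
      have e2 : aug (iW φ (ps G t)) = 0 := by
        unfold ps qs
        rw [iW_smul, aug_smul, map_sub, map_one, map_sub, map_one, iW_single, aug_single, sub_self, mul_zero]
      rw [e2, mul_zero]
    rw [h1, mul_zero]
  -- all group elements
  obtain ⟨J, hJ⟩ : ∃ J : Submodule (RP (SP φ)) (RP (SP φ)), ∀ c, c ∈ J ↔
      ∃ x : Dn φ R 1 × (Fin (Y.n 1) → RP (SP φ)), (C 0 x).2 = c • y0 :=
    ⟨(LinearMap.range (LinearMap.snd _ _ _ ∘ₗ C 0)).comap
      (LinearMap.toSpanSingleton (RP (SP φ)) (Fin (Y.n 0) → RP (SP φ)) y0), fun c => Iff.rfl⟩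
  have hJJ : ∀ c ∈ J', c ∈ J := by
    intro c hc
    obtain ⟨y, hy⟩ := (hJ' c).1 hc
    refine (hJ c).2 ⟨(0, y), ?_⟩
    rw [hCd]
    show Yd 0 y + lam 0 0 = c • y0
    rw [hYd, hy, map_zero, add_zero]
  have hPT : ∀ T ∈ R.K, T.card = 1 → PT φ T ∈ J := by
    intro T hT hc
    obtain ⟨a, ha⟩ : ∃ a : Dn φ R 1, a.1 = Pi.single T (PT φ T) := by
      refine ⟨⟨Pi.single T (PT φ T), fun S => ?_⟩, rfl⟩
      by_cases hS : S = T
      · subst hS
        rw [Pi.single_eq_same]
        exact ⟨PT_idem S, fun h => absurd hT h, fun h => absurd hc h⟩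
      · rw [Pi.single_eq_of_ne hS]
        exact ⟨zero_mul _, fun _ => rfl, fun _ => rfl⟩
    refine (hJ _).2 ⟨(a, 0), ?_⟩
    rw [hCd]
    show Yd 0 0 + lam 0 a = PT φ T • y0
    rw [map_zero, zero_add, hl0]
    congr 1
    show ∑ S ∈ R.K, a.1 S = _
    rw [ha, Finset.sum_eq_single T]
    · rw [Pi.single_eq_same]
    · intro S _ hS
      rw [Pi.single_eq_of_ne hS]
    · intro h
      exact absurd hT h
  have hps : ∀ v : V, iW φ (ps G v) ∈ J := by
    intro v
    have h1 := R.dec {v} (single_cl v) (Finset.singleton_nonempty v)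
    have h2 := R.mem {v} (single_cl v) (Finset.singleton_nonempty v)
    obtain ⟨g, hg⟩ : ∃ g, g = R.γ {v} := ⟨_, rfl⟩
    obtain ⟨T, hT⟩ : ∃ T, T = R.ρ {v} := ⟨_, rfl⟩
    rw [← hg, ← hT] at h1
    rw [← hT] at h2
    have h3 : T.card = 1 := by
      rw [← card_gT g, h1, Finset.card_singleton]
    have h4 : PT φ {v} = iW φ (ps G v) := by
      unfold PT
      have e := cp_insert (ps_comm G) (Finset.notMem_empty v) (by simp)
      rw [cp_empty, mul_one] at e
      have e2 : insert v (∅ : Finset V) = {v} := rfl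
      rw [e2] at e
      rw [e]
    have h5 : iW φ (ps G v) = gi φ g • PT φ T - iW φ (ps G v) • (gi φ g - 1) := by
      rw [smul_eq_mul, smul_eq_mul, gi_PT hφ, h1, h4, mul_sub, mul_one]
      abel
    rw [h5]
    exact sub_mem (J.smul_mem _ (hPT T h2 h3)) (J.smul_mem _ (hJJ _ (hgi g)))
  have hinl : ∀ w : W G, gp (SemidirectProduct.inl w : SP φ) - 1 ∈ J := by
    intro w
    refine w_ind G (p := fun w => gp (SemidirectProduct.inl w : SP φ) - 1 ∈ J) w ?_ ?_
    · rw [map_one, gp_one, sub_self]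
      exact zero_mem _
    · intro w v ih
      have h1 : gp (SemidirectProduct.inl (sm G v * w) : SP φ) - 1 =
          gp (SemidirectProduct.inl (sm G v) : SP φ) • (gp (SemidirectProduct.inl w : SP φ) - 1) +
            (-(2 : ℚ)) • iW φ (ps G v) := by
        unfold ps qs
        rw [smul_eq_mul, mul_sub, gp_mul, mul_one, map_mul, iW_smul, smul_smul, map_sub, map_one, iW_single]
        norm_num
      rw [h1]
      exact add_mem (J.smul_mem _ ih) (smul_mem_J J _ (hps v))
  have hall : ∀ q : SP φ, gp q - 1 ∈ J := by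
    intro q
    have h1 : gp q - 1 = gp (SemidirectProduct.inl q.left : SP φ) • (gi φ q.right - 1) +
        (gp (SemidirectProduct.inl q.left : SP φ) - 1) := by
      rw [smul_eq_mul, mul_sub, gp_mul, mul_one, SemidirectProduct.inl_left_mul_inr_right]
      abel
    rw [h1]
    exact add_mem (J.smul_mem _ (hJJ _ (hgi _))) (hinl _)
  -- the statement
  refine ⟨{ M := fun n => Dn φ R n × (Fin (Y.n n) → RP (SP φ)), d := C, dd := hdd },
    fun n =>
      { k := ↥R.K ⊕ Fin (Y.n n)
        i :=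
          { toFun := fun x => Sum.elim ((fpD φ R n).i x.1) x.2
            map_add' := fun x y => by
              funext j
              rcases j with j | j
              · show (fpD φ R n).i (x.1 + y.1) j = _
                rw [map_add]
                rfl
              · rfl
            map_smul' := fun c x => by
              funext j
              rcases j with j | j
              · show (fpD φ R n).i (c • x.1) j = _
                rw [map_smul]
                rfl
              · rfl }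
        r := LinearMap.prod ((fpD φ R n).r ∘ₗ LinearMap.funLeft _ _ Sum.inl) (LinearMap.funLeft _ _ Sum.inr)
        ri := fun x => Prod.ext ((fpD φ R n).ri x.1) rfl },
    bY φ Y ∘ₗ LinearMap.snd _ _ _, (0, y0), ?_, ?_, haug0, ?_, ?_⟩
  · intro n x hx
    have hx1 : -dl n x.1 = 0 := (hCM n x).symm.trans (congrArg Prod.fst hx)
    have hx2 : Yd n x.2 + lam n x.1 = 0 := (hCd n x).symm.trans (congrArg Prod.snd hx)
    have hx1' : dD o R x.1.1 = 0 := by
      rw [← hdl, neg_eq_zero.1 hx1]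
      rfl
    have key : ∃ z : Dn φ R (n + 2), dl (n + 1) z = x.1 := by
      rcases n with _ | n
      · obtain ⟨z, hz, h⟩ := Dn_ex1 hφ o hoi x.1.2 (by
          have h1 := congrArg (fun y : Fin (Y.n 0) → RP (SP φ) => ka φ (bY φ Y y)) hx2
          have h2 : ka φ (bY φ Y (Yd 0 x.2 + lam 0 x.1)) = ka φ (sK φ R x.1) := by
            rw [hl0, hYd, map_add, map_add, map_smul, (bY_d_aug Y x.2).2, zero_add, hby0, smul_eq_mul, ka_mul_ip, hau0,
              Int.cast_one, one_smul]
          have h3 : ka φ (bY φ Y (0 : Fin (Y.n 0) → RP (SP φ))) = 0 := by rw [map_zero, map_zero]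
          exact h2.symm.trans (h1.trans h3))
        exact ⟨⟨z, hz⟩, Subtype.ext ((hdl _ _).trans h)⟩
      · obtain ⟨z, hz, h⟩ := Dn_ex hφ o hoi x.1.2 hx1'
        exact ⟨⟨z, hz⟩, Subtype.ext ((hdl _ _).trans h)⟩
    obtain ⟨z, hz⟩ := key
    obtain ⟨b, hb⟩ := hYex n (x.2 + lam (n + 1) z) (by rw [map_add, hlam, hz, hx2])
    refine ⟨(-z, b), Prod.ext ?_ ?_⟩
    · rw [hCM]
      show -dl (n + 1) (-z) = x.1
      rw [map_neg, neg_neg, hz]
    · rw [hCd]
      show Yd (n + 1) b + lam (n + 1) (-z) = x.2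
      rw [hb, map_neg, add_neg_cancel_right]
  · intro x
    constructor
    · intro hx
      -- reduce to multiples of the base point
      have h1 : bY φ Y x.2 ∈ J := mem_of_aug hall hx
      obtain ⟨u, hu⟩ := (hJ _).1 h1
      have h2 : ∃ y, Yd 0 y = x.2 - bY φ Y x.2 • y0 := by
        have h3 : ∀ j : Fin (Y.n 0), ∃ y, Yd 0 y =
            (Pi.single j 1 - (Y.aug j : RP (SP φ)) • y0 : Fin (Y.n 0) → RP (SP φ)) := by
          intro j
          obtain ⟨y, hy⟩ := Yrow' (φ := φ) Y (fun k => (Pi.single j 1 : Fin (Y.n 0) → MonoidAlgebra ℤ π) k -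
              (Y.aug j : MonoidAlgebra ℤ π) * x0 k) (by
            have e1 : ∀ k, augm π ((Pi.single j 1 : Fin (Y.n 0) → MonoidAlgebra ℤ π) k -
                (Y.aug j : MonoidAlgebra ℤ π) * x0 k) * Y.aug k =
                (if k = j then Y.aug j else 0) - Y.aug j * (augm π (x0 k) * Y.aug k) := by
              intro k
              rw [map_sub, map_mul, map_intCast, sub_mul, Int.cast_id, mul_assoc]
              congr 1
              by_cases hk : k = j
              · subst hk
                rw [Pi.single_eq_same, map_one, one_mul, if_pos rfl]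
              · rw [Pi.single_eq_of_ne hk, map_zero, zero_mul, if_neg hk]
            rw [Finset.sum_congr rfl fun k _ => e1 k, Finset.sum_sub_distrib, ← Finset.mul_sum, hx0,
              Finset.sum_ite_eq', if_pos (Finset.mem_univ _), mul_one, sub_self])
          refine ⟨y, (hYd y).trans (hy.trans ?_)⟩
          funext k
          show ip φ ((Pi.single j 1 : Fin (Y.n 0) → MonoidAlgebra ℤ π) k - (Y.aug j : MonoidAlgebra ℤ π) * x0 k) =
            (Pi.single j 1 : Fin (Y.n 0) → RP (SP φ)) k - (Y.aug j : RP (SP φ)) * y0 k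
          rw [map_sub, map_mul, map_intCast, hy0]
          congr 1
          by_cases hk : k = j
          · subst hk
            rw [Pi.single_eq_same, Pi.single_eq_same, map_one]
          · rw [Pi.single_eq_of_ne hk, Pi.single_eq_of_ne hk, map_zero]
        choose y hy using h3
        refine ⟨∑ j, x.2 j • y j, ?_⟩
        rw [map_sum]
        have h4 : ∀ j, Yd 0 (x.2 j • y j) =
            (x.2 j • (Pi.single j 1 - (Y.aug j : RP (SP φ)) • y0) : Fin (Y.n 0) → RP (SP φ)) := by
          intro j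
          rw [map_smul, hy]
        rw [Finset.sum_congr rfl fun j _ => h4 j]
        funext k
        rw [Finset.sum_apply, Pi.sub_apply]
        show ∑ j, x.2 j * ((Pi.single j 1 : Fin (Y.n 0) → RP (SP φ)) k - (Y.aug j : RP (SP φ)) * y0 k) =
          x.2 k - (∑ j, x.2 j * (Y.aug j : RP (SP φ))) * y0 k
        simp only [mul_sub, Finset.sum_sub_distrib, Finset.sum_mul, mul_assoc]
        congr 1
        rw [Finset.sum_eq_single k]
        · rw [Pi.single_eq_same, mul_one]
        · intro j _ hj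
          rw [Pi.single_eq_of_ne (Ne.symm hj), mul_zero]
        · intro h
          exact absurd (Finset.mem_univ k) h
      obtain ⟨y, hy⟩ := h2
      refine ⟨u + (0, y), Prod.ext ?_ ?_⟩
      · exact (hK1 _).trans (hK1 _).symm
      · show (C 0 (u + (0, y))).2 = x.2
        rw [map_add]
        show (C 0 u).2 + (C 0 (0, y)).2 = x.2
        rw [hu, hCd]
        show bY φ Y x.2 • y0 + (Yd 0 y + lam 0 0) = x.2
        rw [map_zero, hy, add_zero, add_sub_cancel]
    · rintro ⟨y, rfl⟩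
      show aug (bY φ Y (C 0 y).2) = 0
      rw [hCd, hl0, hYd, map_add, map_add, map_smul, (bY_d_aug Y y.2).1, smul_eq_mul, map_mul, haD, zero_mul,
        add_zero]
  · intro n hn x
    refine Prod.ext (Subtype.ext (funext fun T => ?_)) (funext fun j => ?_)
    · by_cases hT : T ∈ R.K
      · have h1 : T.card ≤ R.K.sup Finset.card := Finset.le_sup (f := Finset.card) hT
        exact (x.1.2 T).2.2 (by omega)
      · exact (x.1.2 T).2.1 hT
    · have h1 : Y.n n = 0 := Y.n_eq_zero n (by omega)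
      have := j.2
      omega
  · intro θ n
    unfold Tt tm
    rw [Fintype.sum_sum_type]
    congr 1
    · have h1 : ∀ T : ↥R.K, θ ((if h : (T : Finset V) ∈ R.K ∧ (T : Finset V).card = n then
          (Pi.single (Sum.inl T) 1 : ↥R.K ⊕ Fin (Y.n n) → RP (SP φ)) (Sum.inl ⟨T, h.1⟩) * PT φ T else 0)) =
          if (T : Finset V).card = n then θ (PT φ T) else 0 := by
        intro T
        by_cases h : (T : Finset V).card = n
        · rw [dif_pos ⟨T.2, h⟩, if_pos h]
          have h2 : (⟨(T : Finset V), T.2⟩ : ↥R.K) = T := rfl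
          rw [h2, Pi.single_eq_same, one_mul]
        · rw [dif_neg (fun h' => h h'.2), if_neg h, map_zero]
      refine (Finset.sum_congr rfl fun T _ => h1 T).trans ?_
      rw [Finset.sum_filter, ← Finset.sum_attach R.K]
      rfl
    · have h1 : ∀ j : Fin (Y.n n), θ ((Pi.single (Sum.inr j) 1 : ↥R.K ⊕ Fin (Y.n n) → RP (SP φ)) (Sum.inr j)) = θ 1 := by
        intro j
        rw [Pi.single_eq_same]
      refine (Finset.sum_congr rfl fun j _ => h1 j).trans ?_
      rw [Finset.sum_const, Finset.card_univ, Fintype.card_fin, nsmul_eq_mul]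

end Pool.Agent.X250.RT
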