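import Pool.Agent.X250.RT.Sl

/-!
# The Davis complex in positive degrees as a complex over the group ring of the semidirect product
-/

set_option autoImplicit false
set_option linter.unusedSectionVars false

namespace Pool.Agent.X250.RT

open Pool.Agent.W907.SG Pool.Agent.W461.SGN
open Pool.Agent.X250.ZS (Cx sm sm_sm sm_inv sm_inj ps qs cp cp_empty cp_insert cp_neg ps_comm ps_idem cp_idem cp_sub
  RW gs cl_sub cl_ins)

variable {V : Type} {G : SimpleGraph V} {π : Type} [Group π] [MulAction π V] {φ : π →* MulAut (W G)}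
  [DecidableEq V]

/-! ### translates of cliques -/

/-- the translate -/
def gT (g : π) (T : Finset V) : Finset V := T.image fun v => g • v

theorem mem_gT {g : π} {T : Finset V} {v : V} : v ∈ gT g T ↔ g⁻¹ • v ∈ T := by
  unfold gT
  rw [Finset.mem_image]
  constructor
  · rintro ⟨u, hu, rfl⟩
    rwa [inv_smul_smul]
  · intro h
    exact ⟨_, h, smul_inv_smul g v⟩

theorem smul_mem_gT {g : π} {T : Finset V} {v : V} : g • v ∈ gT g T ↔ v ∈ T := by
  rw [mem_gT, inv_smul_smul]

theorem gT_one (T : Finset V) : gT (1 : π) T = T := by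
  ext v
  rw [mem_gT, inv_one, one_smul]

theorem gT_mul (g h : π) (T : Finset V) : gT (g * h) T = gT g (gT h T) := by
  ext v
  rw [mem_gT, mem_gT, mem_gT, mul_inv_rev, mul_smul]

theorem gT_inv (g : π) (T : Finset V) : gT g⁻¹ (gT g T) = T := by
  rw [← gT_mul, inv_mul_cancel, gT_one]

theorem gT_inv' (g : π) (T : Finset V) : gT g (gT g⁻¹ T) = T := by
  rw [← gT_mul, mul_inv_cancel, gT_one]

theorem card_gT (g : π) (T : Finset V) : (gT g T).card = T.card :=
  Finset.card_image_of_injective _ (MulAction.injective g)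

theorem gT_insert (g : π) (v : V) (T : Finset V) : gT g (insert v T) = insert (g • v) (gT g T) :=
  Finset.image_insert _ _ _

theorem gT_erase (g : π) (v : V) (T : Finset V) : gT g (T.erase v) = (gT g T).erase (g • v) := by
  ext u
  rw [mem_gT, Finset.mem_erase, Finset.mem_erase, mem_gT]
  have : g⁻¹ • u ≠ v ↔ u ≠ g • v := not_congr inv_smul_eq_iff
  rw [this]

theorem gT_nonempty {g : π} {T : Finset V} : (gT g T).Nonempty ↔ T.Nonempty := Finset.image_nonempty

variable (hφ : Com φ)

include hφ in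
theorem gT_clique {g : π} {T : Finset V} (h : G.IsClique (T : Set V)) : G.IsClique ((gT g T : Finset V) : Set V) := by
  intro u hu v hv huv
  have hu' := mem_gT.1 (Finset.mem_coe.1 hu)
  have hv' := mem_gT.1 (Finset.mem_coe.1 hv)
  have h1 := hφ.adj g _ _ (h hu' hv' (fun h => huv (smul_left_cancel g⁻¹ h)))
  rwa [smul_inv_smul, smul_inv_smul] at h1

theorem fa_ps {hφ : Com φ} (g : π) (s : V) : fa φ g (ps G s) = ps G (g • s) := by
  unfold ps qs
  have e1 : ∀ (r : ℚ) (b : RW G), fa φ g (r • b) = r • fa φ g b := by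
    intro r b
    induction b using MonoidAlgebra.induction_linear with
    | zero => rw [smul_zero, map_zero, smul_zero]
    | add x y hx hy => rw [smul_add, map_add, map_add, smul_add, hx, hy]
    | single p c => rw [MonoidAlgebra.smul_single', fa_single, fa_single, MonoidAlgebra.smul_single']
  rw [e1, map_sub, map_one, fa_single, hφ.sm]

include hφ in
theorem fa_cp (g : π) (T : Finset V) : fa φ g (cp (ps_comm G) T) = cp (ps_comm G) (gT g T) := by
  induction T using Finset.induction_on with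
  | empty =>
    have : gT g (∅ : Finset V) = ∅ := rfl
    rw [this, cp_empty, map_one]
  | insert s T hs ih =>
    by_cases h : G.IsClique ((insert s T : Finset V) : Set V)
    · have h1 : G.IsClique ((gT g (insert s T) : Finset V) : Set V) := gT_clique hφ h
      rw [gT_insert] at h1
      have h2 : g • s ∉ gT g T := fun h => hs (smul_mem_gT.1 h)
      rw [cp_insert (ps_comm G) hs h, map_mul, ih, gT_insert, cp_insert (ps_comm G) h2 h1, fa_ps (hφ := hφ)]
    · rw [cp_neg _ h, map_zero, cp_neg]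
      intro h1
      apply h
      have := gT_clique hφ (g := g⁻¹) h1
      rwa [gT_inv] at this

/-! ### representatives -/

/-- orbit representatives of the nonempty cliques -/
structure Rep (G : SimpleGraph V) (π : Type) [Group π] [MulAction π V] where
  /-- the representatives -/
  K : Finset (Finset V)
  /-- the representative of a clique -/
  ρ : Finset V → Finset V
  /-- the group element -/
  γ : Finset V → π
  clq : ∀ T ∈ K, G.IsClique (T : Set V)
  ne : ∀ T ∈ K, T.Nonempty
  mem : ∀ T : Finset V, G.IsClique (T : Set V) → T.Nonempty → ρ T ∈ K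
  dec : ∀ T : Finset V, G.IsClique (T : Set V) → T.Nonempty → gT (γ T) (ρ T) = T
  uni : ∀ T ∈ K, ∀ g : π, ρ (gT g T) = T ∧ γ (gT g T) = g

variable (o : Ori G) (R : Rep G π)

/-- the projection of a clique -/
noncomputable def PT (φ : π →* MulAut (W G)) (T : Finset V) : RP (SP φ) := iW φ (cp (ps_comm G) T)

theorem PT_idem (T : Finset V) : PT φ T * PT φ T = PT φ T := by
  unfold PT
  rw [← map_mul, cp_idem (ps_comm G) (ps_idem G)]

theorem PT_erase {s : V} {T : Finset V} (hs : s ∈ T) : PT φ T * PT φ (T.erase s) = PT φ T := by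
  unfold PT
  rw [← map_mul]
  congr 1
  have := cp_sub (ps_comm G) (ps_idem G) (Finset.notMem_erase s T)
  rwa [Finset.insert_erase hs] at this

include hφ in
theorem gi_PT (g : π) (T : Finset V) : gi φ g * PT φ T = PT φ (gT g T) * gi φ g := by
  unfold PT
  rw [gi_iW, fa_cp hφ]

/-- the chains -/
noncomputable def Dn (φ : π →* MulAut (W G)) (R : Rep G π) (n : ℕ) : Submodule (RP (SP φ)) (Finset V → RP (SP φ)) where
  carrier := {y | ∀ T, y T * PT φ T = y T ∧ (T ∉ R.K → y T = 0) ∧ (T.card ≠ n → y T = 0)}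
  add_mem' := by
    intro x y hx hy T
    refine ⟨?_, fun h => ?_, fun h => ?_⟩
    · rw [Pi.add_apply, add_mul, (hx T).1, (hy T).1]
    · rw [Pi.add_apply, (hx T).2.1 h, (hy T).2.1 h, add_zero]
    · rw [Pi.add_apply, (hx T).2.2 h, (hy T).2.2 h, add_zero]
  zero_mem' := fun T => ⟨zero_mul _, fun _ => rfl, fun _ => rfl⟩
  smul_mem' := by
    intro a x hx T
    refine ⟨?_, fun h => ?_, fun h => ?_⟩
    · rw [Pi.smul_apply, smul_eq_mul, mul_assoc, (hx T).1]
    · rw [Pi.smul_apply, (hx T).2.1 h, smul_zero]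
    · rw [Pi.smul_apply, (hx T).2.2 h, smul_zero]

open Classical in
/-- the differential -/
noncomputable def dD : (Finset V → RP (SP φ)) →ₗ[RP (SP φ)] (Finset V → RP (SP φ)) where
  toFun y T₀ := if T₀ ∈ R.K then ∑ T ∈ R.K, ∑ s ∈ T,
    (if (T.erase s).Nonempty ∧ R.ρ (T.erase s) = T₀ then
      eo o s (T.erase s) • (y T * gi φ (R.γ (T.erase s))) else 0) else 0
  map_add' x y := by
    funext T₀
    show _ = (if T₀ ∈ R.K then _ else (0 : RP (SP φ))) + if T₀ ∈ R.K then _ else (0 : RP (SP φ))
    split_ifs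
    · rw [← Finset.sum_add_distrib]
      refine Finset.sum_congr rfl fun T _ => ?_
      rw [← Finset.sum_add_distrib]
      refine Finset.sum_congr rfl fun s _ => ?_
      split_ifs
      · rw [Pi.add_apply, add_mul, smul_add]
      · rw [add_zero]
    · rw [add_zero]
  map_smul' a x := by
    funext T₀
    show _ = a * (if T₀ ∈ R.K then _ else (0 : RP (SP φ)))
    split_ifs
    · rw [Finset.mul_sum]
      refine Finset.sum_congr rfl fun T _ => ?_
      rw [Finset.mul_sum]
      refine Finset.sum_congr rfl fun s _ => ?_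
      split_ifs
      · rw [Pi.smul_apply, smul_eq_mul, mul_smul_comm, mul_assoc]
      · rw [mul_zero]
    · rw [mul_zero]

open Classical in
theorem dD_apply (y : Finset V → RP (SP φ)) {T₀ : Finset V} (h : T₀ ∈ R.K) :
    dD o R y T₀ = ∑ T ∈ R.K, ∑ s ∈ T, (if (T.erase s).Nonempty ∧ R.ρ (T.erase s) = T₀ then
      eo o s (T.erase s) • (y T * gi φ (R.γ (T.erase s))) else 0) := if_pos h

theorem cl_erase {T : Finset V} (h : G.IsClique (T : Set V)) (s : V) : G.IsClique ((T.erase s : Finset V) : Set V) :=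
  h.subset (by exact_mod_cast Finset.erase_subset s T)

include hφ in
theorem dD_mem {n : ℕ} {y : Finset V → RP (SP φ)} (hy : y ∈ Dn φ R (n + 1)) : dD o R y ∈ Dn φ R n := by
  classical
  intro T₀
  by_cases h : T₀ ∈ R.K
  · refine ⟨?_, fun h' => absurd h h', fun hc => ?_⟩
    · rw [dD_apply o R y h, Finset.sum_mul]
      refine Finset.sum_congr rfl fun T hT => ?_
      rw [Finset.sum_mul]
      refine Finset.sum_congr rfl fun s hs => ?_
      by_cases h1 : (T.erase s).Nonempty ∧ R.ρ (T.erase s) = T₀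
      · rw [if_pos h1, smul_mul_assoc, mul_assoc, gi_PT hφ]
        have h2 := R.dec (T.erase s) (cl_erase (R.clq T hT) s) h1.1
        rw [h1.2] at h2
        rw [h2, ← mul_assoc]
        nth_rewrite 1 [← (hy T).1]
        rw [mul_assoc (y T), PT_erase hs, (hy T).1]
      · rw [if_neg h1, zero_mul]
    · rw [dD_apply o R y h]
      refine Finset.sum_eq_zero fun T hT => Finset.sum_eq_zero fun s hs => ?_
      by_cases h1 : (T.erase s).Nonempty ∧ R.ρ (T.erase s) = T₀
      · have h2 := R.dec (T.erase s) (cl_erase (R.clq T hT) s) h1.1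
        have h3 : (T.erase s).card = T₀.card := by rw [← h2, card_gT, h1.2]
        have h4 := Finset.card_erase_add_one hs
        rw [if_pos h1, (hy T).2.2 (by omega), zero_mul, smul_zero]
      · rw [if_neg h1]
  · have h1 : dD o R y T₀ = 0 := if_neg h
    rw [h1]
    exact ⟨zero_mul _, fun _ => rfl, fun _ => rfl⟩

/-! ### families -/

open Classical in
/-- the family of an element -/
noncomputable def fam (y : Finset V → RP (SP φ)) (A : Finset V) : RW G :=
  if G.IsClique (A : Set V) ∧ A.Nonempty then sl (R.γ A) (y (R.ρ A)) else 0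

variable {R}

theorem fam_gT {T : Finset V} (hφ : Com φ) (hT : T ∈ R.K) (g : π) (y : Finset V → RP (SP φ)) :
    fam R y (gT g T) = sl g (y T) := by
  classical
  unfold fam
  rw [if_pos ⟨gT_clique hφ (R.clq T hT), gT_nonempty.2 (R.ne T hT)⟩, (R.uni T hT g).1, (R.uni T hT g).2]

theorem fam_neg {y : Finset V → RP (SP φ)} {A : Finset V} (h : ¬ (G.IsClique (A : Set V) ∧ A.Nonempty)) :
    fam R y A = 0 := by
  classical
  unfold fam
  rw [if_neg h]

include hφ in
theorem fam_inj {y z : Finset V → RP (SP φ)} (hy : ∀ T, T ∉ R.K → y T = 0) (hz : ∀ T, T ∉ R.K → z T = 0)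
    (h : ∀ A, A.Nonempty → fam R y A = fam R z A) : y = z := by
  funext T
  by_cases hT : T ∈ R.K
  · refine sl_ext fun g => ?_
    rw [← fam_gT hφ hT, ← fam_gT hφ hT, h _ (gT_nonempty.2 (R.ne T hT))]
  · rw [hy T hT, hz T hT]

theorem fam_supp [DecidableEq π] (y : Finset V → RP (SP φ)) : ∃ S : Finset V, ∀ A, ¬ A ⊆ S → fam R y A = 0 := by
  classical
  choose F hF using fun T => sl_fin (y T)
  refine ⟨R.K.biUnion fun T => (F T).biUnion fun g => gT g T, fun A hA => ?_⟩
  by_cases h : G.IsClique (A : Set V) ∧ A.Nonempty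
  · unfold fam
    rw [if_pos h]
    refine hF _ _ fun h1 => hA ?_
    intro v hv
    rw [Finset.mem_biUnion]
    refine ⟨R.ρ A, R.mem A h.1 h.2, ?_⟩
    rw [Finset.mem_biUnion]
    exact ⟨_, h1, by rw [R.dec A h.1 h.2]; exact hv⟩
  · exact fam_neg h

include hφ in
theorem fam_ChF {n : ℕ} {y : Finset V → RP (SP φ)} (hy : y ∈ Dn φ R n) {S : Finset V}
    (hS : ∀ A, ¬ A ⊆ S → fam R y A = 0) : ChF S n (fam R y) := by
  classical
  refine ⟨fun A => ?_, fun A hA => ?_, hS⟩
  · by_cases h : G.IsClique (A : Set V) ∧ A.Nonempty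
    · unfold fam
      rw [if_pos h]
      nth_rewrite 2 [← (hy (R.ρ A)).1]
      unfold PT
      rw [sl_mul_iW, fa_cp hφ, R.dec A h.1 h.2]
    · rw [fam_neg h, zero_mul]
  · by_cases h : G.IsClique (A : Set V) ∧ A.Nonempty
    · unfold fam
      rw [if_pos h, (hy (R.ρ A)).2.2, sl_zero]
      rw [← card_gT (R.γ A), R.dec A h.1 h.2]
      exact hA
    · exact fam_neg h

include hφ in
/-- every finite family of chains comes from an element -/
theorem fam_surj [DecidableEq π] {n : ℕ} {S : Finset V} {x : Finset V → RW G} (hx : ChF S (n + 1) x) :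
    ∃ y ∈ Dn φ R (n + 1), fam R y = x := by
  classical
  obtain ⟨y, hy⟩ : ∃ y : Finset V → RP (SP φ), y = fun T => if T ∈ R.K ∧ T.card = n + 1 then
      ∑ A ∈ S.powerset.filter (fun A : Finset V => G.IsClique (A : Set V) ∧ A.Nonempty ∧ R.ρ A = T), iW φ (x A) * gi φ (R.γ A)
      else 0 := ⟨_, rfl⟩
  refine ⟨y, fun T => ⟨?_, fun h => ?_, fun h => ?_⟩, ?_⟩
  · rw [hy]
    show (if T ∈ R.K ∧ T.card = n + 1 then _ else (0 : RP (SP φ))) * PT φ T = if T ∈ R.K ∧ T.card = n + 1 then _ else 0
    split_ifs with h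
    · rw [Finset.sum_mul]
      refine Finset.sum_congr rfl fun A hA => ?_
      obtain ⟨_, h1, h2, h3⟩ := Finset.mem_filter.1 hA
      have h4 := R.dec A h1 h2
      rw [h3] at h4
      rw [mul_assoc, gi_PT hφ, h4, ← mul_assoc]
      unfold PT
      rw [← map_mul, hx.pr]
    · rw [zero_mul]
  · rw [hy]
    exact if_neg fun h' => h h'.1
  · rw [hy]
    exact if_neg fun h' => h h'.2
  · funext A
    by_cases h : G.IsClique (A : Set V) ∧ A.Nonempty
    · by_cases hc : A.card = n + 1
      · have hρ : R.ρ A ∈ R.K ∧ (R.ρ A).card = n + 1 := by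
          refine ⟨R.mem A h.1 h.2, ?_⟩
          rw [← card_gT (R.γ A), R.dec A h.1 h.2]
          exact hc
        unfold fam
        rw [if_pos h, hy]
        show sl (R.γ A) (if R.ρ A ∈ R.K ∧ (R.ρ A).card = n + 1 then _ else 0) = x A
        rw [if_pos hρ, sl_sum]
        have h1 : ∀ B ∈ S.powerset.filter (fun B : Finset V => G.IsClique (B : Set V) ∧ B.Nonempty ∧ R.ρ B = R.ρ A),
            sl (R.γ A) (iW φ (x B) * gi φ (R.γ B)) = if A = B then x A else 0 := by
          intro B hB
          obtain ⟨_, k1, k2, k3⟩ := Finset.mem_filter.1 hB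
          rw [sl_iW_gi]
          by_cases hAB : A = B
          · rw [if_pos hAB, hAB, if_pos rfl]
          · rw [if_neg hAB, if_neg]
            intro h4
            apply hAB
            rw [← R.dec A h.1 h.2, ← R.dec B k1 k2, h4, k3]
        rw [Finset.sum_congr rfl h1, Finset.sum_ite_eq]
        by_cases h2 : A ∈ S.powerset.filter (fun B : Finset V => G.IsClique (B : Set V) ∧ B.Nonempty ∧ R.ρ B = R.ρ A)
        · rw [if_pos h2]
        · rw [if_neg h2, hx.sp]
          intro h3
          exact h2 (Finset.mem_filter.2 ⟨Finset.mem_powerset.2 h3, h.1, h.2, rfl⟩)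
      · rw [hx.cd A hc]
        unfold fam
        rw [if_pos h, hy]
        show sl (R.γ A) (if R.ρ A ∈ R.K ∧ (R.ρ A).card = n + 1 then _ else 0) = 0
        rw [if_neg, sl_zero]
        intro h'
        apply hc
        rw [← h'.2]
        nth_rewrite 1 [← R.dec A h.1 h.2]
        rw [card_gT]
    · rw [fam_neg h]
      by_cases h1 : G.IsClique (A : Set V)
      · rw [hx.cd]
        intro h2
        apply h
        exact ⟨h1, Finset.card_pos.1 (by omega)⟩
      · rw [hx.clique h1]

/-! ### the differential of families -/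

variable (hoi : ∀ (g : π) (s t : V), o.σ (g • s) (g • t) = o.σ s t)

include hoi in
theorem eo_gT (g : π) (s : V) (T : Finset V) : eo o (g • s) (gT g T) = eo o s T := by
  unfold eo gT
  rw [Finset.prod_image fun a _ b _ h => smul_left_cancel g h]
  exact Finset.prod_congr rfl fun t _ => hoi _ _ _

include hφ hoi in
theorem fam_dD (y : Finset V → RP (SP φ)) {S : Finset V} (hS : ∀ A, ¬ A ⊆ S → fam R y A = 0) {A : Finset V}
    (hA : A.Nonempty) : fam R (dD o R y) A = dF o S (fam R y) A := by
  classical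
  by_cases hc : G.IsClique (A : Set V)
  · obtain ⟨h, hh⟩ : ∃ h : V → RW G, ∀ v, h v = eo o v A • fam R y (insert v A) := ⟨_, fun v => rfl⟩
    obtain ⟨I, hI⟩ : ∃ I : Finset (Σ _ : Finset V, V), I = (R.K.sigma fun T => T).filter
        (fun p => (p.1.erase p.2).Nonempty ∧ R.ρ (p.1.erase p.2) = R.ρ A) := ⟨_, rfl⟩
    obtain ⟨vv, hvv⟩ : ∃ vv : (Σ _ : Finset V, V) → V, ∀ p, vv p = (R.γ A * (R.γ (p.1.erase p.2))⁻¹) • p.2 :=
      ⟨_, fun p => rfl⟩
    have hIm : ∀ p ∈ I, p.1 ∈ R.K ∧ p.2 ∈ p.1 ∧ vv p ∉ A ∧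
        insert (vv p) A = gT (R.γ A * (R.γ (p.1.erase p.2))⁻¹) p.1 ∧
        gT (R.γ A * (R.γ (p.1.erase p.2))⁻¹) (p.1.erase p.2) = A := by
      intro p hp
      rw [hI, Finset.mem_filter, Finset.mem_sigma] at hp
      obtain ⟨⟨h1, h2⟩, h3, h4⟩ := hp
      have h5 : gT (R.γ A * (R.γ (p.1.erase p.2))⁻¹) (p.1.erase p.2) = A := by
        have h6 := R.dec (p.1.erase p.2) (cl_erase (R.clq _ h1) _) h3
        rw [gT_mul]
        nth_rewrite 2 [← h6]
        rw [gT_inv, h4, R.dec A hc hA]
      refine ⟨h1, h2, ?_, ?_, h5⟩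
      · intro h6
        rw [hvv] at h6
        obtain ⟨g, hg⟩ : ∃ g, g = R.γ A * (R.γ (p.1.erase p.2))⁻¹ := ⟨_, rfl⟩
        rw [← hg] at h5 h6
        rw [← h5] at h6
        have h7 := smul_mem_gT.1 h6
        exact Finset.notMem_erase _ _ h7
      · rw [hvv]
        obtain ⟨g, hg⟩ : ∃ g, g = R.γ A * (R.γ (p.1.erase p.2))⁻¹ := ⟨_, rfl⟩
        rw [← hg] at h5 ⊢
        rw [← h5, ← gT_insert, Finset.insert_erase h2]
    have e1 : fam R (dD o R y) A = ∑ p ∈ I, h (vv p) := by
      unfold fam
      rw [if_pos ⟨hc, hA⟩, dD_apply o R y (R.mem A hc hA), sl_sum, hI, Finset.sum_filter, Finset.sum_sigma]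
      refine Finset.sum_congr rfl fun T hT => ?_
      rw [sl_sum]
      refine Finset.sum_congr rfl fun s hs => ?_
      by_cases h1 : (T.erase s).Nonempty ∧ R.ρ (T.erase s) = R.ρ A
      · rw [if_pos h1, if_pos h1, sl_zsmul, sl_mul_gi]
        have hp : (⟨T, s⟩ : Σ _ : Finset V, V) ∈ I := by
          rw [hI, Finset.mem_filter, Finset.mem_sigma]
          exact ⟨⟨hT, hs⟩, h1⟩
        obtain ⟨_, _, _, h5, h6⟩ := hIm _ hp
        rw [hh, h5, fam_gT hφ hT]
        congr 1
        rw [hvv]
        obtain ⟨g, hg⟩ : ∃ g, g = R.γ A * (R.γ (T.erase s))⁻¹ := ⟨_, rfl⟩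
        have h7 : gT g (T.erase s) = A := by
          rw [hg]
          exact h6
        show eo o s (T.erase s) = eo o ((R.γ A * (R.γ (T.erase s))⁻¹) • s) A
        rw [← hg, ← h7, eo_gT o hoi]
      · rw [if_neg h1, if_neg h1, sl_zero]
    have e2 : ∑ p ∈ I, h (vv p) = ∑ v ∈ I.image vv, h v := by
      rw [Finset.sum_image]
      intro p hp q hq hpq
      obtain ⟨p1, p2, _, p4, _⟩ := hIm p hp
      obtain ⟨q1, q2, _, q4, _⟩ := hIm q hq
      rw [hpq, q4] at p4
      have u1 := (R.uni _ p1 (R.γ A * (R.γ (p.1.erase p.2))⁻¹))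
      have u2 := (R.uni _ q1 (R.γ A * (R.γ (q.1.erase q.2))⁻¹))
      rw [← p4] at u1
      have f1 : p.1 = q.1 := u1.1.symm.trans u2.1
      have f2 := u1.2.symm.trans u2.2
      have f3 : p.2 = q.2 := by
        have h8 : vv p = vv q := hpq
        rw [hvv, hvv, f2] at h8
        exact smul_left_cancel _ h8
      exact Sigma.ext f1 (heq_of_eq f3)
    have e3 : ∑ v ∈ I.image vv, h v = ∑ v ∈ I.image vv ∪ (S \ A), h v := by
      refine Finset.sum_subset Finset.subset_union_left fun v hv hv' => ?_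
      have hvS := (Finset.mem_union.1 hv).resolve_left hv'
      rw [hh]
      by_cases h1 : G.IsClique ((insert v A : Finset V) : Set V)
      · exfalso
        apply hv'
        rw [Finset.mem_image]
        have hne : (insert v A).Nonempty := Finset.insert_nonempty v A
        have hvA : v ∉ A := (Finset.mem_sdiff.1 hvS).2
        have h2 := R.dec _ h1 hne
        have h3 : gT (R.γ (insert v A)) ((R.ρ (insert v A)).erase ((R.γ (insert v A))⁻¹ • v)) = A := by
          rw [gT_erase, h2, smul_inv_smul, Finset.erase_insert hvA]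
        have h4 : (R.ρ (insert v A)).erase ((R.γ (insert v A))⁻¹ • v) = gT ((R.γ (insert v A))⁻¹ * R.γ A) (R.ρ A) := by
          rw [gT_mul, R.dec A hc hA]
          nth_rewrite 4 [← h3]
          rw [gT_inv]
        have h5 := R.uni (R.ρ A) (R.mem A hc hA) ((R.γ (insert v A))⁻¹ * R.γ A)
        rw [← h4] at h5
        refine ⟨⟨R.ρ (insert v A), (R.γ (insert v A))⁻¹ • v⟩, ?_, ?_⟩
        · rw [hI, Finset.mem_filter, Finset.mem_sigma]
          refine ⟨⟨R.mem _ h1 hne, ?_⟩, ?_, h5.1⟩
          · show (R.γ (insert v A))⁻¹ • v ∈ R.ρ (insert v A)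
            rw [← mem_gT, h2]
            exact Finset.mem_insert_self v A
          · show ((R.ρ (insert v A)).erase ((R.γ (insert v A))⁻¹ • v)).Nonempty
            rw [← gT_nonempty (g := R.γ (insert v A)), h3]
            exact hA
        · refine (hvv _).trans ?_
          show (R.γ A * (R.γ ((R.ρ (insert v A)).erase ((R.γ (insert v A))⁻¹ • v)))⁻¹) • (R.γ (insert v A))⁻¹ • v = v
          rw [h5.2, mul_inv_rev, inv_inv, mul_inv_cancel_left, smul_inv_smul]
      · rw [fam_neg (fun h' => h1 h'.1), smul_zero]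
    have e4 : dF o S (fam R y) A = ∑ v ∈ I.image vv ∪ (S \ A), h v := by
      have e5 : dF o S (fam R y) A = ∑ v ∈ S \ A, h v := Finset.sum_congr rfl fun v _ => (hh v).symm
      rw [e5]
      refine Finset.sum_subset Finset.subset_union_right fun v hv hv' => ?_
      have hvI := (Finset.mem_union.1 hv).resolve_right hv'
      rw [hh, hS, smul_zero]
      intro h1
      obtain ⟨p, hp, hpv⟩ := Finset.mem_image.1 hvI
      apply hv'
      rw [Finset.mem_sdiff]
      refine ⟨h1 (Finset.mem_insert_self v A), ?_⟩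
      rw [← hpv]
      exact (hIm p hp).2.2.1
    rw [e1, e2, e3, e4]
  · rw [fam_neg (fun h => hc h.1)]
    unfold dF
    refine (Finset.sum_eq_zero fun v _ => ?_).symm
    rw [fam_neg, smul_zero]
    intro h
    exact hc (h.1.subset (by exact_mod_cast Finset.subset_insert v A))

end Pool.Agent.X250.RT
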