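import Pool.Agent.X250.RT.Dc

/-!
# Exactness of the positive part of the Davis complex
-/

set_option autoImplicit false
set_option linter.unusedSectionVars false

namespace Pool.Agent.X250.RT

open Pool.Agent.W907.SG Pool.Agent.W461.SGN
open Pool.Agent.H919R4.ZS (FinRes augm)
open Pool.Agent.X250.ZS (Cx sm sm_sm sm_inv sm_inj ps qs cp cp_empty cp_insert cp_neg ps_comm ps_idem cp_idem cp_sub
  RW gs cl_sub cl_ins ext_exact)

variable {V : Type} {G : SimpleGraph V} {π : Type} [Group π] [MulAction π V] {φ : π →* MulAut (W G)}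
  [DecidableEq V] (hφ : Com φ) (o : Ori G) {R : Rep G π}
  (hoi : ∀ (g : π) (s t : V), o.σ (g • s) (g • t) = o.σ s t)

theorem single_cl (v : V) : G.IsClique (({v} : Finset V) : Set V) := by simp

include hφ in
theorem dF_empty {y : Finset V → RP (SP φ)} (hy : y ∈ Dn φ R 1) {S : Finset V}
    (hS : ∀ A, ¬ A ⊆ S → fam R y A = 0) : dF o S (fam R y) ∅ = ka φ (∑ T ∈ R.K, y T) := by
  classical
  have h1 : dF o S (fam R y) ∅ = ∑ v ∈ S, sl (R.γ {v}) (y (R.ρ {v})) := by
    unfold dF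
    rw [Finset.sdiff_empty]
    refine Finset.sum_congr rfl fun v _ => ?_
    have e1 : eo o v ∅ = 1 := rfl
    have e2 : insert v (∅ : Finset V) = {v} := rfl
    rw [e1, one_smul, e2]
    unfold fam
    rw [if_pos ⟨single_cl v, Finset.singleton_nonempty v⟩]
  rw [h1, map_sum, ← Finset.sum_fiberwise_of_maps_to (s := S) (t := R.K) (g := fun v => R.ρ {v})
    (fun v _ => R.mem _ (single_cl v) (Finset.singleton_nonempty v))]
  refine Finset.sum_congr rfl fun T hT => ?_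
  by_cases hc : T.card = 1
  · obtain ⟨t, ht⟩ := Finset.card_eq_one.1 hc
    have hg : ∀ g : π, gT g T = {g • t} := by
      intro g
      rw [ht]
      rfl
    rw [ka_sum (y T) ((S.filter fun v => R.ρ {v} = T).image fun v => R.γ {v}), Finset.sum_image]
    · refine Finset.sum_congr rfl fun v hv => ?_
      rw [(Finset.mem_filter.1 hv).2]
    · intro u hu v hv huv
      have h2 := R.dec {u} (single_cl u) (Finset.singleton_nonempty u)
      have h3 := R.dec {v} (single_cl v) (Finset.singleton_nonempty v)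
      have huv' : R.γ {u} = R.γ {v} := huv
      rw [(Finset.mem_filter.1 (Finset.mem_coe.1 hu)).2, huv'] at h2
      rw [(Finset.mem_filter.1 (Finset.mem_coe.1 hv)).2] at h3
      exact Finset.singleton_injective (h2.symm.trans h3)
    · intro g hgF
      rw [← fam_gT hφ hT]
      refine hS _ fun h2 => hgF ?_
      rw [Finset.mem_image]
      have h3 := R.uni T hT g
      rw [hg] at h2 h3
      exact ⟨g • t, Finset.mem_filter.2 ⟨h2 (Finset.mem_singleton_self _), h3.1⟩, h3.2⟩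
  · rw [(hy T).2.2 hc, map_zero]
    refine Finset.sum_eq_zero fun v hv => ?_
    rw [(Finset.mem_filter.1 hv).2, (hy T).2.2 hc, sl_zero]

include hφ hoi in
theorem Dn_fill {n : ℕ} {y : Finset V → RP (SP φ)} (hy : y ∈ Dn φ R (n + 1)) {S : Finset V}
    (hS : ∀ A, ¬ A ⊆ S → fam R y A = 0) (hd : dF o S (fam R y) = 0) : ∃ z ∈ Dn φ R (n + 2), dD o R z = y := by
  classical
  obtain ⟨S', x, hSS, hx, hdx⟩ := exactF (fam_ChF hφ hy hS) hd
  obtain ⟨z, hz, hzx⟩ := fam_surj hφ (R := R) hx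
  refine ⟨z, hz, fam_inj hφ (fun T hT => (dD_mem hφ o R hz T).2.1 hT) (fun T hT => (hy T).2.1 hT) fun A hA => ?_⟩
  rw [fam_dD hφ o hoi z (S := S') (fun A hA => by rw [hzx]; exact hx.sp A hA) hA, hzx, hdx]

include hφ hoi in
theorem Dn_ex {n : ℕ} {y : Finset V → RP (SP φ)} (hy : y ∈ Dn φ R (n + 2)) (hd : dD o R y = 0) :
    ∃ z ∈ Dn φ R (n + 3), dD o R z = y := by
  classical
  obtain ⟨S, hS⟩ := fam_supp (R := R) y
  refine Dn_fill hφ o hoi hy hS ?_
  funext A
  rcases A.eq_empty_or_nonempty with hA | hA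
  · rw [hA]
    exact (fam_ChF hφ hy hS).d.cd ∅ (by rw [Finset.card_empty]; omega)
  · rw [← fam_dD hφ o hoi y hS hA, hd]
    classical
    unfold fam
    split_ifs
    · exact sl_zero _
    · rfl

include hφ hoi in
theorem Dn_ex1 {y : Finset V → RP (SP φ)} (hy : y ∈ Dn φ R 1) (hk : ka φ (∑ T ∈ R.K, y T) = 0) :
    ∃ z ∈ Dn φ R 2, dD o R z = y := by
  classical
  obtain ⟨S, hS⟩ := fam_supp (R := R) y
  refine Dn_fill hφ o hoi hy hS ?_
  funext A
  rcases A.eq_empty_or_nonempty with hA | hA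
  · rw [hA, dF_empty hφ o hy hS, hk]
    rfl
  · exact (fam_ChF hφ hy hS).d.cd A (by have := hA.card_pos; omega)

include hφ hoi in
theorem fam_dd {n : ℕ} {y : Finset V → RP (SP φ)} (hy : y ∈ Dn φ R n) : ∃ S : Finset V,
    (∀ A, ¬ A ⊆ S → fam R y A = 0) ∧ (∀ A, ¬ A ⊆ S → fam R (dD o R y) A = 0) ∧
    ∀ A, dF o S (fam R (dD o R y)) A = 0 := by
  classical
  obtain ⟨S1, hS1⟩ := fam_supp (R := R) y
  obtain ⟨S2, hS2⟩ := fam_supp (R := R) (dD o R y)
  have k1 : ∀ A, ¬ A ⊆ S1 ∪ S2 → fam R y A = 0 := fun A hA => hS1 A fun h => hA (h.trans Finset.subset_union_left)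
  have k2 : ∀ A, ¬ A ⊆ S1 ∪ S2 → fam R (dD o R y) A = 0 := fun A hA =>
    hS2 A fun h => hA (h.trans Finset.subset_union_right)
  refine ⟨S1 ∪ S2, k1, k2, fun A => ?_⟩
  have h1 : dF o (S1 ∪ S2) (fam R (dD o R y)) A = dF o (S1 ∪ S2) (dF o (S1 ∪ S2) (fam R y)) A := by
    unfold dF
    refine Finset.sum_congr rfl fun v _ => ?_
    rw [fam_dD hφ o hoi y k1 (Finset.insert_nonempty v A)]
    rfl
  rw [h1, dF_dF (fam_ChF hφ hy k1)]
  rfl

include hφ hoi in
theorem dD_dD {n : ℕ} {y : Finset V → RP (SP φ)} (hy : y ∈ Dn φ R (n + 2)) : dD o R (dD o R y) = 0 := by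
  classical
  obtain ⟨S, h1, h2, h3⟩ := fam_dd hφ o hoi hy
  refine fam_inj (R := R) hφ (fun T hT => (dD_mem hφ o R (dD_mem hφ o R hy) T).2.1 hT) (fun T _ => rfl) fun A hA => ?_
  rw [fam_dD hφ o hoi _ h2 hA, h3]
  unfold fam
  split_ifs
  · exact (sl_zero _).symm
  · rfl

include hφ hoi in
theorem ka_dD {y : Finset V → RP (SP φ)} (hy : y ∈ Dn φ R 2) : ka φ (∑ T ∈ R.K, dD o R y T) = 0 := by
  obtain ⟨S, h1, h2, h3⟩ := fam_dd hφ o hoi hy
  rw [← dF_empty hφ o (dD_mem hφ o R hy) h2, h3]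

/-- the shifted complex -/
noncomputable def Dsh : Cx (RP (SP φ)) where
  M n := Dn φ R (n + 1)
  d n := (dD o R).restrict fun _ hx => dD_mem hφ o R hx
  dd n x := Subtype.ext (dD_dD hφ o hoi x.2)

/-- the presentation of the chains -/
noncomputable def fpD (φ : π →* MulAut (W G)) (R : Rep G π) (n : ℕ) : FP (RP (SP φ)) (Dn φ R n) where
  k := ↥R.K
  i := LinearMap.pi (fun T : ↥R.K => LinearMap.proj (T : Finset V)) ∘ₗ (Dn φ R n).subtype
  r :=
    { toFun := fun u => ⟨fun T => if h : T ∈ R.K ∧ T.card = n then u ⟨T, h.1⟩ * PT φ T else 0, fun T => by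
        refine ⟨?_, fun h => dif_neg fun h' => h h'.1, fun h => dif_neg fun h' => h h'.2⟩
        show (if h : T ∈ R.K ∧ T.card = n then u ⟨T, h.1⟩ * PT φ T else 0) * PT φ T =
          if h : T ∈ R.K ∧ T.card = n then u ⟨T, h.1⟩ * PT φ T else 0
        split_ifs
        · rw [mul_assoc, PT_idem]
        · rw [zero_mul]⟩
      map_add' := fun u v => Subtype.ext (funext fun T => by
        show (if h : T ∈ R.K ∧ T.card = n then (u ⟨T, h.1⟩ + v ⟨T, h.1⟩) * PT φ T else 0) =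
          (if h : T ∈ R.K ∧ T.card = n then u ⟨T, h.1⟩ * PT φ T else 0) +
            if h : T ∈ R.K ∧ T.card = n then v ⟨T, h.1⟩ * PT φ T else 0
        split_ifs
        · rw [add_mul]
        · rw [add_zero])
      map_smul' := fun a u => Subtype.ext (funext fun T => by
        show (if h : T ∈ R.K ∧ T.card = n then (a * u ⟨T, h.1⟩) * PT φ T else 0) =
          a * (if h : T ∈ R.K ∧ T.card = n then u ⟨T, h.1⟩ * PT φ T else 0)
        split_ifs
        · rw [mul_assoc]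
        · rw [mul_zero]) }
  ri y := by
    refine Subtype.ext (funext fun T => ?_)
    show (if h : T ∈ R.K ∧ T.card = n then y.1 T * PT φ T else 0) = y.1 T
    split_ifs with h
    · exact (y.2 T).1
    · by_cases h1 : T ∈ R.K
      · exact ((y.2 T).2.2 fun h2 => h ⟨h1, h2⟩).symm
      · exact ((y.2 T).2.1 h1).symm

/-- the induced resolution of the quotient -/
noncomputable def Yc (φ : π →* MulAut (W G)) (Y : FinRes π) : Cx (RP (SP φ)) where
  M i := Fin (Y.n i) → RP (SP φ)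
  d i := ((Y.d i).map (ip φ)).vecMulLinear
  dd i x := by
    show Matrix.vecMul (Matrix.vecMul x ((Y.d (i + 1)).map (ip φ))) ((Y.d i).map (ip φ)) = 0
    rw [Matrix.vecMul_vecMul, ← Matrix.map_mul, Pool.Agent.H919R4.ZS.d_mul_d]
    have : (0 : Matrix (Fin (Y.n (i + 1 + 1))) (Fin (Y.n i)) (MonoidAlgebra ℤ π)).map (ip φ) = 0 := by
      ext1 a b
      exact map_zero (ip φ)
    rw [this, Matrix.vecMul_zero]

theorem Yc_ex (Y : FinRes π) : (Yc φ Y).Ex := by
  intro i x hx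
  have e : ∀ i, (Y.d i).map (ip φ) = ((Y.d i).map (im φ)).map Pool.Agent.X250.ZS.ext0 := by
    intro i
    rw [Matrix.map_map]
    rfl
  have hx' : Matrix.vecMul x ((Y.d i).map (ip φ)) = 0 := hx
  rw [e] at hx'
  obtain ⟨y, hy⟩ := ext_exact (D' := (Y.d (i + 1)).map (im φ))
    (fun z hz => im_exact (D' := Y.d (i + 1)) (fun x hx => (Y.exact_succ i x).1 hx) z hz) x hx'
  refine ⟨y, ?_⟩
  show Matrix.vecMul y ((Y.d (i + 1)).map (ip φ)) = x
  rw [e, hy]

theorem Y_row (Y : FinRes π) (x : Fin (Y.n 0) → MonoidAlgebra ℤ π) (hx : ∑ j, augm π (x j) * Y.aug j = 0) :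
    ∃ y, (Yc φ Y).d 0 y = (fun j => ip φ (x j) : Fin (Y.n 0) → RP (SP φ)) := by
  obtain ⟨y, hy⟩ := (Y.exact_zero x).1 hx
  refine ⟨fun k => ip φ (y k), ?_⟩
  show Matrix.vecMul (fun k => ip φ (y k)) ((Y.d 0).map (ip φ)) = _
  funext j
  rw [← hy, Matrix.vecMul, dotProduct, Matrix.vecMul, dotProduct, map_sum]
  refine Finset.sum_congr rfl fun k _ => ?_
  rw [Matrix.map_apply, map_mul]

/-- the augmentation of the induced resolution -/
noncomputable def bY (φ : π →* MulAut (W G)) (Y : FinRes π) : (Fin (Y.n 0) → RP (SP φ)) →ₗ[RP (SP φ)] RP (SP φ) where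
  toFun z := ∑ j, z j * (Y.aug j : RP (SP φ))
  map_add' x y := by
    rw [← Finset.sum_add_distrib]
    refine Finset.sum_congr rfl fun j _ => ?_
    rw [Pi.add_apply, add_mul]
  map_smul' a x := by
    rw [RingHom.id_apply, smul_eq_mul, Finset.mul_sum]
    refine Finset.sum_congr rfl fun j _ => ?_
    rw [Pi.smul_apply, smul_eq_mul, mul_assoc]

theorem bY_ip (Y : FinRes π) (x : Fin (Y.n 0) → MonoidAlgebra ℤ π) :
    bY φ Y (fun j => ip φ (x j)) = ip φ (∑ j, x j * (Y.aug j : MonoidAlgebra ℤ π)) := by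
  show ∑ j, ip φ (x j) * (Y.aug j : RP (SP φ)) = _
  rw [map_sum]
  refine Finset.sum_congr rfl fun j _ => ?_
  rw [map_mul, map_intCast]

theorem augm_sum (Y : FinRes π) (x : Fin (Y.n 0) → MonoidAlgebra ℤ π) :
    augm π (∑ j, x j * (Y.aug j : MonoidAlgebra ℤ π)) = ∑ j, augm π (x j) * Y.aug j := by
  rw [map_sum]
  refine Finset.sum_congr rfl fun j _ => ?_
  rw [map_mul, map_intCast]
  rfl

theorem bY_d (Y : FinRes π) (y : Fin (Y.n 1) → RP (SP φ)) : ∃ e : Fin (Y.n 1) → MonoidAlgebra ℤ π,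
    (∀ k, augm π (e k) = 0) ∧ bY φ Y (Matrix.vecMul y ((Y.d 0).map (ip φ))) = ∑ k, y k * ip φ (e k) := by
  refine ⟨fun k => ∑ j, Y.d 0 k j * (Y.aug j : MonoidAlgebra ℤ π), fun k => ?_, ?_⟩
  · rw [augm_sum]
    refine (Y.exact_zero (Y.d 0 k)).2 ⟨Pi.single k 1, ?_⟩
    funext j
    simp [Matrix.vecMul, dotProduct, Pi.single_apply]
  · show ∑ j, (Matrix.vecMul y ((Y.d 0).map (ip φ))) j * (Y.aug j : RP (SP φ)) = _
    have h1 : ∀ k, ip φ (∑ j, Y.d 0 k j * (Y.aug j : MonoidAlgebra ℤ π)) = ∑ j, ip φ (Y.d 0 k j) * (Y.aug j : RP (SP φ)) :=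
      fun k => (bY_ip Y (Y.d 0 k)).symm
    simp only [h1, Matrix.vecMul, dotProduct, Finset.sum_mul, Finset.mul_sum, Matrix.map_apply]
    rw [Finset.sum_comm]
    refine Finset.sum_congr rfl fun k _ => Finset.sum_congr rfl fun j _ => ?_
    rw [mul_assoc]

theorem bY_d_aug (Y : FinRes π) (y : Fin (Y.n 1) → RP (SP φ)) :
    aug (bY φ Y (Matrix.vecMul y ((Y.d 0).map (ip φ)))) = 0 ∧
    ka φ (bY φ Y (Matrix.vecMul y ((Y.d 0).map (ip φ)))) = 0 := by
  obtain ⟨e, he, h⟩ := bY_d (φ := φ) Y y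
  rw [h]
  constructor
  · rw [map_sum]
    refine Finset.sum_eq_zero fun k _ => ?_
    rw [map_mul, aug_ip, he, Int.cast_zero, mul_zero]
  · rw [map_sum]
    refine Finset.sum_eq_zero fun k _ => ?_
    rw [ka_mul_ip, he, Int.cast_zero, zero_smul]

end Pool.Agent.X250.RT
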