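import Pool.Agent.X250.RT.Cmp

/-!
# The Euler characteristic of a projective resolution with respect to nearby traces
-/

set_option autoImplicit false
set_option linter.unusedSectionVars false

open scoped Matrix Topology

namespace Pool.Agent.X250.RT

open Pool.Agent.X250.ZS (Cx Hl ind ext0 ind_single ext0_single)
open Pool.Agent.H919R4.ZS (FinRes augm toRed)

variable {P : Type} [Group P]

/-- extension of scalars -/
noncomputable def qc : RP P →+* MonoidAlgebra ℂ P := MonoidAlgebra.mapRingHom P (algebraMap ℚ ℂ)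

theorem qc_single (g : P) (r : ℚ) : qc (MonoidAlgebra.single g r) = MonoidAlgebra.single g (r : ℂ) :=
  MonoidAlgebra.mapRingHom_single _ _ _

theorem qc_ph (Γ : Subgroup P) (a : MonoidAlgebra ℤ Γ) : qc (ph Γ a) = zc Γ a := by
  induction a using MonoidAlgebra.induction_linear with
  | zero => simp only [map_zero]
  | add x y hx hy => rw [map_add, map_add, map_add, hx, hy]
  | single γ m =>
    rw [ph_single, qc_single]
    show _ = icl Γ (ztc Γ (MonoidAlgebra.single γ m))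
    rw [ztc_single, icl_single]
    push_cast
    rfl

/-- the state on the rational group ring -/
noncomputable def sq (Θ : MonoidAlgebra ℂ P →+* OP P) : RP P →+ ℂ := (st Θ).comp (qc (P := P)).toAddMonoidHom

theorem sq_apply (Θ : MonoidAlgebra ℂ P →+* OP P) (a : RP P) : sq Θ a = tau (Θ (qc a)) := rfl

/-- the matrix of a linear map -/
noncomputable def matr {n : ℕ} (φ : (Fin n → RP P) →ₗ[RP P] (Fin n → RP P)) : Matrix (Fin n) (Fin n) (RP P) :=
  Matrix.of fun j k => φ (Pi.single j 1) k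

theorem matr_apply {n : ℕ} (φ : (Fin n → RP P) →ₗ[RP P] (Fin n → RP P)) (x : Fin n → RP P) :
    φ x = x ᵥ* matr φ := by
  rw [pi_apply φ x]
  funext k
  rw [Finset.sum_apply]
  rfl

theorem row_eq' {m n : ℕ} (D : Matrix (Fin m) (Fin n) (RP P)) (k : Fin m) :
    (Pi.single k 1 : Fin m → RP P) ᵥ* D = D k := by
  funext j
  simp [Matrix.vecMul, dotProduct, Pi.single_apply]

/-- the identity presentation -/
noncomputable def fpid (n : ℕ) : FP (RP P) (Fin n → RP P) where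
  k := Fin n
  i := LinearMap.id
  r := LinearMap.id
  ri _ := rfl

theorem sum_ext {N M : ℕ} (hNM : N ≤ M) (F : ℕ → ℂ) (hF : ∀ n, N < n → F n = 0) :
    ∑ n ∈ Finset.range (N + 1), F n = ∑ n ∈ Finset.range (M + 1), F n := by
  refine Finset.sum_subset ?_ ?_
  · intro n hn
    rw [Finset.mem_range] at hn ⊢
    omega
  · intro n _ hn
    rw [Finset.mem_range, not_lt] at hn
    exact hF n (by omega)

theorem euler {Γ : Subgroup P} [Γ.FiniteIndex] (X : FinRes Γ) (hX : ∀ i, Subsingleton (X.homology (toRed Γ) i))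
    (Θ : ℝ → (MonoidAlgebra ℂ P →+* OP P)) {x₀ : ℝ} (h0 : ∀ a, Θ x₀ a = reg a)
    (hc : ∀ a, ContinuousAt (fun x => Θ x a) x₀) (ht : ∀ x a b, tau (Θ x (a * b)) = tau (Θ x (b * a)))
    (C : Cx (RP P)) (p : ∀ n, FP (RP P) (C.M n)) {N : ℕ} (hN : ∀ n, N < n → ∀ x : C.M n, x = 0) (hC : C.Ex)
    (β : C.M 0 →ₗ[RP P] RP P) (hβ : ∀ x, aug (β x) = 0 ↔ ∃ y, C.d 0 y = x) (y0 : C.M 0) (hy0 : aug (β y0) = 1) :
    ∀ᶠ x in 𝓝 x₀, ∑ n ∈ Finset.range (N + 1), (-1) ^ n * Tt (sq (Θ x)) (p n) LinearMap.id = 0 := by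
  have hP : ∀ n, Module.Projective (RP P) (C.M n) := fun n =>
    Module.Projective.of_split (p n).i (p n).r (LinearMap.ext fun x => (p n).ri x)
  obtain ⟨f, g, h, hf, hg, hh0, hh⟩ := compare X C hP hC β hβ y0 hy0
  filter_upwards [van X hX Θ h0 hc ht] with x hx
  have hθ : ∀ a b, sq (Θ x) (a * b) = sq (Θ x) (b * a) := by
    intro a b
    rw [sq_apply, sq_apply, map_mul qc, map_mul qc]
    exact ht x _ _
  obtain ⟨M, hM⟩ : ∃ M : ℕ, M = N + X.len := ⟨_, rfl⟩
  -- the matrices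
  have h1 : ∑ i ∈ Finset.range (X.len + 1), (-1) ^ i * mt (st (Θ x))
      ((matr (f i ∘ₗ g i : (Fin (X.n i) → RP P) →ₗ[RP P] (Fin (X.n i) → RP P))).map qc) = 0 := by
    refine hx (fun i => (matr (f i ∘ₗ g i : (Fin (X.n i) → RP P) →ₗ[RP P] (Fin (X.n i) → RP P))).map qc) fun i => ?_
    have e1 : (X.d i).map (zc Γ) = ((X.d i).map (ph Γ)).map qc := by
      refine funext fun j => funext fun k => ?_
      exact (qc_ph Γ _).symm
    rw [e1, ← Matrix.map_mul, ← Matrix.map_mul]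
    congr 1
    have h2 : ∀ y : Fin (X.n (i + 1)) → RP P, y ᵥ* ((X.d i).map (ph Γ) *
        matr (f i ∘ₗ g i : (Fin (X.n i) → RP P) →ₗ[RP P] (Fin (X.n i) → RP P))) =
        y ᵥ* (matr (f (i + 1) ∘ₗ g (i + 1) : (Fin (X.n (i + 1)) → RP P) →ₗ[RP P] (Fin (X.n (i + 1)) → RP P)) *
          (X.d i).map (ph Γ)) := by
      intro y
      rw [← Matrix.vecMul_vecMul, ← Matrix.vecMul_vecMul, ← matr_apply, ← matr_apply]
      have h3 := (hf i (g (i + 1) y)).trans (congrArg (f i) (hg i y))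
      exact h3.symm
    exact funext fun j => (row_eq' _ j).symm.trans ((h2 (Pi.single j 1)).trans (row_eq' _ j))
  have h2 : ∀ i, (-1 : ℂ) ^ i * Tt (sq (Θ x)) (fpid (X.n i))
      (f i ∘ₗ g i : (Fin (X.n i) → RP P) →ₗ[RP P] (Fin (X.n i) → RP P)) =
      (-1) ^ i * mt (st (Θ x)) ((matr (f i ∘ₗ g i : (Fin (X.n i) → RP P) →ₗ[RP P] (Fin (X.n i) → RP P))).map qc) :=
    fun i => rfl
  rw [← Finset.sum_congr rfl fun i _ => h2 i] at h1
  have h3 : ∑ i ∈ Finset.range (M + 1), (-1 : ℂ) ^ i * Tt (sq (Θ x)) (fpid (X.n i))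
      (f i ∘ₗ g i : (Fin (X.n i) → RP P) →ₗ[RP P] (Fin (X.n i) → RP P)) = 0 := by
    rw [← h1]
    refine (sum_ext (by omega) _ fun n hn => ?_).symm
    rw [Tt_zero _ (fun y : Fin (X.n n) → RP P => ?_), mul_zero]
    have h4 : X.n n = 0 := X.n_eq_zero n hn
    funext j
    have h5 := j.2
    omega
  have h4 : ∀ i, Tt (sq (Θ x)) (fpid (X.n i))
      (f i ∘ₗ g i : (Fin (X.n i) → RP P) →ₗ[RP P] (Fin (X.n i) → RP P)) = Tt (sq (Θ x)) (p i) (g i ∘ₗ f i) := by
    intro i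
    exact Tt_comm hθ (fpid (X.n i)) (p i) (g i) (f i)
  rw [Finset.sum_congr rfl fun i _ => congrArg (fun z => (-1 : ℂ) ^ i * z) (h4 i)] at h3
  have h5 := str_htpy hθ C p (N := M) (hN (M + 1) (by omega)) (fun n => g n ∘ₗ f n - LinearMap.id) h hh0 hh
  have h6 : ∀ n, (-1 : ℂ) ^ n * Tt (sq (Θ x)) (p n) (g n ∘ₗ f n - LinearMap.id) =
      (-1) ^ n * Tt (sq (Θ x)) (p n) (g n ∘ₗ f n) - (-1) ^ n * Tt (sq (Θ x)) (p n) LinearMap.id := by
    intro n
    rw [Tt_sub, mul_sub]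
  rw [Finset.sum_congr rfl fun n _ => h6 n, Finset.sum_sub_distrib, h3, zero_sub, neg_eq_zero] at h5
  rw [← h5]
  refine sum_ext (by omega) _ fun n hn => ?_
  rw [Tt_zero _ (hN n hn), mul_zero]

end Pool.Agent.X250.RT
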