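import Pool.Agent.X250.ZS.Res2

/-!
# Exactness of the Davis complex, infinitely many generators
-/

set_option autoImplicit false
set_option linter.unusedSectionVars false

namespace Pool.Agent.X250.RT

open Pool.Agent.W907.SG Pool.Agent.W461.SGN
open Pool.Agent.X250.ZS (sm sm_sm sm_inv nn nn_of_len len_lt desc_adj zmod2 cl_sub cl_ins ps qs qs_comm cp cp_empty
  cp_insert cp_neg cp_sub cp_mul_self ps_comm ps_idem RW gs gs_mul tri qR_pR)

variable {V : Type} {G : SimpleGraph V}

/-- orientations of the edges of a graph -/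
structure Ori (G : SimpleGraph V) where
  /-- the sign -/
  σ : V → V → ℤ
  sq : ∀ s t, σ s t * σ s t = 1
  anti : ∀ s t, G.Adj s t → σ s t = -σ t s

variable (o : Ori G)

/-- the sign -/
def eo (s : V) (T : Finset V) : ℤ := ∏ t ∈ T, o.σ t s

theorem eo_sq (s : V) (T : Finset V) : eo o s T * eo o s T = 1 := by
  unfold eo
  rw [← Finset.prod_mul_distrib]
  exact Finset.prod_eq_one fun t _ => o.sq _ _

variable [DecidableEq V]

theorem eo_insert {s t : V} {T : Finset V} (ht : t ∉ T) : eo o s (insert t T) = o.σ t s * eo o s T := by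
  unfold eo
  rw [Finset.prod_insert ht]

/-- the sign rule -/
theorem eo_anti {s t : V} {T : Finset V} (hs : s ∉ T) (ht : t ∉ T) (h : G.Adj s t) :
    eo o s T * eo o t (insert s T) = -(eo o t T * eo o s (insert t T)) := by
  rw [eo_insert o hs, eo_insert o ht, o.anti s t h]
  ring

/-- chains -/
structure ChF (S : Finset V) (n : ℕ) (x : Finset V → RW G) : Prop where
  pr : ∀ T, x T * cp (ps_comm G) T = x T
  cd : ∀ T, T.card ≠ n → x T = 0
  sp : ∀ T, ¬ T ⊆ S → x T = 0

/-- the differential -/
noncomputable def dF (S : Finset V) (x : Finset V → RW G) (T : Finset V) : RW G :=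
  ∑ v ∈ S \ T, eo o v T • x (insert v T)

variable {o} {S S' : Finset V} {n : ℕ} {x y : Finset V → RW G}

theorem ChF.clique (hx : ChF S n x) {T : Finset V} (h : ¬ G.IsClique (T : Set V)) : x T = 0 := by
  rw [← hx.pr T, cp_neg _ h, mul_zero]

theorem ChF.mono (hx : ChF S n x) (h : S ⊆ S') : ChF S' n x :=
  ⟨hx.pr, hx.cd, fun T hT => hx.sp T fun h' => hT (h'.trans h)⟩

theorem ChF.add (hx : ChF S n x) (hy : ChF S n y) : ChF S n fun T => x T + y T :=
  ⟨fun T => by rw [add_mul, hx.pr, hy.pr], fun T h => by rw [hx.cd T h, hy.cd T h, add_zero],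
    fun T h => by rw [hx.sp T h, hy.sp T h, add_zero]⟩

theorem ChF.sub (hx : ChF S n x) (hy : ChF S n y) : ChF S n fun T => x T - y T :=
  ⟨fun T => by rw [sub_mul, hx.pr, hy.pr], fun T h => by rw [hx.cd T h, hy.cd T h, sub_zero],
    fun T h => by rw [hx.sp T h, hy.sp T h, sub_zero]⟩

theorem dF_mono (hx : ∀ T, ¬ T ⊆ S → x T = 0) (h : S ⊆ S') : dF o S' x = dF o S x := by
  funext T
  unfold dF
  refine (Finset.sum_subset (Finset.sdiff_subset_sdiff h (Finset.Subset.refl T)) ?_).symm
  intro v hv hv'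
  rw [hx, smul_zero]
  intro h1
  apply hv'
  rw [Finset.mem_sdiff] at hv ⊢
  exact ⟨h1 (Finset.mem_insert_self v T), hv.2⟩

theorem dF_add (S : Finset V) (x y : Finset V → RW G) : dF o S (fun T => x T + y T) = fun T => dF o S x T + dF o S y T := by
  funext T
  unfold dF
  rw [← Finset.sum_add_distrib]
  exact Finset.sum_congr rfl fun v _ => smul_add _ _ _

theorem dF_sub (S : Finset V) (x y : Finset V → RW G) : dF o S (fun T => x T - y T) = fun T => dF o S x T - dF o S y T := by
  funext T
  unfold dF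
  rw [← Finset.sum_sub_distrib]
  exact Finset.sum_congr rfl fun v _ => smul_sub _ _ _

theorem ChF.d (hx : ChF S (n + 1) x) : ChF S n (dF o S x) := by
  refine ⟨fun T => ?_, fun T h => ?_, fun T h => ?_⟩
  · unfold dF
    rw [Finset.sum_mul]
    refine Finset.sum_congr rfl fun v hv => ?_
    rw [smul_mul_assoc, ← hx.pr (insert v T), mul_assoc,
      cp_sub (ps_comm G) (ps_idem G) (Finset.mem_sdiff.1 hv).2]
  · refine Finset.sum_eq_zero fun v hv => ?_
    rw [hx.cd (insert v T) (by rw [Finset.card_insert_of_notMem (Finset.mem_sdiff.1 hv).2]; omega), smul_zero]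
  · refine Finset.sum_eq_zero fun v hv => ?_
    rw [hx.sp (insert v T) (fun h' => h ((Finset.subset_insert v T).trans h')), smul_zero]

theorem dF_dF (hx : ChF S n x) : dF o S (dF o S x) = 0 := by
  classical
  funext T
  obtain ⟨b, hb⟩ : ∃ b : V → V → RW G, b = fun v u => if u = v then 0 else
      (eo o v T * eo o u (insert v T)) • x (insert u (insert v T)) := ⟨_, rfl⟩
  have h1 : dF o S (dF o S x) T = ∑ v ∈ S \ T, ∑ u ∈ S \ T, b v u := by
    unfold dF
    refine Finset.sum_congr rfl fun v hv => ?_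
    rw [Finset.smul_sum]
    have h2 : S \ insert v T = (S \ T).erase v := by
      ext u
      simp only [Finset.mem_sdiff, Finset.mem_insert, Finset.mem_erase]
      tauto
    rw [h2]
    refine (Finset.sum_congr rfl fun u hu => ?_).trans (Finset.sum_erase (S \ T) (f := fun u => b v u) (a := v) ?_)
    · rw [hb]
      show _ = if u = v then 0 else _
      rw [if_neg (Finset.ne_of_mem_erase hu), smul_smul]
    · rw [hb]
      show (if v = v then (0 : RW G) else _) = 0
      rw [if_pos rfl]
  have h3 : ∀ v ∈ S \ T, ∀ u ∈ S \ T, b v u = -b u v := by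
    intro v hv u hu
    rw [hb]
    show (if u = v then (0 : RW G) else _) = -(if v = u then (0 : RW G) else _)
    by_cases huv : u = v
    · rw [if_pos huv, if_pos huv.symm, neg_zero]
    · rw [if_neg huv, if_neg (Ne.symm huv), Finset.insert_comm v u T]
      by_cases hc : G.IsClique ((insert u (insert v T) : Finset V) : Set V)
      · have ha : G.Adj v u := hc (by simp) (by simp) (Ne.symm huv)
        rw [eo_anti o (Finset.mem_sdiff.1 hv).2 (Finset.mem_sdiff.1 hu).2 ha, neg_smul]
      · rw [hx.clique hc, smul_zero, smul_zero, neg_zero]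
  have h4 : ∑ v ∈ S \ T, ∑ u ∈ S \ T, b v u = -∑ v ∈ S \ T, ∑ u ∈ S \ T, b v u := by
    nth_rewrite 2 [Finset.sum_comm]
    rw [← Finset.sum_neg_distrib]
    refine Finset.sum_congr rfl fun v hv => ?_
    rw [← Finset.sum_neg_distrib]
    exact Finset.sum_congr rfl fun u hu => h3 v hv u hu
  rw [h1]
  have h5 : (2 : ℚ) • ∑ v ∈ S \ T, ∑ u ∈ S \ T, b v u = 0 := by
    rw [two_smul]
    nth_rewrite 1 [h4]
    rw [neg_add_cancel]
  exact (smul_eq_zero.1 h5).resolve_left two_ne_zero

theorem ChF.coeff (hx : ChF S n x) {T : Finset V} {t : V} (ht : t ∈ T) (w : W G) :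
    (x T).coeff (w * sm G t) = -(x T).coeff w := by
  have h1 : x T * ps G t = x T := by
    rw [← hx.pr T, mul_assoc, cp_mul_self (ps_comm G) (ps_idem G) ht]
  have h2 : x T * gs G (sm G t) = -x T := by
    unfold ps qs at h1
    rw [mul_smul_comm, mul_sub, mul_one] at h1
    have h3 : (2 : ℚ) • x T = x T - x T * gs G (sm G t) := by
      nth_rewrite 1 [← h1]
      rw [smul_smul]
      norm_num
    rw [two_smul] at h3
    have h4 : x T * gs G (sm G t) = x T - (x T + x T) := by rw [h3]; abel
    rw [h4]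
    abel
  have h3 := congrArg (fun y : RW G => y.coeff w) h2
  have h4 : (x T * gs G (sm G t)).coeff w = (x T).coeff (w * (sm G t)⁻¹) * 1 :=
    MonoidAlgebra.coeff_mul_single_apply _ _ _ _
  rw [sm_inv, mul_one] at h4
  exact h4.symm.trans h3

theorem ChF.desc (hx : ChF S n x) {L : ℕ} (hL : ∀ T w, L < len G w → (x T).coeff w = 0) {T : Finset V} {t : V}
    (ht : t ∈ T) {w : W G} (hw : L ≤ len G w) (h : (x T).coeff w ≠ 0) : nn G w (sm G t) = 1 := by
  have h1 : (x T).coeff (w * sm G t) ≠ 0 := by
    rw [hx.coeff ht]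
    exact neg_ne_zero.2 h
  have h2 : len G (w * sm G t) ≤ L := by
    by_contra h3
    exact h1 (hL T _ (not_le.1 h3))
  have h3 := len_mul_simple G w t
  refine nn_of_len ?_
  have e : (cox G).simple t = sm G t := rfl
  rw [e] at h3
  omega

open Classical in
/-- the coefficients of the filling -/
noncomputable def fillF (o : Ori G) (x : Finset V → RW G) (w : W G) (T' : Finset V) : ℚ :=
  if h : ∃ v, nn G w (sm G v) = 1 then
    (if h.choose ∈ T' then (eo o h.choose (T'.erase h.choose) : ℚ) * (x (T'.erase h.choose)).coeff w else 0) else 0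

theorem fillF_ne {w : W G} {T' : Finset V} (h : fillF o x w T' ≠ 0) :
    ∃ s ∈ T', nn G w (sm G s) = 1 ∧ (x (T'.erase s)).coeff w ≠ 0 ∧ ∃ h : ∃ v, nn G w (sm G v) = 1, h.choose = s := by
  classical
  unfold fillF at h
  by_cases h1 : ∃ v, nn G w (sm G v) = 1
  · rw [dif_pos h1] at h
    by_cases h2 : h1.choose ∈ T'
    · rw [if_pos h2] at h
      exact ⟨h1.choose, h2, h1.choose_spec, right_ne_zero_of_mul h, h1, rfl⟩
    · rw [if_neg h2] at h
      exact absurd rfl h
  · rw [dif_neg h1] at h
    exact absurd rfl h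

theorem fillF_desc (hx : ChF S n x) {L : ℕ} (hL : ∀ T w, L < len G w → (x T).coeff w = 0) {w : W G}
    (hw : L ≤ len G w) {T' : Finset V} (h : fillF o x w T' ≠ 0) :
    G.IsClique (T' : Set V) ∧ (∀ t ∈ T', nn G w (sm G t) = 1) ∧ T'.card = n + 1 := by
  obtain ⟨s, hs, h1, h2, _⟩ := fillF_ne h
  have h3 : ∀ t ∈ T', nn G w (sm G t) = 1 := by
    intro t ht
    by_cases hts : t = s
    · rw [hts]
      exact h1
    · exact hx.desc hL (Finset.mem_erase.2 ⟨hts, ht⟩) hw h2
  refine ⟨fun a ha b hb hab => desc_adj hab (h3 a ha) (h3 b hb), h3, ?_⟩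
  by_contra h4
  apply h2
  rw [hx.cd (T'.erase s) (by
    intro h5
    apply h4
    have := Finset.card_erase_add_one hs
    omega)]
  rfl

/-- the sum of the filling -/
theorem fillF_sum (hx : ChF S (n + 1) x) (hd : dF o S x = 0) {L : ℕ}
    (hL : ∀ T w, L < len G w → (x T).coeff w = 0) {w : W G} (hw : L ≤ len G w) (hS : S ⊆ S')
    (hS' : ∀ h : ∃ v, nn G w (sm G v) = 1, h.choose ∈ S') (T : Finset V) :
    ∑ v ∈ S' \ T, (eo o v T : ℚ) * fillF o x w (insert v T) = (x T).coeff w := by
  classical
  by_cases h1 : ∃ v, nn G w (sm G v) = 1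
  · obtain ⟨s, hs⟩ : ∃ s, s = h1.choose := ⟨_, rfl⟩
    have hsn : nn G w (sm G s) = 1 := by rw [hs]; exact h1.choose_spec
    have hsS : s ∈ S' := by rw [hs]; exact hS' h1
    have hf : ∀ T', fillF o x w T' = if s ∈ T' then (eo o s (T'.erase s) : ℚ) * (x (T'.erase s)).coeff w else 0 := by
      intro T'
      unfold fillF
      rw [dif_pos h1, hs]
    have hd' : ∀ T : Finset V, ∑ v ∈ S' \ T, (eo o v T : ℚ) * (x (insert v T)).coeff w = 0 := by
      intro T
      have h2 : (dF o S' x T).coeff w = 0 := by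
        rw [dF_mono hx.sp hS, hd]
        rfl
      have h3 : (dF o S' x T).coeff w = ∑ v ∈ S' \ T, (eo o v T : ℚ) * (x (insert v T)).coeff w := by
        unfold dF
        rw [MonoidAlgebra.coeff_sum, Finset.sum_apply']
        refine Finset.sum_congr rfl fun v _ => ?_
        rw [← Int.cast_smul_eq_zsmul ℚ, MonoidAlgebra.coeff_smul_apply, smul_eq_mul]
      rw [← h3]
      exact h2
    by_cases hsT : s ∈ T
    · obtain ⟨T0, hT0⟩ : ∃ T0, T0 = T.erase s := ⟨_, rfl⟩
      have hs0 : s ∉ T0 := by rw [hT0]; exact Finset.notMem_erase s T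
      have hT : T = insert s T0 := by rw [hT0, Finset.insert_erase hsT]
      have h2 : ∀ v ∈ S' \ T, (eo o v T : ℚ) * fillF o x w (insert v T) =
          -((eo o s T0 : ℚ) * ((eo o v T0 : ℚ) * (x (insert v T0)).coeff w)) := by
        intro v hv
        have hvT := (Finset.mem_sdiff.1 hv).2
        have hvs : v ≠ s := by
          rintro rfl
          exact hvT hsT
        have hv0 : v ∉ T0 := fun h => hvT (by rw [hT]; exact Finset.mem_insert_of_mem h)
        have e1 : (insert v T).erase s = insert v T0 := by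
          rw [hT0, Finset.erase_insert_of_ne hvs]
        rw [hf, if_pos (Finset.mem_insert_of_mem hsT), e1, hT]
        by_cases hz : (x (insert v T0)).coeff w = 0
        · rw [hz]
          ring
        · have hvn : nn G w (sm G v) = 1 := hx.desc hL (Finset.mem_insert_self v T0) hw hz
          have ha : G.Adj s v := desc_adj (Ne.symm hvs) hsn hvn
          have h3 := eo_anti o hs0 hv0 ha
          have h4 := eo_sq o s T0
          have h5 := eo_sq o s (insert v T0)
          have h6 : eo o v (insert s T0) * eo o s (insert v T0) = -(eo o s T0 * eo o v T0) := by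
            calc eo o v (insert s T0) * eo o s (insert v T0)
                = (eo o s T0 * eo o s T0) * (eo o v (insert s T0) * eo o s (insert v T0)) := by rw [h4, one_mul]
              _ = eo o s T0 * (eo o s T0 * eo o v (insert s T0)) * eo o s (insert v T0) := by ring
              _ = eo o s T0 * (-(eo o v T0 * eo o s (insert v T0))) * eo o s (insert v T0) := by rw [h3]
              _ = -(eo o s T0 * eo o v T0) * (eo o s (insert v T0) * eo o s (insert v T0)) := by ring
              _ = -(eo o s T0 * eo o v T0) := by rw [h5, mul_one]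
          have h7 : (eo o v (insert s T0) : ℚ) * eo o s (insert v T0) = -((eo o s T0 : ℚ) * eo o v T0) := by
            exact_mod_cast h6
          linear_combination ((x (insert v T0)).coeff w) * h7
      have h3 := hd' T0
      have h4 : S' \ T0 = insert s (S' \ T) := by
        ext v
        rw [hT, Finset.mem_insert, Finset.mem_sdiff, Finset.mem_sdiff, Finset.mem_insert]
        constructor
        · rintro ⟨h, h'⟩
          by_cases hvs : v = s
          · exact Or.inl hvs
          · exact Or.inr ⟨h, fun h'' => h''.elim hvs h'⟩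
        · rintro (rfl | ⟨h, h'⟩)
          · exact ⟨hsS, hs0⟩
          · exact ⟨h, fun h'' => h' (Or.inr h'')⟩
      have h5 : s ∉ S' \ T := fun h => (Finset.mem_sdiff.1 h).2 hsT
      rw [h4, Finset.sum_insert h5] at h3
      rw [Finset.sum_congr rfl h2, Finset.sum_neg_distrib, ← Finset.mul_sum]
      have h6 : (eo o s T0 : ℚ) * eo o s T0 = 1 := by exact_mod_cast eo_sq o s T0
      rw [← hT] at h3
      linear_combination (-(eo o s T0 : ℚ)) * h3 + ((x T).coeff w) * h6
    · rw [Finset.sum_eq_single s]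
      · rw [hf, if_pos (Finset.mem_insert_self s T), Finset.erase_insert hsT]
        have h6 : (eo o s T : ℚ) * eo o s T = 1 := by exact_mod_cast eo_sq o s T
        linear_combination ((x T).coeff w) * h6
      · intro v _ hvs
        rw [hf, if_neg, mul_zero]
        intro h
        rcases Finset.mem_insert.1 h with h | h
        · exact hvs h.symm
        · exact hsT h
      · intro h
        exact absurd (Finset.mem_sdiff.2 ⟨hsS, hsT⟩) h
  · have h2 : (x T).coeff w = 0 := by
      by_contra h2
      rcases T.eq_empty_or_nonempty with h3 | ⟨t, ht⟩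
      · apply h2
        rw [hx.cd T (by rw [h3, Finset.card_empty]; omega)]
        rfl
      · exact h1 ⟨t, hx.desc hL ht hw h2⟩
    rw [h2]
    refine Finset.sum_eq_zero fun v _ => ?_
    unfold fillF
    rw [dif_neg h1, mul_zero]

/-- reduction of the length -/
theorem redF (hx : ChF S (n + 1) x) (hd : dF o S x = 0) {L : ℕ}
    (hL : ∀ T w, L < len G w → (x T).coeff w = 0) :
    ∃ S' y, S ⊆ S' ∧ ChF S' (n + 2) y ∧ ∀ T w, L ≤ len G w → (x T - dF o S' y T).coeff w = 0 := by
  classical
  obtain ⟨Q, hQ⟩ : ∃ Q : Finset (W G), Q = (S.powerset.biUnion fun T => (x T).coeff.support).filter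
      (fun w => L ≤ len G w) := ⟨_, rfl⟩
  obtain ⟨S', hS'⟩ : ∃ S' : Finset V, S' = S ∪ Q.biUnion fun w =>
      if h : ∃ v, nn G w (sm G v) = 1 then {h.choose} else ∅ := ⟨_, rfl⟩
  have hSS : S ⊆ S' := by rw [hS']; exact Finset.subset_union_left
  have hch : ∀ w ∈ Q, ∀ h : ∃ v, nn G w (sm G v) = 1, h.choose ∈ S' := by
    intro w hw h
    rw [hS', Finset.mem_union]
    right
    rw [Finset.mem_biUnion]
    refine ⟨w, hw, ?_⟩
    rw [dif_pos h]
    exact Finset.mem_singleton_self _
  obtain ⟨y, hy⟩ : ∃ y : Finset V → RW G, y = fun T' =>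
      (∑ w ∈ Q, (MonoidAlgebra.single w (fillF o x w T') : RW G)) * cp (qs_comm G) T' := ⟨_, rfl⟩
  have hQm : ∀ w ∈ Q, L ≤ len G w := by
    intro w hw
    rw [hQ, Finset.mem_filter] at hw
    exact hw.2
  have hQx : ∀ w, L ≤ len G w → w ∉ Q → ∀ T', (x T').coeff w = 0 := by
    intro w hw hwQ T'
    by_contra h
    apply hwQ
    rw [hQ, Finset.mem_filter]
    refine ⟨Finset.mem_biUnion.2 ⟨T', ?_, Finsupp.mem_support_iff.2 h⟩, hw⟩
    rw [Finset.mem_powerset]
    by_contra h'
    apply h
    rw [hx.sp T' h']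
    rfl
  have hQc : ∀ w, L ≤ len G w → w ∉ Q → ∀ T', fillF o x w T' = 0 := by
    intro w hw hwQ T'
    by_contra h
    obtain ⟨s, _, _, h2, _⟩ := fillF_ne h
    exact h2 (hQx w hw hwQ _)
  have hyc : ∀ T' w', L ≤ len G w' → (y T').coeff w' = fillF o x w' T' := by
    intro T' w' hw'
    have h1 : (y T').coeff w' =
        ∑ w ∈ Q, ((MonoidAlgebra.single w (fillF o x w T') : RW G) * cp (qs_comm G) T').coeff w' := by
      rw [hy]
      show ((∑ w ∈ Q, (MonoidAlgebra.single w (fillF o x w T') : RW G)) * cp (qs_comm G) T').coeff w' = _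
      rw [Finset.sum_mul, MonoidAlgebra.coeff_sum, Finset.sum_apply']
    have h2 : ∀ w ∈ Q, ((MonoidAlgebra.single w (fillF o x w T') : RW G) * cp (qs_comm G) T').coeff w' =
        if w = w' then fillF o x w' T' else 0 := by
      intro w hw
      have e1 : (MonoidAlgebra.single w (fillF o x w T') : RW G) = fillF o x w T' • gs G w := by
        rw [MonoidAlgebra.smul_single', mul_one]
      rw [e1, smul_mul_assoc, MonoidAlgebra.coeff_smul_apply, smul_eq_mul]
      by_cases h3 : fillF o x w T' = 0
      · rw [h3, zero_mul]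
        by_cases h4 : w = w'
        · rw [if_pos h4, ← h4, h3]
        · rw [if_neg h4]
      · obtain ⟨k1, k2, _⟩ := fillF_desc hx hL (hQm w hw) h3
        obtain ⟨t1, t2⟩ := tri T' w k1 k2
        by_cases h4 : w = w'
        · subst h4
          rw [if_pos rfl, t2, mul_one]
        · rw [if_neg h4]
          by_cases h5 : (gs G w * cp (qs_comm G) T').coeff w' = 0
          · rw [h5, mul_zero]
          · exfalso
            rcases t1 w' h5 with h6 | h6
            · exact h4 h6.symm
            · have h8 : len G w ≤ L := by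
                by_contra h8
                obtain ⟨s, _, _, h10, _⟩ := fillF_ne h3
                exact h10 (hL _ w (not_le.1 h8))
              omega
    rw [h1, Finset.sum_congr rfl h2, Finset.sum_ite_eq']
    by_cases h3 : w' ∈ Q
    · rw [if_pos h3]
    · rw [if_neg h3, hQc w' hw' h3]
  refine ⟨S', y, hSS, ⟨fun T' => ?_, fun T' h => ?_, fun T' h => ?_⟩, fun T w hw => ?_⟩
  · rw [hy]
    show (∑ w ∈ Q, (MonoidAlgebra.single w (fillF o x w T') : RW G)) * cp (qs_comm G) T' * cp (ps_comm G) T' = _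
    rw [mul_assoc, qR_pR]
  · rw [hy]
    show (∑ w ∈ Q, (MonoidAlgebra.single w (fillF o x w T') : RW G)) * cp (qs_comm G) T' = 0
    rw [Finset.sum_eq_zero, zero_mul]
    intro w hw
    have h1 : fillF o x w T' = 0 := by
      by_contra h1
      exact h (fillF_desc hx hL (hQm w hw) h1).2.2
    rw [h1]
    simp
  · rw [hy]
    show (∑ w ∈ Q, (MonoidAlgebra.single w (fillF o x w T') : RW G)) * cp (qs_comm G) T' = 0
    rw [Finset.sum_eq_zero, zero_mul]
    intro w hw
    have h1 : fillF o x w T' = 0 := by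
      by_contra h1
      obtain ⟨s, hs, _, h2, h3, h4⟩ := fillF_ne h1
      apply h
      have h5 : s ∈ S' := by rw [← h4]; exact hch w hw h3
      have h6 : T'.erase s ⊆ S := by
        by_contra h6
        apply h2
        rw [hx.sp _ h6]
        rfl
      rw [← Finset.insert_erase hs]
      exact Finset.insert_subset h5 (h6.trans hSS)
    rw [h1]
    simp
  · have h1 : (x T - dF o S' y T).coeff w = (x T).coeff w - (dF o S' y T).coeff w := rfl
    have h2 : (dF o S' y T).coeff w = ∑ v ∈ S' \ T, (eo o v T : ℚ) * fillF o x w (insert v T) := by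
      unfold dF
      rw [MonoidAlgebra.coeff_sum, Finset.sum_apply']
      refine Finset.sum_congr rfl fun v _ => ?_
      rw [← Int.cast_smul_eq_zsmul ℚ, MonoidAlgebra.coeff_smul_apply, smul_eq_mul, hyc _ w hw]
    rw [h1, h2]
    by_cases hwQ : w ∈ Q
    · rw [fillF_sum hx hd hL hw hSS (hch w hwQ), sub_self]
    · rw [hQx w hw hwQ, zero_sub, neg_eq_zero]
      refine Finset.sum_eq_zero fun v _ => ?_
      rw [hQc w hw hwQ, mul_zero]

theorem exactF_len (L : ℕ) : ∀ {S : Finset V} {x : Finset V → RW G}, ChF S (n + 1) x → dF o S x = 0 →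
    (∀ T w, L ≤ len G w → (x T).coeff w = 0) → ∃ S' y, S ⊆ S' ∧ ChF S' (n + 2) y ∧ dF o S' y = x := by
  induction L with
  | zero =>
    intro S x hx hd hL
    refine ⟨S, 0, Finset.Subset.refl _, ⟨fun T => zero_mul _, fun T _ => rfl, fun T _ => rfl⟩, ?_⟩
    funext T
    have h1 : x T = 0 := MonoidAlgebra.ext (Finsupp.ext fun w => hL T w (Nat.zero_le _))
    rw [h1]
    exact Finset.sum_eq_zero fun v _ => smul_zero _
  | succ L ih =>
    intro S x hx hd hL
    obtain ⟨S1, y, hS1, hy, h1⟩ := redF hx hd (L := L) fun T w hw => hL T w hw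
    have h2 : ChF S1 (n + 1) fun T => x T - dF o S1 y T := (hx.mono hS1).sub hy.d
    obtain ⟨S2, y', hS2, hy', h3⟩ := ih h2 (by
      rw [dF_sub, dF_mono hx.sp hS1, hd, dF_dF hy]
      funext T
      exact sub_zero _) h1
    refine ⟨S2, fun T => y T + y' T, hS1.trans hS2, (hy.mono hS2).add hy', ?_⟩
    rw [dF_add, h3, dF_mono hy.sp hS2]
    funext T
    exact add_sub_cancel _ _

/-- exactness -/
theorem exactF (hx : ChF S (n + 1) x) (hd : dF o S x = 0) :
    ∃ S' y, S ⊆ S' ∧ ChF S' (n + 2) y ∧ dF o S' y = x := by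
  classical
  obtain ⟨L, hL⟩ : ∃ L : ℕ, ∀ T w, L ≤ len G w → (x T).coeff w = 0 := by
    refine ⟨(S.powerset.biUnion fun T => (x T).coeff.support).sup (len G) + 1, fun T w hw => ?_⟩
    by_contra h
    have h2 : w ∈ S.powerset.biUnion fun T => (x T).coeff.support := by
      refine Finset.mem_biUnion.2 ⟨T, ?_, Finsupp.mem_support_iff.2 h⟩
      rw [Finset.mem_powerset]
      by_contra h'
      apply h
      rw [hx.sp T h']
      rfl
    have h3 := Finset.le_sup (f := len G) h2
    omega
  exact exactF_len L hx hd hL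

end Pool.Agent.X250.RT
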