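import Pool.Agent.X250.RT.Euler

/-!
# The deformation of the regular representation of a semidirect product
-/

set_option autoImplicit false
set_option linter.unusedSectionVars false

open scoped Matrix ENNReal InnerProductSpace Topology

namespace Pool.Agent.X250.RT

open Pool.Agent.W907.SG Pool.Agent.W461.SGN
open Pool.Agent.X250.ZS (Hl sm sm_sm sm_inv sm_inj nn w_ind nn_one nn_left nn_right_self nn_right_adj nn_inv conj_eq
  pj pj_apply kp kp_congr kp_add kp_mul mm pj_idem tr tr_apply zm pr Ra La dl dl_apply two_pos' pT Tr Tr_pT pT_empty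
  pT_insert cl_sub ps qs cp cp_empty cp_insert ps_comm RW gs)

variable {V : Type} {G : SimpleGraph V} {π : Type} [Group π] [MulAction π V]

/-- the semidirect product -/
abbrev SP (φ : π →* MulAut (W G)) : Type := W G ⋊[φ] π

/-- an action of the group on the graph, extended to the Coxeter group -/
structure Com (φ : π →* MulAut (W G)) : Prop where
  adj : ∀ (g : π) (u v : V), G.Adj u v → G.Adj (g • u) (g • v)
  sm : ∀ (g : π) (v : V), φ g (sm G v) = sm G (g • v)

variable {φ : π →* MulAut (W G)} (hφ : Com φ)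

include hφ in
theorem nn_equiv (g : π) (w r : W G) : nn G (φ g w) (φ g r) = nn G w r := by
  classical
  refine w_ind G (p := fun w => nn G (φ g w) (φ g r) = nn G w r) w ?_ ?_
  · rw [map_one, nn_one, nn_one]
  · intro w v ih
    rw [map_mul, hφ.sm, nn_left, nn_left, ih]
    congr 1
    have h1 : sm G (g • v) * φ g w = φ g w * φ g r ↔ sm G v * w = w * r := by
      rw [← hφ.sm, ← map_mul, ← map_mul]
      exact (φ g).injective.eq_iff
    simp only [h1]

/-- right multiplication with a generator -/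
noncomputable def rP (s : V) : Equiv.Perm (SP φ) := Equiv.mulRight (SemidirectProduct.inl (sm G s))

/-- left multiplication with a generator -/
noncomputable def lP (s : V) : Equiv.Perm (SP φ) := Equiv.mulLeft (SemidirectProduct.inl (sm G s))

/-- no right descent -/
def AP (s : V) : Set (SP φ) := {p | nn G p.left (sm G (p.right • s)) = 0}

/-- no left descent -/
def BP (s : V) : Set (SP φ) := {p | nn G p.left⁻¹ (sm G s) = 0}

theorem rP_apply (s : V) (p : SP φ) : rP s p = p * SemidirectProduct.inl (sm G s) := rfl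

theorem lP_apply (s : V) (p : SP φ) : lP s p = SemidirectProduct.inl (sm G s) * p := rfl

theorem rP_right (s : V) (p : SP φ) : (rP s p).right = p.right := by
  show p.right * 1 = p.right
  rw [mul_one]

theorem lP_left (s : V) (p : SP φ) : (lP s p).left = sm G s * p.left := by
  show sm G s * φ 1 p.left = _
  rw [map_one]
  rfl

theorem lP_right (s : V) (p : SP φ) : (lP s p).right = p.right := by
  show 1 * p.right = p.right
  rw [one_mul]

theorem inl_sq (s : V) : (SemidirectProduct.inl (sm G s) : SP φ) * SemidirectProduct.inl (sm G s) = 1 := by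
  rw [← map_mul, sm_sm, map_one]

theorem rP_rP (s : V) (p : SP φ) : rP s (rP s p) = p := by
  rw [rP_apply, rP_apply, mul_assoc, inl_sq, mul_one]

theorem lP_lP (s : V) (p : SP φ) : lP s (lP s p) = p := by
  rw [lP_apply, lP_apply, ← mul_assoc, inl_sq, one_mul]

include hφ in
theorem rP_left (s : V) (p : SP φ) : (rP s p).left = p.left * sm G (p.right • s) := by
  show p.left * φ p.right (sm G s) = _
  rw [hφ.sm]

include hφ in
theorem AP_rP (s : V) (p : SP φ) : rP s p ∈ AP (φ := φ) s ↔ p ∉ AP (φ := φ) s := by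
  show nn G (rP s p).left (sm G ((rP s p).right • s)) = 0 ↔ ¬ nn G p.left (sm G (p.right • s)) = 0
  rw [rP_left hφ, rP_right, nn_right_self]
  exact zm _

theorem BP_lP (s : V) (p : SP φ) : lP s p ∈ BP (φ := φ) s ↔ p ∉ BP (φ := φ) s := by
  show nn G (lP s p).left⁻¹ (sm G s) = 0 ↔ ¬ nn G p.left⁻¹ (sm G s) = 0
  rw [lP_left, mul_inv_rev, sm_inv, nn_right_self]
  exact zm _

/-- the right projections -/
noncomputable def prP (φ : π →* MulAut (W G)) (x : ℝ) (s : V) : OP (SP φ) := pj (rP s) (AP s) x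

/-- the left projections -/
noncomputable def plP (φ : π →* MulAut (W G)) (x : ℝ) (s : V) : OP (SP φ) := pj (lP s) (BP s) x

include hφ in
theorem prP_idem {x : ℝ} (h0 : 0 ≤ x) (h1 : x ≤ 1) (s : V) : prP φ x s * prP φ x s = prP φ x s :=
  pj_idem (rP_rP s) (AP_rP hφ s) h0 h1

include hφ in
theorem prP_comm (x : ℝ) (s t : V) (h : G.Adj s t) : prP φ x s * prP φ x t = prP φ x t * prP φ x s := by
  refine ContinuousLinearMap.ext fun f => Subtype.ext (funext fun p => ?_)
  show (prP φ x s (prP φ x t f) : SP φ → ℂ) p = (prP φ x t (prP φ x s f) : SP φ → ℂ) p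
  unfold prP
  rw [pj_apply, pj_apply, pj_apply, pj_apply, pj_apply, pj_apply]
  have h1 : rP t (rP s p) = rP s (rP t p) := by
    rw [rP_apply, rP_apply, rP_apply, rP_apply, mul_assoc, mul_assoc, ← map_mul, ← map_mul, simple_comm G s t h]
  have key : ∀ s t, G.Adj s t → kp (AP (φ := φ) s) x (rP t p) = kp (AP s) x p := by
    intro s t h
    have : rP t p ∈ AP (φ := φ) s ↔ p ∈ AP (φ := φ) s := by
      show nn G (rP t p).left (sm G ((rP t p).right • s)) = 0 ↔ nn G p.left (sm G (p.right • s)) = 0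
      rw [rP_left hφ, rP_right, nn_right_adj G _ _ _ (hφ.adj _ _ _ h)]
    exact kp_congr this
  rw [h1, key s t h, key t s h.symm]
  ring

include hφ in
theorem prP_plP (x : ℝ) (s t : V) : prP φ x s * plP φ x t = plP φ x t * prP φ x s := by
  classical
  refine ContinuousLinearMap.ext fun f => Subtype.ext (funext fun p => ?_)
  show (prP φ x s (plP φ x t f) : SP φ → ℂ) p = (plP φ x t (prP φ x s f) : SP φ → ℂ) p
  unfold prP plP
  rw [pj_apply, pj_apply, pj_apply, pj_apply, pj_apply, pj_apply]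
  have h1 : lP t (rP s p) = rP s (lP t p) := by
    rw [rP_apply, lP_apply, rP_apply, lP_apply, mul_assoc]
  rw [h1]
  by_cases h : sm G t * p.left = p.left * sm G (p.right • s)
  · have h0 := conj_eq G h
    have h2 : lP t p = rP s p := by
      refine SemidirectProduct.ext ?_ ?_
      · rw [lP_left, rP_left hφ, h]
      · rw [lP_right, rP_right]
    have h3 := kp_add (AP_rP hφ s) x p
    have h4 := kp_add (BP_lP (φ := φ) t) x p
    have h5 : kp (AP s) x p = kp (BP t) x p := by
      have : p ∈ AP (φ := φ) s ↔ p ∈ BP (φ := φ) t := by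
        show nn G p.left (sm G (p.right • s)) = 0 ↔ nn G p.left⁻¹ (sm G t) = 0
        rw [← h0] at h ⊢
        rw [nn_inv G p.left t h]
      exact kp_congr this
    rw [h2] at h4 ⊢
    linear_combination ((mm x : ℂ) * (f : SP φ → ℂ) (rP s p)) * (h4 - h3 + 2 * h5)
  · have h2 : kp (AP s) x (lP t p) = kp (AP s) x p := by
      have : lP t p ∈ AP (φ := φ) s ↔ p ∈ AP (φ := φ) s := by
        show nn G (lP t p).left (sm G ((lP t p).right • s)) = 0 ↔ nn G p.left (sm G (p.right • s)) = 0
        rw [lP_left, lP_right, nn_left, if_neg h, add_zero]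
      exact kp_congr this
    have h3 : kp (BP t) x (rP s p) = kp (BP t) x p := by
      have : rP s p ∈ BP (φ := φ) t ↔ p ∈ BP (φ := φ) t := by
        show nn G (rP s p).left⁻¹ (sm G t) = 0 ↔ nn G p.left⁻¹ (sm G t) = 0
        have h4 : ¬ sm G (p.right • s) * p.left⁻¹ = p.left⁻¹ * sm G t := by
          intro h4
          apply h
          have h5 := congrArg (·⁻¹) h4
          simp only [mul_inv_rev, inv_inv, sm_inv] at h5
          exact h5.symm
        rw [rP_left hφ, mul_inv_rev, sm_inv, nn_left, if_neg h4, add_zero]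
      exact kp_congr this
    rw [h2, h3]
    ring

/-- right translations by elements of the quotient -/
noncomputable def Rh (φ : π →* MulAut (W G)) (h : π) : OP (SP φ) := rr (SemidirectProduct.inr h)

/-- left translations by elements of the quotient -/
noncomputable def Lh (φ : π →* MulAut (W G)) (h : π) : OP (SP φ) :=
  tr (Equiv.mulLeft (SemidirectProduct.inr h : SP φ))

theorem Rh_apply (h : π) (f : Hl (SP φ)) (p : SP φ) :
    (Rh φ h f : SP φ → ℂ) p = (f : SP φ → ℂ) (p * SemidirectProduct.inr h) := rfl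

theorem Lh_apply (h : π) (f : Hl (SP φ)) (p : SP φ) :
    (Lh φ h f : SP φ → ℂ) p = (f : SP φ → ℂ) (SemidirectProduct.inr h * p) := rfl

include hφ in
theorem inr_sm (h : π) (s : V) : (SemidirectProduct.inr h : SP φ) * SemidirectProduct.inl (sm G s) =
    SemidirectProduct.inl (sm G (h • s)) * SemidirectProduct.inr h := by
  refine SemidirectProduct.ext ?_ ?_
  · show 1 * φ h (sm G s) = sm G (h • s) * φ 1 1
    rw [hφ.sm, one_mul, map_one, mul_one]
  · show h * 1 = 1 * h
    rw [mul_one, one_mul]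

theorem inr_left (p : SP φ) (h : π) : (p * SemidirectProduct.inr h).left = p.left := by
  show p.left * φ p.right 1 = p.left
  rw [map_one, mul_one]

theorem left_inr (p : SP φ) (h : π) : (SemidirectProduct.inr h * p : SP φ).left = φ h p.left := by
  show 1 * φ h p.left = _
  rw [one_mul]

include hφ in
theorem Rh_prP (x : ℝ) (h : π) (s : V) : Rh φ h * prP φ x s = prP φ x (h • s) * Rh φ h := by
  refine ContinuousLinearMap.ext fun f => Subtype.ext (funext fun p => ?_)
  show (Rh φ h (prP φ x s f) : SP φ → ℂ) p = (prP φ x (h • s) (Rh φ h f) : SP φ → ℂ) p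
  unfold prP
  rw [Rh_apply, pj_apply, pj_apply, Rh_apply, Rh_apply]
  have h1 : rP s (p * SemidirectProduct.inr h) = rP (h • s) p * SemidirectProduct.inr h := by
    rw [rP_apply, rP_apply, mul_assoc, mul_assoc, inr_sm hφ]
  have h2 : kp (AP s) x (p * SemidirectProduct.inr h) = kp (AP (h • s)) x p := by
    have : p * SemidirectProduct.inr h ∈ AP (φ := φ) s ↔ p ∈ AP (φ := φ) (h • s) := by
      show nn G (p * SemidirectProduct.inr h).left (sm G ((p.right * h) • s)) = 0 ↔
        nn G p.left (sm G (p.right • h • s)) = 0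
      rw [inr_left, mul_smul]
    exact kp_congr this
  rw [h1, h2]

include hφ in
theorem Lh_prP (x : ℝ) (h : π) (s : V) : Lh φ h * prP φ x s = prP φ x s * Lh φ h := by
  refine ContinuousLinearMap.ext fun f => Subtype.ext (funext fun p => ?_)
  show (Lh φ h (prP φ x s f) : SP φ → ℂ) p = (prP φ x s (Lh φ h f) : SP φ → ℂ) p
  unfold prP
  rw [Lh_apply, pj_apply, pj_apply, Lh_apply, Lh_apply]
  have h1 : rP s (SemidirectProduct.inr h * p : SP φ) = SemidirectProduct.inr h * rP s p := by
    rw [rP_apply, rP_apply, mul_assoc]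
  have h2 : kp (AP s) x (SemidirectProduct.inr h * p : SP φ) = kp (AP s) x p := by
    have : (SemidirectProduct.inr h * p : SP φ) ∈ AP (φ := φ) s ↔ p ∈ AP (φ := φ) s := by
      show nn G (SemidirectProduct.inr h * p : SP φ).left (sm G ((h * p.right) • s)) = 0 ↔
        nn G p.left (sm G (p.right • s)) = 0
      rw [left_inr, mul_smul, ← hφ.sm, nn_equiv hφ]
    exact kp_congr this
  rw [h1, h2]

theorem plP_Rh (x : ℝ) (h : π) (s : V) : plP φ x s * Rh φ h = Rh φ h * plP φ x s := by
  refine ContinuousLinearMap.ext fun f => Subtype.ext (funext fun p => ?_)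
  show (plP φ x s (Rh φ h f) : SP φ → ℂ) p = (Rh φ h (plP φ x s f) : SP φ → ℂ) p
  unfold plP
  rw [Rh_apply, pj_apply, pj_apply, Rh_apply, Rh_apply]
  have h1 : lP s (p * SemidirectProduct.inr h) = lP s p * SemidirectProduct.inr h := by
    rw [lP_apply, lP_apply, mul_assoc]
  have h2 : kp (BP s) x (p * SemidirectProduct.inr h) = kp (BP s) x p := by
    have : p * SemidirectProduct.inr h ∈ BP (φ := φ) s ↔ p ∈ BP (φ := φ) s := by
      show nn G (p * SemidirectProduct.inr h).left⁻¹ (sm G s) = 0 ↔ nn G p.left⁻¹ (sm G s) = 0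
      rw [inr_left]
    exact kp_congr this
  rw [h1, h2]

theorem Lh_Rh (h k : π) : Lh φ h * Rh φ k = Rh φ k * Lh φ h := by
  refine ContinuousLinearMap.ext fun f => Subtype.ext (funext fun p => ?_)
  show (f : SP φ → ℂ) (_ * p * _) = (f : SP φ → ℂ) (_ * (p * _))
  rw [mul_assoc]

theorem prP_dP (x : ℝ) (s : V) : prP φ x s dP = plP φ x s dP := by
  classical
  refine Subtype.ext (funext fun p => ?_)
  unfold prP plP
  rw [pj_apply, pj_apply]
  have h1 : rP s p = 1 ↔ lP s p = 1 := by
    rw [rP_apply, lP_apply]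
    exact mul_eq_one_comm
  rw [dP_congr h1]
  by_cases h : p = 1
  · subst h
    have h2 : kp (AP (φ := φ) s) x (1 : SP φ) = kp (BP (φ := φ) s) x (1 : SP φ) := by
      have e1 : (1 : SP φ) ∈ AP (φ := φ) s := nn_one G _
      have e2 : (1 : SP φ) ∈ BP (φ := φ) s := by
        have e3 : ((1 : SP φ).left)⁻¹ = 1 := inv_one
        show nn G ((1 : SP φ).left)⁻¹ (sm G s) = 0
        rw [e3, nn_one]
      exact kp_congr ⟨fun _ => e2, fun _ => e1⟩
    rw [h2]
  · rw [dP_ne h]
    ring

theorem Rh_dP (h : π) : Rh φ h dP = Lh φ h dP := by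
  classical
  refine Subtype.ext (funext fun p => ?_)
  rw [Rh_apply, Lh_apply]
  exact dP_congr mul_eq_one_comm

/-! ### the algebra -/

/-- the commutant -/
def Cm (φ : π →* MulAut (W G)) (x : ℝ) (c : OP (SP φ)) : Prop :=
  (∀ s, c * prP φ x s = prP φ x s * c) ∧ ∀ h, c * Rh φ h = Rh φ h * c

/-- the good operators -/
def GP (φ : π →* MulAut (W G)) (x : ℝ) : Subalgebra ℂ (OP (SP φ)) where
  carrier := {a | (∃ a' : OP (SP φ), Cm φ x a' ∧ a dP = a' dP ∧
    ∀ f : Hl (SP φ), (a f : SP φ → ℂ) 1 = (a' f : SP φ → ℂ) 1) ∧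
    ∀ c : OP (SP φ), Cm φ x c → c * a = a * c}
  mul_mem' := by
    rintro a b ⟨⟨a', h1, h2, h3⟩, h4⟩ ⟨⟨b', k1, k2, k3⟩, k4⟩
    refine ⟨⟨b' * a', ⟨fun s => ?_, fun h => ?_⟩, ?_, fun f => ?_⟩, fun c hc => ?_⟩
    · rw [mul_assoc, h1.1, ← mul_assoc, k1.1, mul_assoc]
    · rw [mul_assoc, h1.2, ← mul_assoc, k1.2, mul_assoc]
    · show a (b dP) = b' (a' dP)
      have e1 : a (b' dP) = b' (a dP) := (congrArg (fun T : OP (SP φ) => T dP) (h4 b' k1)).symm
      rw [k2, e1, h2]
    · show (a (b f) : SP φ → ℂ) 1 = (b' (a' f) : SP φ → ℂ) 1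
      have e1 : a' (b f) = b (a' f) := congrArg (fun T : OP (SP φ) => T f) (k4 a' h1)
      rw [h3, e1, k3]
    · rw [← mul_assoc, h4 c hc, mul_assoc, k4 c hc, mul_assoc]
  add_mem' := by
    rintro a b ⟨⟨a', h1, h2, h3⟩, h4⟩ ⟨⟨b', k1, k2, k3⟩, k4⟩
    refine ⟨⟨a' + b', ⟨fun s => ?_, fun h => ?_⟩, ?_, fun f => ?_⟩, fun c hc => ?_⟩
    · rw [add_mul, mul_add, h1.1, k1.1]
    · rw [add_mul, mul_add, h1.2, k1.2]
    · show a dP + b dP = a' dP + b' dP
      rw [h2, k2]
    · show (a f : SP φ → ℂ) 1 + (b f : SP φ → ℂ) 1 = (a' f : SP φ → ℂ) 1 + (b' f : SP φ → ℂ) 1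
      rw [h3, k3]
    · rw [add_mul, mul_add, h4 c hc, k4 c hc]
  algebraMap_mem' := by
    intro r
    refine ⟨⟨algebraMap ℂ (OP (SP φ)) r, ⟨fun s => Algebra.commutes _ _, fun h => Algebra.commutes _ _⟩, rfl,
      fun f => rfl⟩, fun c hc => (Algebra.commutes _ _).symm⟩

include hφ in
theorem prP_mem (x : ℝ) (s : V) : prP φ x s ∈ GP φ x := by
  refine ⟨⟨plP φ x s, ⟨fun t => (prP_plP hφ x t s).symm, fun h => plP_Rh x h s⟩, prP_dP x s, fun f => ?_⟩,
    fun c hc => hc.1 s⟩
  unfold prP plP
  rw [← eval_dP, ← eval_dP, ← Pool.Agent.X250.ZS.inner_pj (rP_rP s), ← Pool.Agent.X250.ZS.inner_pj (lP_lP s)]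
  have := prP_dP (φ := φ) x s
  unfold prP plP at this
  rw [this]

include hφ in
theorem Rh_mem (x : ℝ) (h : π) : Rh φ h ∈ GP φ x := by
  refine ⟨⟨Lh φ h, ⟨fun t => Lh_prP hφ x h t, fun k => Lh_Rh h k⟩, Rh_dP h, fun f => ?_⟩, fun c hc => hc.2 h⟩
  rw [Rh_apply, Lh_apply, one_mul, mul_one]

theorem tau_comm {x : ℝ} {a b : OP (SP φ)} (ha : a ∈ GP φ x) (hb : b ∈ GP φ x) : tau (a * b) = tau (b * a) := by
  obtain ⟨⟨a', h1, h2, h3⟩, h4⟩ := ha
  obtain ⟨_, k4⟩ := hb
  have e1 : a' (b dP) = b (a' dP) := congrArg (fun T : OP (SP φ) => T dP) (k4 a' h1)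
  show (a (b dP) : SP φ → ℂ) 1 = (b (a dP) : SP φ → ℂ) 1
  rw [h3, e1, h2]

/-! ### the representation -/

/-- the clamped parameter -/
noncomputable def cl (x : ℝ) : ℝ := max 0 (min 1 x)

theorem cl0 (x : ℝ) : 0 ≤ cl x := le_max_left _ _

theorem cl1 (x : ℝ) : cl x ≤ 1 := max_le zero_le_one (min_le_left _ _)

theorem cl_eq {x : ℝ} (h0 : 0 ≤ x) (h1 : x ≤ 1) : cl x = x := by
  unfold cl
  rw [min_eq_right h1, max_eq_right h0]

theorem cl_cont : Continuous cl := by
  unfold cl
  fun_prop

/-- the symmetries -/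
noncomputable def us (φ : π →* MulAut (W G)) (x : ℝ) (s : V) : OP (SP φ) := 1 - (2 : ℂ) • prP φ (cl x) s

include hφ in
theorem us_sq (x : ℝ) (s : V) : us φ x s * us φ x s = 1 := by
  unfold us
  simp only [mul_sub, sub_mul, mul_one, one_mul, smul_mul_smul_comm, prP_idem hφ (cl0 x) (cl1 x)]
  module

include hφ in
theorem us_comm (x : ℝ) (s t : V) (h : G.Adj s t) : us φ x s * us φ x t = us φ x t * us φ x s := by
  unfold us
  simp only [mul_sub, sub_mul, mul_one, one_mul, smul_mul_smul_comm, prP_comm hφ _ s t h]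
  abel

/-- the representation of the Coxeter group -/
noncomputable def UW (x : ℝ) : W G →* OP (SP φ) :=
  (cox G).toCoxeterSystem.lift ⟨us φ x, liftable G _ (us_sq hφ x) (us_comm hφ x)⟩

theorem UW_sm (x : ℝ) (v : V) : UW hφ x (sm G v) = us φ x v := CoxeterSystem.lift_apply_simple _ _ v

theorem Rh_mul (h k : π) : Rh φ (h * k) = Rh φ h * Rh φ k := by
  unfold Rh
  rw [map_mul, map_mul]

include hφ in
theorem Rh_us (x : ℝ) (h : π) (s : V) : Rh φ h * us φ x s = us φ x (h • s) * Rh φ h := by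
  unfold us
  rw [mul_sub, sub_mul, mul_one, one_mul, mul_smul_comm, smul_mul_assoc, Rh_prP hφ]

theorem Rh_UW (x : ℝ) (h : π) (w : W G) : Rh φ h * UW hφ x w = UW hφ x (φ h w) * Rh φ h := by
  refine w_ind G (p := fun w => Rh φ h * UW hφ x w = UW hφ x (φ h w) * Rh φ h) w ?_ ?_
  · rw [map_one, map_one, map_one, mul_one, one_mul]
  · intro w v ih
    rw [map_mul, map_mul, map_mul, hφ.sm, UW_sm, UW_sm, ← mul_assoc, Rh_us hφ, mul_assoc, ih, mul_assoc]

/-- the representation of the semidirect product -/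
noncomputable def UP (x : ℝ) : SP φ →* OP (SP φ) where
  toFun p := UW hφ x p.left * Rh φ p.right
  map_one' := by
    show UW hφ x 1 * Rh φ 1 = 1
    unfold Rh
    rw [map_one, map_one, map_one, one_mul]
  map_mul' p q := by
    show UW hφ x (p.left * φ p.right q.left) * Rh φ (p.right * q.right) =
      UW hφ x p.left * Rh φ p.right * (UW hφ x q.left * Rh φ q.right)
    rw [map_mul, Rh_mul, mul_assoc, mul_assoc, ← mul_assoc (Rh φ p.right), Rh_UW, mul_assoc]

/-- the representations of the group algebra -/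
noncomputable def TH (x : ℝ) : MonoidAlgebra ℂ (SP φ) →+* OP (SP φ) :=
  (MonoidAlgebra.lift ℂ (OP (SP φ)) (SP φ) (UP hφ x)).toRingHom

theorem TH_single (x : ℝ) (p : SP φ) (c : ℂ) : TH hφ x (MonoidAlgebra.single p c) = c • UP hφ x p := by
  show MonoidAlgebra.lift ℂ (OP (SP φ)) (SP φ) (UP hφ x) (MonoidAlgebra.single p c) = _
  rw [MonoidAlgebra.lift_single]

include hφ in
theorem us_mem (x : ℝ) (s : V) : us φ x s ∈ GP φ (cl x) :=
  sub_mem (one_mem _) (Subalgebra.smul_mem _ (prP_mem hφ _ s) _)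

theorem UW_mem (x : ℝ) (w : W G) : UW hφ x w ∈ GP φ (cl x) := by
  refine w_ind G (p := fun w => UW hφ x w ∈ GP φ (cl x)) w ?_ ?_
  · rw [map_one]
    exact one_mem _
  · intro w v ih
    rw [map_mul, UW_sm]
    exact mul_mem (us_mem hφ x v) ih

theorem TH_mem (x : ℝ) (a : MonoidAlgebra ℂ (SP φ)) : TH hφ x a ∈ GP φ (cl x) := by
  induction a using MonoidAlgebra.induction_linear with
  | zero =>
    rw [map_zero]
    exact zero_mem _
  | add a b ha hb =>
    rw [map_add]
    exact add_mem ha hb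
  | single p c =>
    rw [TH_single]
    exact Subalgebra.smul_mem _ (mul_mem (UW_mem hφ x _) (Rh_mem hφ _ _)) _

theorem TH_comm (x : ℝ) (a b : MonoidAlgebra ℂ (SP φ)) : tau (TH hφ x (a * b)) = tau (TH hφ x (b * a)) := by
  rw [map_mul, map_mul]
  exact tau_comm (TH_mem hφ x a) (TH_mem hφ x b)

theorem us_cont (s : V) : Continuous fun x => us φ x s := by
  unfold us prP pj mm
  have := cl_cont
  fun_prop

theorem UW_cont (w : W G) : Continuous fun x => UW hφ x w := by
  refine w_ind G (p := fun w => Continuous fun x => UW hφ x w) w ?_ ?_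
  · simp only [map_one]
    exact continuous_const
  · intro w v ih
    simp only [map_mul, UW_sm]
    exact (us_cont v).mul ih

theorem TH_cont (a : MonoidAlgebra ℂ (SP φ)) : Continuous fun x => TH hφ x a := by
  induction a using MonoidAlgebra.induction_linear with
  | zero =>
    simp only [map_zero]
    exact continuous_const
  | add a b ha hb =>
    simp only [map_add]
    exact ha.add hb
  | single p c =>
    simp only [TH_single]
    exact ((UW_cont hφ _).mul continuous_const).const_smul c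

theorem us_half (s : V) : us φ (1 / 2) s = rr (SemidirectProduct.inl (sm G s)) := by
  classical
  have h1 : mm (1 / 2) = -(1 / 2) := by
    unfold mm
    congr 1
    rw [show (1 / 2 : ℝ) * (1 - 1 / 2) = (1 / 2) ^ 2 by norm_num]
    exact Real.sqrt_sq (by norm_num)
  refine ContinuousLinearMap.ext fun f => Subtype.ext (funext fun p => ?_)
  have h2 : (us φ (1 / 2) s f : SP φ → ℂ) p = (f : SP φ → ℂ) p - 2 * (prP φ (cl (1 / 2)) s f : SP φ → ℂ) p := rfl
  rw [h2, cl_eq (by norm_num) (by norm_num)]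
  unfold prP
  rw [pj_apply]
  have h3 : kp (AP (φ := φ) s) (1 / 2) p = 1 / 2 := by
    unfold kp
    split_ifs
    · push_cast
      ring
    · push_cast
      ring
  rw [h3, h1]
  show _ = (f : SP φ → ℂ) (p * SemidirectProduct.inl (sm G s))
  push_cast
  have h4 : (f : SP φ → ℂ) (rP s p) = (f : SP φ → ℂ) (p * SemidirectProduct.inl (sm G s)) := rfl
  rw [h4]
  ring

theorem UW_half (w : W G) : UW hφ (1 / 2) w = rr (SemidirectProduct.inl w) := by
  refine w_ind G (p := fun w => UW hφ (1 / 2) w = rr (SemidirectProduct.inl w)) w ?_ ?_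
  · rw [map_one, map_one, map_one]
  · intro w v ih
    rw [map_mul, UW_sm, ih, map_mul, map_mul, us_half]

theorem TH_half (a : MonoidAlgebra ℂ (SP φ)) : TH hφ (1 / 2) a = reg a := by
  induction a using MonoidAlgebra.induction_linear with
  | zero => rw [map_zero, map_zero]
  | add a b ha hb => rw [map_add, map_add, ha, hb]
  | single p c =>
    rw [TH_single, reg_single]
    congr 1
    show UW hφ (1 / 2) p.left * Rh φ p.right = _
    rw [UW_half]
    unfold Rh
    rw [← map_mul, SemidirectProduct.inl_left_mul_inr_right]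

end Pool.Agent.X250.RT
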