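import Pool.Agent.X250.RT.Hecke

/-!
# The traces of the projections of the cliques
-/

set_option autoImplicit false
set_option linter.unusedSectionVars false

open scoped Matrix ENNReal InnerProductSpace Topology

namespace Pool.Agent.X250.RT

open Pool.Agent.W907.SG Pool.Agent.W461.SGN
open Pool.Agent.X250.ZS (Hl sm sm_sm sm_inv sm_inj nn w_ind nn_one nn_left nn_right_self nn_right_adj nn_inv conj_eq
  pj pj_apply kp kp_congr kp_add kp_mul mm pj_idem tr tr_apply zm pr Ra La dl dl_apply two_pos' pT Tr Tr_pT pT_empty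
  pT_insert pT_neg cl_sub ps qs cp cp_empty cp_insert cp_neg ps_comm RW gs)

variable {V : Type} {G : SimpleGraph V} {π : Type} [Group π] [MulAction π V]
  {φ : π →* MulAut (W G)} (hφ : Com φ)

/-- the inclusion of group rings -/
noncomputable def iW (φ : π →* MulAut (W G)) : RW G →+* RP (SP φ) :=
  MonoidAlgebra.mapDomainRingHom ℚ (SemidirectProduct.inl : W G →* SP φ)

theorem iW_single (w : W G) (r : ℚ) :
    iW φ (MonoidAlgebra.single w r) = MonoidAlgebra.single (SemidirectProduct.inl w : SP φ) r := by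
  show MonoidAlgebra.mapDomain _ (MonoidAlgebra.single w r) = _
  rw [MonoidAlgebra.mapDomain_single]

theorem mem_E1 (f : Hl (SP φ)) : Memℓp (fun w : W G => (f : SP φ → ℂ) (SemidirectProduct.inl w)) 2 := by
  have hf := lp.memℓp f
  rw [memℓp_gen_iff two_pos'] at hf ⊢
  exact hf.comp_injective SemidirectProduct.inl_injective

/-- the restriction to the Coxeter group -/
noncomputable def E1 (f : Hl (SP φ)) : Hl (W G) := ⟨fun w => (f : SP φ → ℂ) (SemidirectProduct.inl w), mem_E1 f⟩

theorem E1_apply (f : Hl (SP φ)) (w : W G) : (E1 f : W G → ℂ) w = (f : SP φ → ℂ) (SemidirectProduct.inl w) := rfl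

theorem kp_congr' {ι κ : Type} {A : Set ι} {B : Set κ} {x : ℝ} {i : ι} {j : κ} (h : i ∈ A ↔ j ∈ B) :
    kp A x i = kp B x j := by
  unfold kp
  by_cases h1 : i ∈ A
  · rw [if_pos h1, if_pos (h.1 h1)]
  · rw [if_neg h1, if_neg (fun h2 => h1 (h.2 h2))]

theorem E1_prP (x : ℝ) (s : V) (f : Hl (SP φ)) : E1 (prP φ x s f) = pr (fun _ => x) s (E1 f) := by
  refine Subtype.ext (funext fun w => ?_)
  rw [E1_apply]
  unfold prP pr
  rw [pj_apply, pj_apply, E1_apply, E1_apply]
  have h1 : rP s (SemidirectProduct.inl w : SP φ) = SemidirectProduct.inl (Pool.Agent.X250.ZS.rt G s w) := by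
    rw [rP_apply, ← map_mul]
    rfl
  have h2 : kp (AP (φ := φ) s) x (SemidirectProduct.inl w) = kp (Ra G s) x w := by
    have : (SemidirectProduct.inl w : SP φ) ∈ AP (φ := φ) s ↔ w ∈ Ra G s := by
      show nn G w (sm G ((1 : π) • s)) = 0 ↔ nn G w (sm G s) = 0
      rw [one_smul]
    exact kp_congr' this
  rw [h1, h2]

theorem E1_dP : E1 (dP : Hl (SP φ)) = dl := by
  classical
  refine Subtype.ext (funext fun w => ?_)
  rw [E1_apply, dP_apply, dl_apply]
  have h1 : (SemidirectProduct.inl w : SP φ) = 1 ↔ w = 1 := by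
    rw [← map_one (SemidirectProduct.inl : W G →* SP φ)]
    exact SemidirectProduct.inl_injective.eq_iff
  by_cases h : w = 1
  · rw [if_pos h, if_pos (h1.2 h)]
  · rw [if_neg h, if_neg (fun h' => h (h1.1 h'))]

theorem TH_ps (x : ℝ) (s : V) : TH hφ x (qc (iW φ (ps G s))) = prP φ (cl x) s := by
  have h2 : TH hφ x (qc (iW φ (ps G s))) = ((1 / 2 : ℚ) : ℂ) • (1 - us φ x s) := by
    unfold ps qs
    have e : ((1 / 2 : ℚ) • (1 - gs G (sm G s)) : RW G) = MonoidAlgebra.single 1 (1 / 2) -
        MonoidAlgebra.single (sm G s) (1 / 2) := by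
      rw [smul_sub, MonoidAlgebra.smul_single', mul_one]
      congr 1
      rw [MonoidAlgebra.one_def, MonoidAlgebra.smul_single', mul_one]
    rw [e, map_sub, map_sub, map_sub, iW_single, iW_single, qc_single, qc_single, TH_single, TH_single, map_one,
      map_one, smul_sub]
    congr 2
    show UW hφ x (sm G s) * Rh φ 1 = us φ x s
    unfold Rh
    rw [UW_sm, map_one, map_one, mul_one]
  rw [h2]
  unfold us
  push_cast
  module

variable [DecidableEq V]

theorem E1_cp (x : ℝ) (T : Finset V) : ∀ f, E1 (TH hφ x (qc (iW φ (cp (ps_comm G) T))) f) =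
    pT (fun _ => cl x) T (E1 f) := by
  induction T using Finset.induction_on with
  | empty =>
    intro f
    rw [cp_empty, map_one, map_one, map_one, pT_empty]
    rfl
  | insert s T hs ih =>
    intro f
    by_cases h : G.IsClique ((insert s T : Finset V) : Set V)
    · rw [cp_insert (ps_comm G) hs h, map_mul, map_mul, map_mul, TH_ps, pT_insert _ hs h]
      show E1 (prP φ (cl x) s (TH hφ x (qc (iW φ (cp (ps_comm G) T))) f)) =
        pr (fun _ => cl x) s (pT (fun _ => cl x) T (E1 f))
      rw [E1_prP, ih]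
    · rw [cp_neg _ h, map_zero, map_zero, map_zero, pT_neg _ h]
      rfl

/-- the traces of the projections of the cliques -/
theorem tau_cp (x : ℝ) {T : Finset V} (hT : G.IsClique (T : Set V)) :
    tau (TH hφ x (qc (iW φ (cp (ps_comm G) T)))) = ((cl x ^ T.card : ℝ) : ℂ) := by
  have h1 : tau (TH hφ x (qc (iW φ (cp (ps_comm G) T)))) =
      (E1 (TH hφ x (qc (iW φ (cp (ps_comm G) T))) dP) : W G → ℂ) 1 := by
    rw [E1_apply, map_one]
    rfl
  rw [h1, E1_cp, E1_dP]
  have h2 := Tr_pT (G := G) (fun _ => cl x) hT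
  rw [Finset.prod_const] at h2
  exact h2

theorem tau_one (x : ℝ) : tau (TH hφ x (qc 1)) = 1 := by
  classical
  rw [map_one, map_one]
  show (dP : Hl (SP φ)) 1 = 1
  rw [dP_apply, if_pos rfl]

end Pool.Agent.X250.RT
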