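import Pool.Agent.X250.ZS.Coh

/-!
# The regular representation, and approximate contractions over the group algebra
-/

set_option autoImplicit false
set_option linter.unusedSectionVars false

open scoped Matrix ENNReal InnerProductSpace

namespace Pool.Agent.X250.RT

open Pool.Agent.X250.ZS
open Pool.Agent.H919R4.ZS (FinRes augm L2 act L toRed RedC valR redCstar groupRing lreg lregL lregL_apply L_single
  coe_toRed)

variable {P : Type} [Group P]

/-- the bounded operators -/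
abbrev OP (P : Type) : Type := Hl P →L[ℂ] Hl P

/-- the right regular representation -/
noncomputable def rr : P →* OP P where
  toFun g := tr (Equiv.mulRight g)
  map_one' := by
    refine ContinuousLinearMap.ext fun f => Subtype.ext (funext fun w => ?_)
    show (f : P → ℂ) (w * 1) = (f : P → ℂ) w
    rw [mul_one]
  map_mul' g h := by
    refine ContinuousLinearMap.ext fun f => Subtype.ext (funext fun w => ?_)
    show (f : P → ℂ) (w * (g * h)) = (f : P → ℂ) (w * g * h)
    rw [mul_assoc]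

/-- the regular representation of the group algebra -/
noncomputable def reg : MonoidAlgebra ℂ P →ₐ[ℂ] OP P := MonoidAlgebra.lift ℂ (OP P) P rr

theorem reg_single (g : P) (c : ℂ) : reg (MonoidAlgebra.single g c) = c • rr g := by
  unfold reg
  rw [MonoidAlgebra.lift_single]

/-! ### subgroups -/

section sub

variable (Γ : Subgroup P)

theorem mem_EP (w : P) (f : Hl P) : Memℓp (fun γ : Γ => (f : P → ℂ) (w * (γ : P)⁻¹)) 2 := by
  have hf := lp.memℓp f
  rw [memℓp_gen_iff two_pos'] at hf ⊢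
  refine hf.comp_injective (i := fun γ : Γ => w * (γ : P)⁻¹) ?_
  intro a b h
  exact Subtype.ext (inv_injective (mul_left_cancel h))

/-- the restriction to a coset -/
noncomputable def EP (w : P) (f : Hl P) : L2 Γ := ⟨fun γ : Γ => (f : P → ℂ) (w * (γ : P)⁻¹), mem_EP Γ w f⟩

/-- the left regular representation of the subgroup -/
noncomputable def lamH : Γ →* (L2 Γ →L[ℂ] L2 Γ) where
  toFun g := lregL g
  map_one' := by
    refine ContinuousLinearMap.ext fun f => Subtype.ext (funext fun h => ?_)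
    show (lregL 1 f) h = f h
    rw [lregL_apply, inv_one, one_mul]
  map_mul' g k := by
    refine ContinuousLinearMap.ext fun f => Subtype.ext (funext fun h => ?_)
    show (lregL (g * k) f) h = (lregL g (lregL k f)) h
    rw [lregL_apply, lregL_apply, lregL_apply, mul_inv_rev, mul_assoc]

/-- the left regular representation of the group algebra of the subgroup -/
noncomputable def lamC : MonoidAlgebra ℂ Γ →ₐ[ℂ] (L2 Γ →L[ℂ] L2 Γ) :=
  MonoidAlgebra.lift ℂ (L2 Γ →L[ℂ] L2 Γ) Γ (lamH Γ)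

theorem lamC_single (g : Γ) (c : ℂ) : lamC Γ (MonoidAlgebra.single g c) = c • lregL g := by
  unfold lamC
  rw [MonoidAlgebra.lift_single]
  rfl

/-- the inclusion of the group algebras -/
noncomputable def icl : MonoidAlgebra ℂ Γ →ₐ[ℂ] MonoidAlgebra ℂ P := MonoidAlgebra.mapDomainAlgHom ℂ ℂ Γ.subtype

theorem icl_single (g : Γ) (c : ℂ) : icl Γ (MonoidAlgebra.single g c) = MonoidAlgebra.single (g : P) c := by
  unfold icl
  rw [MonoidAlgebra.mapDomainAlgHom_apply, MonoidAlgebra.mapDomain_single]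
  rfl

theorem EP_add (w : P) (f g : Hl P) : EP Γ w (f + g) = EP Γ w f + EP Γ w g := rfl

theorem EP_reg (w : P) (a : MonoidAlgebra ℂ Γ) (f : Hl P) :
    EP Γ w (reg (icl Γ a) f) = lamC Γ a (EP Γ w f) := by
  induction a using MonoidAlgebra.induction_linear with
  | zero =>
    rw [map_zero, map_zero, map_zero]
    rfl
  | add x y hx hy =>
    rw [map_add, map_add, map_add]
    show EP Γ w (reg (icl Γ x) f + reg (icl Γ y) f) = lamC Γ x (EP Γ w f) + lamC Γ y (EP Γ w f)
    rw [EP_add, hx, hy]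
  | single γ m =>
    rw [icl_single, reg_single, lamC_single]
    refine Subtype.ext (funext fun γ' => ?_)
    show m * (f : P → ℂ) (w * (γ' : P)⁻¹ * γ) = (m • lregL γ (EP Γ w f)) γ'
    have h1 : (m • lregL γ (EP Γ w f)) γ' = m * (lregL γ (EP Γ w f)) γ' := rfl
    have h2 : w * (γ' : P)⁻¹ * γ = w * ((γ⁻¹ * γ' : Γ) : P)⁻¹ := by
      rw [Subgroup.coe_mul, Subgroup.coe_inv, mul_inv_rev, inv_inv, mul_assoc]
    rw [h1, lregL_apply, h2]
    rfl

/-- the decomposition into cosets -/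
noncomputable def cosEq : (P ⧸ Γ) × Γ ≃ P where
  toFun p := Quotient.out p.1 * (p.2 : P)⁻¹
  invFun w := (QuotientGroup.mk w, ⟨w⁻¹ * Quotient.out (QuotientGroup.mk w : P ⧸ Γ), by
    rw [← QuotientGroup.eq]
    exact (Quotient.out_eq _).symm⟩)
  left_inv p := by
    obtain ⟨c, γ⟩ := p
    have h1 : (QuotientGroup.mk (Quotient.out c * (γ : P)⁻¹) : P ⧸ Γ) = c := by
      have h2 : (QuotientGroup.mk (Quotient.out c) : P ⧸ Γ) = c := Quotient.out_eq _
      rw [← h2, QuotientGroup.eq]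
      rw [h2, mul_inv_rev, inv_inv, mul_assoc, inv_mul_cancel, mul_one]
      exact γ.2
    refine Prod.ext h1 (Subtype.ext ?_)
    show (Quotient.out c * (γ : P)⁻¹)⁻¹ * Quotient.out (QuotientGroup.mk (Quotient.out c * (γ : P)⁻¹) : P ⧸ Γ) = γ
    rw [h1, mul_inv_rev, inv_inv, mul_assoc, inv_mul_cancel, mul_one]
  right_inv w := by
    show Quotient.out (QuotientGroup.mk w : P ⧸ Γ) * (w⁻¹ * Quotient.out (QuotientGroup.mk w : P ⧸ Γ))⁻¹ = w
    rw [mul_inv_rev, inv_inv, mul_inv_cancel_left]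

theorem norm_EP [Fintype (P ⧸ Γ)] (f : Hl P) : ‖f‖ ^ (2 : ℝ≥0∞).toReal =
    ∑ c : P ⧸ Γ, ‖EP Γ (Quotient.out c) f‖ ^ (2 : ℝ≥0∞).toReal := by
  have hf := (memℓp_gen_iff two_pos').1 (lp.memℓp f)
  have h1 : Summable fun p : (P ⧸ Γ) × Γ => ‖(f : P → ℂ) (cosEq Γ p)‖ ^ (2 : ℝ≥0∞).toReal :=
    hf.comp_injective (cosEq Γ).injective
  rw [lp.norm_rpow_eq_tsum two_pos', ← (cosEq Γ).tsum_eq, h1.tsum_prod, tsum_fintype]
  refine Finset.sum_congr rfl fun c _ => ?_
  rw [lp.norm_rpow_eq_tsum two_pos']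
  rfl

theorem norm_reg_le [Fintype (P ⧸ Γ)] (a : MonoidAlgebra ℂ Γ) : ‖reg (icl Γ a)‖ ≤ ‖lamC Γ a‖ := by
  refine ContinuousLinearMap.opNorm_le_bound _ (norm_nonneg _) fun f => ?_
  have h1 : ‖reg (icl Γ a) f‖ ^ (2 : ℝ≥0∞).toReal ≤ (‖lamC Γ a‖ * ‖f‖) ^ (2 : ℝ≥0∞).toReal := by
    rw [Real.mul_rpow (norm_nonneg _) (norm_nonneg _), norm_EP Γ, norm_EP Γ, Finset.mul_sum]
    refine Finset.sum_le_sum fun c _ => ?_
    rw [EP_reg, ← Real.mul_rpow (norm_nonneg _) (norm_nonneg _)]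
    exact Real.rpow_le_rpow (norm_nonneg _) ((lamC Γ a).le_opNorm _) (by norm_num)
  exact (Real.rpow_le_rpow_iff (norm_nonneg _) (by positivity) two_pos').1 h1

theorem dense_lam (a : RedC Γ) {ε : ℝ} (hε : 0 < ε) : ∃ b : MonoidAlgebra ℂ Γ, ‖valR a - lamC Γ b‖ < ε := by
  have h1 : groupRing Γ ≤ (lamC Γ).toRingHom.range := by
    refine (Subring.closure_le).2 ?_
    rintro T ⟨c, g, rfl⟩
    exact ⟨MonoidAlgebra.single g c, lamC_single Γ g c⟩
  have h2 : Subtype.val (p := fun y => y ∈ redCstar Γ) a ∈ closure (groupRing Γ : Set _) := a.2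
  obtain ⟨T, hT, h3⟩ := Metric.mem_closure_iff.1 h2 ε hε
  obtain ⟨b, hb⟩ := h1 hT
  refine ⟨b, ?_⟩
  rw [dist_eq_norm] at h3
  have h4 : (lamC Γ b : L2 Γ →L[ℂ] L2 Γ) = T := hb
  rw [h4]
  exact h3

/-- the map of the integral group ring to the complex group algebra -/
noncomputable def ztc : MonoidAlgebra ℤ Γ →+* MonoidAlgebra ℂ Γ :=
  MonoidAlgebra.mapRingHom Γ (Int.castRingHom ℂ)

theorem ztc_single (g : Γ) (m : ℤ) : ztc Γ (MonoidAlgebra.single g m) = MonoidAlgebra.single g (m : ℂ) :=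
  MonoidAlgebra.mapRingHom_single _ _ _

theorem lam_ztc (a : MonoidAlgebra ℤ Γ) : lamC Γ (ztc Γ a) = L a := by
  induction a using MonoidAlgebra.induction_linear with
  | zero => rw [map_zero, map_zero, map_zero]
  | add x y hx hy => rw [map_add, map_add, map_add, hx, hy]
  | single γ m =>
    rw [ztc_single, lamC_single, L_single, Int.cast_smul_eq_zsmul]

/-- matrices with small entries -/
def Sm {A : Type} [Norm A] {m n : Type} (η : ℝ) (M : Matrix m n A) : Prop := ∀ i j, ‖M i j‖ < η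

/-- approximation of matrices over the reduced group algebra -/
theorem dense_mat {m n : ℕ} (s : Matrix (Fin m) (Fin n) (RedC Γ)) {ε : ℝ} (hε : 0 < ε) :
    ∃ b : Matrix (Fin m) (Fin n) (MonoidAlgebra ℂ Γ), Sm ε (s.map valR - b.map (lamC Γ)) := by
  choose b hb using fun i j => dense_lam Γ (s i j) hε
  exact ⟨b, fun i j => hb i j⟩

/-- approximate contractions -/
theorem approx (X : FinRes Γ) (h : ∀ i, Subsingleton (X.homology (toRed Γ) i)) {η : ℝ} (hη : 0 < η) :
    ∃ s : ∀ i, Matrix (Fin (X.n i)) (Fin (X.n (i + 1))) (MonoidAlgebra ℂ Γ),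
      Sm η ((1 - s 0 * (X.d 0).map (ztc Γ)).map (lamC Γ)) ∧
      ∀ i, Sm η ((1 - ((X.d i).map (ztc Γ) * s i + s (i + 1) * (X.d (i + 1)).map (ztc Γ))).map (lamC Γ)) := by
  obtain ⟨s, e0, e1⟩ := contr_all X (toRed Γ) h
  obtain ⟨K, hK⟩ : ∃ K : ℕ → ℝ, ∀ i, K i = 1 + ∑ j, ∑ k, ‖L (X.d i j k)‖ := ⟨_, fun i => rfl⟩
  have hK1 : ∀ i, 1 ≤ K i := fun i => by
    rw [hK]
    have : 0 ≤ ∑ j, ∑ k, ‖L (X.d i j k)‖ := Finset.sum_nonneg fun j _ => Finset.sum_nonneg fun k _ => norm_nonneg _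
    linarith
  have hK0 : ∀ i, 0 < K i := fun i => lt_of_lt_of_le one_pos (hK1 i)
  have hKr : ∀ i j, ∑ k, ‖L (X.d i j k)‖ ≤ K i := fun i j => by
    rw [hK]
    have := Finset.single_le_sum (f := fun j => ∑ k, ‖L (X.d i j k)‖) (fun j _ => Finset.sum_nonneg fun k _ =>
      norm_nonneg _) (Finset.mem_univ j)
    linarith
  have hKc : ∀ i k, ∑ j, ‖L (X.d i j k)‖ ≤ K i := fun i k => by
    rw [hK, Finset.sum_comm]
    have := Finset.single_le_sum (f := fun k => ∑ j, ‖L (X.d i j k)‖) (fun j _ => Finset.sum_nonneg fun k _ =>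
      norm_nonneg _) (Finset.mem_univ k)
    linarith
  choose b hb using fun i => dense_mat Γ (s i) (show 0 < η / (2 * K i + 1) by have := hK0 i; positivity)
  have key : ∀ i, ((X.d i).map (toRed Γ)).map (valR (G := Γ)) = (X.d i).map (L (G := Γ)) := by
    intro i
    refine funext fun j => funext fun k => ?_
    exact coe_toRed (X.d i j k)
  have f0 : (s 0).map (valR (G := Γ)) * (X.d 0).map L = 1 := by
    have := Pool.Agent.H919R4.ZS.map_ident0 (valR (G := Γ)) _ _ e0
    rwa [key 0] at this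
  have f1 : ∀ i, (X.d i).map L * (s i).map (valR (G := Γ)) + (s (i + 1)).map (valR (G := Γ)) * (X.d (i + 1)).map L
      = 1 := by
    intro i
    have := Pool.Agent.H919R4.ZS.map_ident (valR (G := Γ)) _ _ _ _ (e1 i)
    rwa [key i, key (i + 1)] at this
  have hLd : ∀ i, ((X.d i).map (ztc Γ)).map (lamC Γ) = (X.d i).map L := by
    intro i
    refine funext fun j => funext fun k => ?_
    exact lam_ztc Γ (X.d i j k)
  have b1 : ∀ i j k, ‖(((s i).map valR - (b i).map (lamC Γ)) * (X.d i).map L :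
      Matrix _ _ (L2 Γ →L[ℂ] L2 Γ)) j k‖ < η / 2 := by
    intro i j k
    rw [Matrix.mul_apply]
    refine lt_of_le_of_lt (norm_sum_le _ _) ?_
    have h1 : ∀ l, ‖((s i).map valR - (b i).map (lamC Γ)) j l * (X.d i).map L l k‖ ≤
        η / (2 * K i + 1) * ‖L (X.d i l k)‖ := by
      intro l
      refine (norm_mul_le _ _).trans ?_
      rw [Matrix.map_apply (f := L)]
      exact mul_le_mul_of_nonneg_right (hb i j l).le (norm_nonneg _)
    refine lt_of_le_of_lt (Finset.sum_le_sum fun l _ => h1 l) ?_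
    rw [← Finset.mul_sum]
    have h2 := mul_le_mul_of_nonneg_left (hKc i k) (show 0 ≤ η / (2 * K i + 1) by have := hK0 i; positivity)
    refine lt_of_le_of_lt h2 ?_
    rw [div_mul_eq_mul_div, div_lt_div_iff₀ (by have := hK0 i; positivity) two_pos]
    nlinarith [hK0 i]
  have b2 : ∀ i j k, ‖((X.d i).map L * ((s i).map valR - (b i).map (lamC Γ)) :
      Matrix _ _ (L2 Γ →L[ℂ] L2 Γ)) j k‖ < η / 2 := by
    intro i j k
    rw [Matrix.mul_apply]
    refine lt_of_le_of_lt (norm_sum_le _ _) ?_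
    have h1 : ∀ l, ‖(X.d i).map L j l * ((s i).map valR - (b i).map (lamC Γ)) l k‖ ≤
        ‖L (X.d i j l)‖ * (η / (2 * K i + 1)) := by
      intro l
      refine (norm_mul_le _ _).trans ?_
      rw [Matrix.map_apply (f := L)]
      exact mul_le_mul_of_nonneg_left (hb i l k).le (norm_nonneg _)
    refine lt_of_le_of_lt (Finset.sum_le_sum fun l _ => h1 l) ?_
    rw [← Finset.sum_mul]
    have h2 := mul_le_mul_of_nonneg_right (hKr i j) (show 0 ≤ η / (2 * K i + 1) by have := hK0 i; positivity)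
    refine lt_of_le_of_lt h2 ?_
    rw [mul_div_assoc', div_lt_div_iff₀ (by have := hK0 i; positivity) two_pos]
    nlinarith [hK0 i]
  have hm : ∀ {m n : ℕ} (A B : Matrix (Fin m) (Fin n) (MonoidAlgebra ℂ Γ)),
      (A - B).map (lamC Γ) = A.map (lamC Γ) - B.map (lamC Γ) := by
    intro m n A B
    refine funext fun j => funext fun k => ?_
    exact map_sub (lamC Γ) _ _
  have hp : ∀ {m n : ℕ} (A B : Matrix (Fin m) (Fin n) (MonoidAlgebra ℂ Γ)),
      (A + B).map (lamC Γ) = A.map (lamC Γ) + B.map (lamC Γ) := by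
    intro m n A B
    refine funext fun j => funext fun k => ?_
    exact map_add (lamC Γ) _ _
  have ho : ∀ {m : ℕ}, (1 : Matrix (Fin m) (Fin m) (MonoidAlgebra ℂ Γ)).map (lamC Γ) = 1 :=
    fun {m} => Matrix.map_one (lamC Γ) (map_zero _) (map_one _)
  have hx : ∀ {m n l : ℕ} (A : Matrix (Fin m) (Fin n) (MonoidAlgebra ℂ Γ)) (B : Matrix (Fin n) (Fin l) _),
      (A * B).map (lamC Γ) = A.map (lamC Γ) * B.map (lamC Γ) := fun A B => Matrix.map_mul
  refine ⟨b, fun j k => ?_, fun i j k => ?_⟩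
  · have h1 : (1 - b 0 * (X.d 0).map (ztc Γ)).map (lamC Γ) =
        ((s 0).map valR - (b 0).map (lamC Γ)) * (X.d 0).map L := by
      rw [hm, ho, hx, hLd, Matrix.sub_mul, f0]
    rw [h1]
    have := b1 0 j k
    linarith
  · have h1 : (1 - ((X.d i).map (ztc Γ) * b i + b (i + 1) * (X.d (i + 1)).map (ztc Γ))).map (lamC Γ) =
        (X.d i).map L * ((s i).map valR - (b i).map (lamC Γ)) +
        ((s (i + 1)).map valR - (b (i + 1)).map (lamC Γ)) * (X.d (i + 1)).map L := by
      rw [hm, ho, hp, hx, hx, hLd, hLd, Matrix.sub_mul, Matrix.mul_sub, ← f1 i]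
      abel
    rw [h1]
    refine lt_of_le_of_lt (norm_add_le _ _) ?_
    have := b2 i j k
    have := b1 (i + 1) j k
    linarith

end sub

end Pool.Agent.X250.RT
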