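import Pool.Agent.X250.RT.Hecke2
import Pool.Agent.X250.RT.Fam

/-!
# Group rings of semidirect products
-/

set_option autoImplicit false
set_option linter.unusedSectionVars false

namespace Pool.Agent.X250.RT

open Pool.Agent.W907.SG Pool.Agent.W461.SGN
open Pool.Agent.X250.ZS (sm sm_sm sm_inv sm_inj ps qs cp cp_empty cp_insert cp_neg ps_comm ps_idem cp_idem cp_sub RW gs
  ext0 ext0_single ext_exact)

variable {V : Type} {G : SimpleGraph V} {π : Type} [Group π] [MulAction π V] {φ : π →* MulAut (W G)}

/-! ### slices -/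

/-- the elements of the semidirect product -/
abbrev mkP (φ : π →* MulAut (W G)) (w : W G) (g : π) : SP φ := ⟨w, g⟩

theorem mkP_inj (g : π) : Function.Injective fun w : W G => mkP φ w g := fun _ _ h => congrArg (·.left) h

/-- the slice of an element of the group ring -/
noncomputable def sl (g : π) (a : RP (SP φ)) : RW G :=
  MonoidAlgebra.comapDomain (fun w : W G => mkP φ w g) (fun _ _ h => mkP_inj g h) a

theorem sl_coeff (g : π) (a : RP (SP φ)) (w : W G) : (sl g a).coeff w = a.coeff (mkP φ w g) := rfl

theorem sl_add (g : π) (a b : RP (SP φ)) : sl g (a + b) = sl g a + sl g b :=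
  MonoidAlgebra.ext (Finsupp.ext fun _ => rfl)

theorem sl_zero (g : π) : sl g (0 : RP (SP φ)) = 0 := MonoidAlgebra.ext (Finsupp.ext fun _ => rfl)

/-- the slice as an additive map -/
noncomputable def slH (φ : π →* MulAut (W G)) (g : π) : RP (SP φ) →+ RW G where
  toFun := sl g
  map_zero' := sl_zero g
  map_add' := sl_add g

theorem sl_sum {ι : Type} (s : Finset ι) (g : π) (f : ι → RP (SP φ)) : sl g (∑ i ∈ s, f i) = ∑ i ∈ s, sl g (f i) :=
  map_sum (slH φ g) _ _

theorem sl_zsmul (g : π) (m : ℤ) (a : RP (SP φ)) : sl g (m • a) = m • sl g a := map_zsmul (slH φ g) _ _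

theorem sl_ext {a b : RP (SP φ)} (h : ∀ g, sl g a = sl g b) : a = b := by
  refine MonoidAlgebra.ext (Finsupp.ext fun p => ?_)
  exact congrArg (fun c : RW G => c.coeff p.left) (h p.right)

/-- the action on the group ring of the Coxeter group -/
noncomputable def fa (φ : π →* MulAut (W G)) (g : π) : RW G →+* RW G :=
  MonoidAlgebra.mapDomainRingHom ℚ ((φ g : W G ≃* W G) : W G →* W G)

theorem fa_single (g : π) (w : W G) (r : ℚ) : fa φ g (MonoidAlgebra.single w r) = MonoidAlgebra.single (φ g w) r := by
  show MonoidAlgebra.mapDomain _ (MonoidAlgebra.single w r) = _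
  rw [MonoidAlgebra.mapDomain_single]
  rfl

theorem sl_mul_iW (g : π) (a : RP (SP φ)) (b : RW G) : sl g (a * iW φ b) = sl g a * fa φ g b := by
  induction b using MonoidAlgebra.induction_linear with
  | zero => rw [map_zero, map_zero, mul_zero, mul_zero, sl_zero]
  | add x y hx hy => rw [map_add, map_add, mul_add, mul_add, sl_add, hx, hy]
  | single w r =>
    refine MonoidAlgebra.ext (Finsupp.ext fun u => ?_)
    rw [sl_coeff, iW_single, fa_single, MonoidAlgebra.coeff_mul_single_apply, MonoidAlgebra.coeff_mul_single_apply,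
      sl_coeff]
    congr 2
    refine SemidirectProduct.ext ?_ ?_
    · show u * φ g (φ 1⁻¹ w⁻¹) = u * (φ g w)⁻¹
      rw [inv_one, map_one, ← map_inv]
      rfl
    · show g * 1⁻¹ = g
      rw [inv_one, mul_one]

/-- the group elements of the quotient -/
noncomputable abbrev gi (φ : π →* MulAut (W G)) (h : π) : RP (SP φ) := gp (SemidirectProduct.inr h)

theorem gi_mul (g h : π) : gi φ g * gi φ h = gi φ (g * h) := by
  rw [gp_mul, ← map_mul]

theorem gi_one : gi φ 1 = 1 := by
  unfold gi
  rw [map_one]
  rfl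

theorem sl_mul_gi (g h : π) (a : RP (SP φ)) : sl g (a * gi φ h) = sl (g * h⁻¹) a := by
  refine MonoidAlgebra.ext (Finsupp.ext fun u => ?_)
  rw [sl_coeff, sl_coeff, MonoidAlgebra.coeff_mul_single_apply, mul_one]
  congr 1
  refine SemidirectProduct.ext ?_ ?_
  · show u * φ g (φ h⁻¹ 1⁻¹) = u
    rw [inv_one, map_one, map_one, mul_one]
  · rfl

theorem sl_one_iW (b : RW G) : sl (φ := φ) 1 (iW φ b) = b := by
  induction b using MonoidAlgebra.induction_linear with
  | zero => rw [map_zero, sl_zero]
  | add x y hx hy => rw [map_add, sl_add, hx, hy]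
  | single w r =>
    refine MonoidAlgebra.ext (Finsupp.ext fun u => ?_)
    classical
    rw [sl_coeff, iW_single, MonoidAlgebra.coeff_single, MonoidAlgebra.coeff_single, Finsupp.single_apply,
      Finsupp.single_apply]
    have h1 : (SemidirectProduct.inl w : SP φ) = mkP φ u 1 ↔ w = u := by
      constructor
      · intro h
        exact congrArg (·.left) h
      · rintro rfl
        rfl
    by_cases h : w = u
    · rw [if_pos h, if_pos (h1.2 h)]
    · rw [if_neg h, if_neg (fun h' => h (h1.1 h'))]

theorem sl_ne_iW {g : π} (hg : g ≠ 1) (b : RW G) : sl (φ := φ) g (iW φ b) = 0 := by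
  induction b using MonoidAlgebra.induction_linear with
  | zero => rw [map_zero, sl_zero]
  | add x y hx hy => rw [map_add, sl_add, hx, hy, add_zero]
  | single w r =>
    refine MonoidAlgebra.ext (Finsupp.ext fun u => ?_)
    classical
    rw [sl_coeff, iW_single, MonoidAlgebra.coeff_single, Finsupp.single_apply, if_neg]
    · rfl
    · intro h
      exact hg (congrArg (·.right) h).symm

/-- slices of products -/
theorem sl_iW_gi [DecidableEq π] (g h : π) (b : RW G) : sl g (iW φ b * gi φ h) = if g = h then b else 0 := by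
  rw [sl_mul_gi]
  by_cases hg : g = h
  · rw [if_pos hg, hg, mul_inv_cancel, sl_one_iW]
  · rw [if_neg hg, sl_ne_iW]
    intro h1
    exact hg (mul_inv_eq_one.1 h1)

theorem gi_iW (g : π) (b : RW G) : gi φ g * iW φ b = iW φ (fa φ g b) * gi φ g := by
  induction b using MonoidAlgebra.induction_linear with
  | zero => rw [map_zero, map_zero, map_zero, mul_zero, zero_mul]
  | add x y hx hy => rw [map_add, map_add, map_add, mul_add, add_mul, hx, hy]
  | single w r =>
    rw [iW_single, fa_single, iW_single, MonoidAlgebra.single_mul_single, MonoidAlgebra.single_mul_single, one_mul,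
      mul_one]
    congr 1
    refine SemidirectProduct.ext ?_ ?_
    · show 1 * φ g w = φ g w * φ 1 1
      rw [one_mul, map_one, mul_one]
    · show g * 1 = 1 * g
      rw [mul_one, one_mul]

/-- the decomposition into slices -/
theorem sl_decomp [DecidableEq π] (a : RP (SP φ)) (F : Finset π) (hF : ∀ g, g ∉ F → sl g a = 0) :
    a = ∑ g ∈ F, iW φ (sl g a) * gi φ g := by
  refine sl_ext fun h => ?_
  rw [sl_sum]
  have h1 : ∀ g ∈ F, sl h (iW φ (sl g a) * gi φ g) = if h = g then sl h a else 0 := by
    intro g _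
    rw [sl_iW_gi]
    by_cases hg : h = g
    · rw [if_pos hg, if_pos hg, hg]
    · rw [if_neg hg, if_neg hg]
  rw [Finset.sum_congr rfl h1, Finset.sum_ite_eq]
  by_cases h2 : h ∈ F
  · rw [if_pos h2]
  · rw [if_neg h2, hF h h2]

/-- finitely many slices -/
theorem sl_fin [DecidableEq π] (a : RP (SP φ)) : ∃ F : Finset π, ∀ g, g ∉ F → sl g a = 0 := by
  refine ⟨a.coeff.support.image (·.right), fun g hg => ?_⟩
  refine MonoidAlgebra.ext (Finsupp.ext fun w => ?_)
  rw [sl_coeff]
  by_contra h
  apply hg
  rw [Finset.mem_image]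
  exact ⟨_, Finsupp.mem_support_iff.2 h, rfl⟩

/-! ### the projection to the cosets of the quotient -/

/-- the map given by the first component -/
noncomputable def ka (φ : π →* MulAut (W G)) : RP (SP φ) →+ RW G where
  toFun a := MonoidAlgebra.mapDomain (fun p : SP φ => p.left) a
  map_zero' := MonoidAlgebra.mapDomain_zero _
  map_add' a b := MonoidAlgebra.mapDomain_add _ _ _

theorem ka_single (p : SP φ) (r : ℚ) : ka φ (MonoidAlgebra.single p r) = MonoidAlgebra.single p.left r :=
  MonoidAlgebra.mapDomain_single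

theorem ka_mul_gi (a : RP (SP φ)) (h : π) : ka φ (a * gi φ h) = ka φ a := by
  induction a using MonoidAlgebra.induction_linear with
  | zero => rw [zero_mul]
  | add x y hx hy => rw [add_mul, map_add, map_add, hx, hy]
  | single p r =>
    rw [MonoidAlgebra.single_mul_single, mul_one, ka_single, ka_single]
    congr 1
    exact inr_left p h

theorem ka_iW (b : RW G) : ka φ (iW φ b) = b := by
  induction b using MonoidAlgebra.induction_linear with
  | zero => rw [map_zero, map_zero]
  | add x y hx hy => rw [map_add, map_add, hx, hy]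
  | single w r =>
    rw [iW_single, ka_single]
    rfl

theorem ka_sum [DecidableEq π] (a : RP (SP φ)) (F : Finset π) (hF : ∀ g, g ∉ F → sl g a = 0) :
    ka φ a = ∑ g ∈ F, sl g a := by
  conv_lhs => rw [sl_decomp a F hF]
  rw [map_sum]
  refine Finset.sum_congr rfl fun g _ => ?_
  rw [ka_mul_gi, ka_iW]

/-! ### the induced complex -/

/-- the inclusion of the integral group ring of the quotient -/
noncomputable def ip (φ : π →* MulAut (W G)) : MonoidAlgebra ℤ π →+* RP (SP φ) :=
  ext0.comp (MonoidAlgebra.mapDomainRingHom ℤ (SemidirectProduct.inr : π →* SP φ))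

theorem ip_single (g : π) (m : ℤ) : ip φ (MonoidAlgebra.single g m) = (m : ℚ) • gi φ g := by
  show ext0 (MonoidAlgebra.mapDomain _ (MonoidAlgebra.single g m)) = _
  rw [MonoidAlgebra.mapDomain_single, ext0_single, MonoidAlgebra.smul_single', mul_one]

theorem aug_ip (e : MonoidAlgebra ℤ π) : aug (ip φ e) = ((Pool.Agent.H919R4.ZS.augm π e : ℤ) : ℚ) := by
  induction e using MonoidAlgebra.induction_linear with
  | zero => simp
  | add x y hx hy => rw [map_add, map_add, map_add, hx, hy, Int.cast_add]
  | single g m =>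
    rw [ip_single, aug_smul, aug_single, mul_one]
    congr 1
    show _ = MonoidAlgebra.lift ℤ ℤ π 1 (MonoidAlgebra.single g m)
    rw [MonoidAlgebra.lift_single]
    simp

theorem ka_smul (r : ℚ) (a : RP (SP φ)) : ka φ (r • a) = r • ka φ a := by
  induction a using MonoidAlgebra.induction_linear with
  | zero => rw [smul_zero, map_zero, smul_zero]
  | add x y hx hy => rw [smul_add, map_add, map_add, smul_add, hx, hy]
  | single p c => rw [MonoidAlgebra.smul_single', ka_single, ka_single, MonoidAlgebra.smul_single']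

theorem ka_mul_ip (a : RP (SP φ)) (e : MonoidAlgebra ℤ π) :
    ka φ (a * ip φ e) = ((Pool.Agent.H919R4.ZS.augm π e : ℤ) : ℚ) • ka φ a := by
  induction e using MonoidAlgebra.induction_linear with
  | zero => rw [map_zero, mul_zero, map_zero, map_zero, Int.cast_zero, zero_smul]
  | add x y hx hy => rw [map_add, mul_add, map_add, map_add, Int.cast_add, add_smul, hx, hy]
  | single g m =>
    rw [ip_single, mul_smul_comm, ka_smul, ka_mul_gi]
    congr 2
    show _ = MonoidAlgebra.lift ℤ ℤ π 1 (MonoidAlgebra.single g m)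
    rw [MonoidAlgebra.lift_single]
    simp

section indx

open scoped Matrix

/-- the slices in the other direction -/
noncomputable def rl (w : W G) (a : MonoidAlgebra ℤ (SP φ)) : MonoidAlgebra ℤ π :=
  MonoidAlgebra.comapDomain (fun g : π => mkP φ w g) (fun _ _ h => congrArg (·.right) h) a

theorem rl_coeff (w : W G) (a : MonoidAlgebra ℤ (SP φ)) (g : π) : (rl w a).coeff g = a.coeff (mkP φ w g) := rfl

/-- additive version -/
noncomputable def rlH (φ : π →* MulAut (W G)) (w : W G) : MonoidAlgebra ℤ (SP φ) →+ MonoidAlgebra ℤ π where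
  toFun := rl w
  map_zero' := MonoidAlgebra.ext (Finsupp.ext fun _ => rfl)
  map_add' _ _ := MonoidAlgebra.ext (Finsupp.ext fun _ => rfl)

/-- the integral inclusion -/
noncomputable def im (φ : π →* MulAut (W G)) : MonoidAlgebra ℤ π →+* MonoidAlgebra ℤ (SP φ) :=
  MonoidAlgebra.mapDomainRingHom ℤ (SemidirectProduct.inr : π →* SP φ)

theorem im_single (g : π) (m : ℤ) : im φ (MonoidAlgebra.single g m) =
    MonoidAlgebra.single (SemidirectProduct.inr g : SP φ) m := by
  show MonoidAlgebra.mapDomain _ (MonoidAlgebra.single g m) = _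
  rw [MonoidAlgebra.mapDomain_single]

theorem rl_mul (w : W G) (a : MonoidAlgebra ℤ (SP φ)) (b : MonoidAlgebra ℤ π) :
    rlH φ w (a * im φ b) = rlH φ w a * b := by
  induction b using MonoidAlgebra.induction_linear with
  | zero => rw [map_zero, mul_zero, mul_zero, map_zero]
  | add x y hx hy => rw [map_add, mul_add, mul_add, map_add, hx, hy]
  | single g m =>
    refine MonoidAlgebra.ext (Finsupp.ext fun h => ?_)
    show (rl w (a * im φ (MonoidAlgebra.single g m))).coeff h = (rl w a * MonoidAlgebra.single g m).coeff h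
    rw [rl_coeff, im_single, MonoidAlgebra.coeff_mul_single_apply, MonoidAlgebra.coeff_mul_single_apply, rl_coeff]
    congr 2
    refine SemidirectProduct.ext ?_ ?_
    · show w * φ h (φ g⁻¹ 1⁻¹) = w
      rw [inv_one, map_one, map_one, mul_one]
    · rfl

open Classical in
theorem rl_single_im (u w : W G) (b : MonoidAlgebra ℤ π) :
    rlH φ u (MonoidAlgebra.single (SemidirectProduct.inl w : SP φ) 1 * im φ b) = if u = w then b else 0 := by
  rw [rl_mul]
  have h1 : rlH φ u (MonoidAlgebra.single (SemidirectProduct.inl w : SP φ) 1) = if u = w then 1 else 0 := by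
    refine MonoidAlgebra.ext (Finsupp.ext fun h => ?_)
    show (rl u (MonoidAlgebra.single (SemidirectProduct.inl w : SP φ) 1)).coeff h = _
    rw [rl_coeff, MonoidAlgebra.coeff_single, Finsupp.single_apply]
    by_cases hu : u = w
    · subst hu
      rw [if_pos rfl, MonoidAlgebra.one_def, MonoidAlgebra.coeff_single, Finsupp.single_apply]
      by_cases hh : (1 : π) = h
      · rw [if_pos hh, if_pos]
        rw [← hh]
        rfl
      · rw [if_neg hh, if_neg]
        intro h2
        exact hh (congrArg (·.right) h2)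
    · rw [if_neg hu, if_neg]
      · rfl
      · intro h2
        exact hu (congrArg (·.left) h2).symm
  rw [h1]
  split_ifs
  · rw [one_mul]
  · rw [zero_mul]

theorem rl_ext {a b : MonoidAlgebra ℤ (SP φ)} (h : ∀ w, rlH φ w a = rlH φ w b) : a = b := by
  refine MonoidAlgebra.ext (Finsupp.ext fun p => ?_)
  exact congrArg (fun c : MonoidAlgebra ℤ π => c.coeff p.right) (h p.left)

/-- induction preserves exactness -/
theorem im_exact {a b c : ℕ} {D : Matrix (Fin a) (Fin b) (MonoidAlgebra ℤ π)}
    {D' : Matrix (Fin c) (Fin a) (MonoidAlgebra ℤ π)} (hD : ∀ x, x ᵥ* D = 0 → ∃ y, y ᵥ* D' = x)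
    (z : Fin a → MonoidAlgebra ℤ (SP φ)) (hz : z ᵥ* D.map (im φ) = 0) : ∃ y, y ᵥ* D'.map (im φ) = z := by
  classical
  have h1 : ∀ w, (fun k => rlH φ w (z k)) ᵥ* D = 0 := by
    intro w
    funext j
    have h2 := congrArg (rlH φ w) (congrFun hz j)
    rw [Matrix.vecMul, dotProduct, map_sum, Pi.zero_apply, map_zero] at h2
    rw [Matrix.vecMul, dotProduct, Pi.zero_apply, ← h2]
    refine Finset.sum_congr rfl fun k _ => ?_
    rw [Matrix.map_apply, rl_mul]
  choose Y hY using fun w => hD _ (h1 w)
  obtain ⟨F, hF⟩ : ∃ F : Finset (W G), ∀ w, w ∉ F → ∀ k, rlH φ w (z k) = 0 := by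
    refine ⟨Finset.univ.biUnion fun k => (z k).coeff.support.image (·.left), fun w hw k => ?_⟩
    refine MonoidAlgebra.ext (Finsupp.ext fun g => ?_)
    show (rl w (z k)).coeff g = 0
    rw [rl_coeff]
    by_contra h
    apply hw
    rw [Finset.mem_biUnion]
    refine ⟨k, Finset.mem_univ _, ?_⟩
    rw [Finset.mem_image]
    exact ⟨_, Finsupp.mem_support_iff.2 h, rfl⟩
  refine ⟨fun k => ∑ w ∈ F, MonoidAlgebra.single (SemidirectProduct.inl w : SP φ) 1 * im φ (Y w k), ?_⟩
  funext j
  refine rl_ext fun u => ?_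
  have h3 : (fun k => ∑ w ∈ F, MonoidAlgebra.single (SemidirectProduct.inl w : SP φ) 1 * im φ (Y w k)) ᵥ*
      D'.map (im φ) = fun j => ∑ w ∈ F, MonoidAlgebra.single (SemidirectProduct.inl w : SP φ) 1 *
        im φ ((Y w ᵥ* D') j) := by
    funext j
    rw [Matrix.vecMul, dotProduct]
    have h4 : ∀ k, (∑ w ∈ F, MonoidAlgebra.single (SemidirectProduct.inl w : SP φ) 1 * im φ (Y w k)) *
        (D'.map (im φ)) k j =
        ∑ w ∈ F, MonoidAlgebra.single (SemidirectProduct.inl w : SP φ) 1 * im φ (Y w k * D' k j) := by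
      intro k
      rw [Finset.sum_mul]
      refine Finset.sum_congr rfl fun c _ => ?_
      rw [Matrix.map_apply, map_mul, mul_assoc]
    rw [Finset.sum_congr rfl fun k _ => h4 k, Finset.sum_comm]
    refine Finset.sum_congr rfl fun w _ => ?_
    rw [← Finset.mul_sum, ← map_sum]
    rfl
  rw [h3, map_sum]
  have h5 : ∀ w ∈ F, rlH φ u (MonoidAlgebra.single (SemidirectProduct.inl w : SP φ) 1 * im φ ((Y w ᵥ* D') j)) =
      if u = w then rlH φ u (z j) else 0 := by
    intro w _
    rw [rl_single_im, hY]
    by_cases h : u = w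
    · rw [if_pos h, if_pos h, h]
    · rw [if_neg h, if_neg h]
  rw [Finset.sum_congr rfl h5, Finset.sum_ite_eq]
  by_cases h6 : u ∈ F
  · rw [if_pos h6]
  · rw [if_neg h6, hF u h6 j]

end indx

end Pool.Agent.X250.RT
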