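import Pool.Agent.X250.RT.Reg

/-!
# The supertrace of chain maps vanishes near an acyclic representation
-/

set_option autoImplicit false
set_option linter.unusedSectionVars false

open scoped Matrix ENNReal InnerProductSpace Topology

namespace Pool.Agent.X250.RT

open Pool.Agent.X250.ZS
open Pool.Agent.H919R4.ZS (FinRes augm L2 act L toRed RedC valR)

variable {P : Type} [Group P]

open Classical in
/-- the base vector -/
noncomputable def dP : Hl P := lp.single 2 (1 : P) (1 : ℂ)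

open Classical in
theorem dP_apply (w : P) : (dP : Hl P) w = if w = 1 then 1 else 0 := by
  unfold dP
  rw [lp.single_apply]
  by_cases h : w = 1
  · subst h
    rw [Pi.single_eq_same, if_pos rfl]
  · rw [Pi.single_eq_of_ne h, if_neg h]

theorem dP_congr {a b : P} (h : a = 1 ↔ b = 1) : (dP : Hl P) a = (dP : Hl P) b := by
  rw [dP_apply, dP_apply]
  by_cases h1 : a = 1
  · rw [if_pos h1, if_pos (h.1 h1)]
  · rw [if_neg h1, if_neg (fun h2 => h1 (h.2 h2))]

theorem dP_ne {a : P} (h : a ≠ 1) : (dP : Hl P) a = 0 := by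
  rw [dP_apply, if_neg h]

theorem norm_dP : ‖(dP : Hl P)‖ = 1 := by
  classical
  unfold dP
  rw [lp.norm_single (by norm_num)]
  simp

theorem eval_dP (f : Hl P) : ⟪(dP : Hl P), f⟫_ℂ = (f : P → ℂ) 1 := by
  classical
  unfold dP
  rw [lp.inner_single_left]
  simp

/-- the vector state -/
noncomputable def tau (a : OP P) : ℂ := (a dP : P → ℂ) 1

theorem tau_add (a b : OP P) : tau (a + b) = tau a + tau b := rfl

theorem tau_sub (a b : OP P) : tau (a - b) = tau a - tau b := rfl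

theorem tau_smul (c : ℂ) (a : OP P) : tau (c • a) = c * tau a := rfl

theorem tau_zero : tau (0 : OP P) = 0 := rfl

theorem tau_sum {ι : Type} (s : Finset ι) (f : ι → OP P) : tau (∑ i ∈ s, f i) = ∑ i ∈ s, tau (f i) := by
  classical
  induction s using Finset.induction_on with
  | empty => rw [Finset.sum_empty, Finset.sum_empty, tau_zero]
  | insert i s hi ih => rw [Finset.sum_insert hi, Finset.sum_insert hi, tau_add, ih]

theorem norm_tau_le (a : OP P) : ‖tau a‖ ≤ ‖a‖ := by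
  have h1 : ‖(a dP : P → ℂ) 1‖ ≤ ‖a dP‖ := lp.norm_apply_le_norm (by norm_num) (a dP) 1
  refine h1.trans ((a.le_opNorm _).trans ?_)
  rw [norm_dP, mul_one]

section mt

variable {R : Type} [Ring R] (θ : R →+ ℂ)

/-- the trace of a matrix -/
noncomputable def mt {n : Type} [Fintype n] (A : Matrix n n R) : ℂ := ∑ j, θ (A j j)

variable {θ}

theorem mt_comm (hθ : ∀ a b, θ (a * b) = θ (b * a)) {n m : Type} [Fintype n] [Fintype m] (A : Matrix n m R)
    (B : Matrix m n R) : mt θ (A * B) = mt θ (B * A) := by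
  unfold mt
  simp only [Matrix.mul_apply, map_sum]
  rw [Finset.sum_comm]
  exact Finset.sum_congr rfl fun k _ => Finset.sum_congr rfl fun j _ => hθ _ _

theorem mt_add {n : Type} [Fintype n] (A B : Matrix n n R) : mt θ (A + B) = mt θ A + mt θ B := by
  unfold mt
  rw [← Finset.sum_add_distrib]
  exact Finset.sum_congr rfl fun j _ => map_add θ _ _

theorem mt_sub {n : Type} [Fintype n] (A B : Matrix n n R) : mt θ (A - B) = mt θ A - mt θ B := by
  unfold mt
  rw [← Finset.sum_sub_distrib]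
  exact Finset.sum_congr rfl fun j _ => map_sub θ _ _

end mt

/-- the state of a representation -/
noncomputable def st {S : Type} [Ring S] (Θ : S →+* OP P) : S →+ ℂ where
  toFun a := tau (Θ a)
  map_zero' := by rw [map_zero, tau_zero]
  map_add' a b := by rw [map_add, tau_add]

/-- the inclusion of the integral group ring of the subgroup -/
noncomputable def zc (Γ : Subgroup P) : MonoidAlgebra ℤ Γ →+* MonoidAlgebra ℂ P := (icl Γ).toRingHom.comp (ztc Γ)

theorem van {Γ : Subgroup P} [Γ.FiniteIndex] (X : FinRes Γ) (h : ∀ i, Subsingleton (X.homology (toRed Γ) i))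
    (Θ : ℝ → (MonoidAlgebra ℂ P →+* OP P)) {x₀ : ℝ} (h0 : ∀ a, Θ x₀ a = reg a)
    (hc : ∀ a, ContinuousAt (fun x => Θ x a) x₀) (ht : ∀ x a b, tau (Θ x (a * b)) = tau (Θ x (b * a))) :
    ∀ᶠ x in 𝓝 x₀, ∀ ψ : ∀ i, Matrix (Fin (X.n i)) (Fin (X.n i)) (MonoidAlgebra ℂ P),
      (∀ i, (X.d i).map (zc Γ) * ψ i = ψ (i + 1) * (X.d i).map (zc Γ)) →
      ∑ i ∈ Finset.range (X.len + 1), (-1) ^ i * mt (st (Θ x)) (ψ i) = 0 := by
  classical
  have hfin : Fintype (P ⧸ Γ) := Fintype.ofFinite _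
  obtain ⟨M, hM⟩ : ∃ M : ℕ, M = 1 + ∑ i ∈ Finset.range (X.len + 1), X.n i := ⟨_, rfl⟩
  have hM0 : (0 : ℝ) < M := by rw [hM]; positivity
  obtain ⟨η, hη⟩ : ∃ η : ℝ, η = 1 / (2 * M) := ⟨_, rfl⟩
  have hη0 : 0 < η := by rw [hη]; positivity
  obtain ⟨s, hs0, hs1⟩ := approx Γ X h hη0
  obtain ⟨S, hS⟩ : ∃ S : ∀ i, Matrix (Fin (X.n i)) (Fin (X.n (i + 1))) (MonoidAlgebra ℂ P),
    ∀ i, S i = (s i).map (icl Γ) := ⟨_, fun i => rfl⟩
  obtain ⟨D, hD⟩ : ∃ D : ∀ i, Matrix (Fin (X.n (i + 1))) (Fin (X.n i)) (MonoidAlgebra ℂ P),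
    ∀ i, D i = (X.d i).map (zc Γ) := ⟨_, fun i => rfl⟩
  have hDD : ∀ i, D (i + 1) * D i = 0 := by
    intro i
    rw [hD, hD, ← Matrix.map_mul, Pool.Agent.H919R4.ZS.d_mul_d]
    ext1 a b
    exact map_zero (zc Γ)
  obtain ⟨Z, hZ0, hZs⟩ : ∃ Z : ∀ i, Matrix (Fin (X.n i)) (Fin (X.n i)) (MonoidAlgebra ℂ P),
      Z 0 = S 0 * D 0 ∧ ∀ i, Z (i + 1) = D i * S i + S (i + 1) * D (i + 1) :=
    ⟨fun i => Nat.casesOn i (S 0 * D 0) (fun i => D i * S i + S (i + 1) * D (i + 1)), rfl, fun i => rfl⟩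
  have hDZ : ∀ i, D i * Z i = Z (i + 1) * D i := by
    intro i
    rcases i with _ | i
    · rw [hZ0, hZs, Matrix.add_mul, Matrix.mul_assoc (S (0 + 1)), hDD, Matrix.mul_zero, add_zero, Matrix.mul_assoc]
    · rw [hZs, hZs, Matrix.add_mul, Matrix.mul_assoc (S (i + 1 + 1)), hDD, Matrix.mul_zero, add_zero, Matrix.mul_add,
        ← Matrix.mul_assoc (D (i + 1)) (D i), hDD, Matrix.zero_mul, zero_add, Matrix.mul_assoc]
  have hm : ∀ {m n : ℕ} (A B : Matrix (Fin m) (Fin n) (MonoidAlgebra ℂ Γ)),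
      (A - B).map (icl Γ) = A.map (icl Γ) - B.map (icl Γ) := by
    intro m n A B
    refine funext fun j => funext fun k => ?_
    exact map_sub (icl Γ) _ _
  have hp : ∀ {m n : ℕ} (A B : Matrix (Fin m) (Fin n) (MonoidAlgebra ℂ Γ)),
      (A + B).map (icl Γ) = A.map (icl Γ) + B.map (icl Γ) := by
    intro m n A B
    refine funext fun j => funext fun k => ?_
    exact map_add (icl Γ) _ _
  have ho : ∀ {m : ℕ}, (1 : Matrix (Fin m) (Fin m) (MonoidAlgebra ℂ Γ)).map (icl Γ) = 1 :=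
    fun {m} => Matrix.map_one (icl Γ) (map_zero _) (map_one _)
  have hx : ∀ {m n l : ℕ} (A : Matrix (Fin m) (Fin n) (MonoidAlgebra ℂ Γ)) (B : Matrix (Fin n) (Fin l) _),
      (A * B).map (icl Γ) = A.map (icl Γ) * B.map (icl Γ) := fun A B => Matrix.map_mul
  have hDi : ∀ i, ((X.d i).map (ztc Γ)).map (icl Γ) = D i := by
    intro i
    rw [hD]
    rfl
  have hE : ∀ i j k, ‖reg ((1 - Z i) j k)‖ < η := by
    intro i
    rcases i with _ | i
    · intro j k
      have h1 : 1 - Z 0 = (1 - s 0 * (X.d 0).map (ztc Γ)).map (icl Γ) := by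
        rw [hm, ho, hx, hDi, hZ0, hS]
      rw [h1]
      exact lt_of_le_of_lt (norm_reg_le Γ _) (hs0 j k)
    · intro j k
      have h1 : 1 - Z (i + 1) = (1 - ((X.d i).map (ztc Γ) * s i + s (i + 1) * (X.d (i + 1)).map (ztc Γ))).map (icl Γ) := by
        rw [hm, ho, hp, hx, hx, hDi, hDi, hZs, hS, hS]
      rw [h1]
      exact lt_of_le_of_lt (norm_reg_le Γ _) (hs1 i j k)
  have hev : ∀ᶠ x in 𝓝 x₀, ∀ i ∈ Finset.range (X.len + 1), ∀ j k, ‖Θ x ((1 - Z i) j k)‖ < η := by
    refine (Filter.eventually_all_finset _).2 fun i _ => Filter.eventually_all.2 fun j => Filter.eventually_all.2 fun k => ?_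
    have h1 : ContinuousAt (fun x => ‖Θ x ((1 - Z i) j k)‖) x₀ := (hc _).norm
    refine h1.eventually_lt continuousAt_const ?_
    rw [h0]
    exact hE i j k
  filter_upwards [hev] with x hxE ψ hψ
  obtain ⟨B, hB⟩ : ∃ B : ℕ → ∀ i, Matrix (Fin (X.n i)) (Fin (X.n i)) (MonoidAlgebra ℂ P),
    ∀ N i, B N i = ψ i * (1 - Z i) ^ N := ⟨_, fun N i => rfl⟩
  have hDE : ∀ N i, D i * (1 - Z i) ^ N = (1 - Z (i + 1)) ^ N * D i := by
    intro N
    induction N with
    | zero => intro i; rw [pow_zero, pow_zero, Matrix.mul_one, Matrix.one_mul]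
    | succ N ih =>
      intro i
      rw [pow_succ, ← Matrix.mul_assoc, ih, Matrix.mul_assoc, Matrix.mul_sub, Matrix.mul_one, hDZ, pow_succ,
        Matrix.mul_assoc, Matrix.sub_mul, Matrix.one_mul]
  have hDB : ∀ N i, D i * B N i = B N (i + 1) * D i := by
    intro N i
    rw [hB, hB, ← Matrix.mul_assoc, hD, hψ i, Matrix.mul_assoc, ← hD, hDE, Matrix.mul_assoc]
  obtain ⟨θ, hθ⟩ : ∃ θ, θ = st (Θ x) := ⟨_, rfl⟩
  have hθt : ∀ a b, θ (a * b) = θ (b * a) := by
    intro a b
    rw [hθ]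
    exact ht x a b
  rw [← hθ]
  have htel : ∀ N m, ∑ i ∈ Finset.range (m + 1), (-1) ^ i * mt θ (B N i * Z i) =
      (-1) ^ m * mt θ (B N m * (S m * D m)) := by
    intro N m
    induction m with
    | zero =>
      refine (Finset.sum_range_one _).trans ?_
      rw [hZ0]
    | succ m ih =>
      rw [Finset.sum_range_succ, ih, hZs, Matrix.mul_add, mt_add, ← Matrix.mul_assoc (B N (m + 1)) (D m),
        ← hDB, Matrix.mul_assoc, mt_comm hθt (D m) (B N m * S m), Matrix.mul_assoc (B N m), pow_succ]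
      ring
  have hlast : ∀ N, mt θ (B N X.len * (S X.len * D X.len)) = 0 := by
    intro N
    rw [← Matrix.mul_assoc, mt_comm hθt]
    have h1 : X.n (X.len + 1) = 0 := X.n_eq_zero _ (Nat.lt_succ_self _)
    have h2 : IsEmpty (Fin (X.n (X.len + 1))) := by
      rw [h1]
      infer_instance
    exact Finset.sum_of_isEmpty _
  have hstep : ∀ N, ∑ i ∈ Finset.range (X.len + 1), (-1) ^ i * mt θ (B (N + 1) i) =
      ∑ i ∈ Finset.range (X.len + 1), (-1) ^ i * mt θ (B N i) := by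
    intro N
    have h1 : ∀ i, B (N + 1) i = B N i - B N i * Z i := by
      intro i
      rw [hB, hB, pow_succ, ← Matrix.mul_assoc, Matrix.mul_sub, Matrix.mul_one]
    have h2 := htel N X.len
    rw [hlast, mul_zero] at h2
    have h3 : ∀ i, (-1 : ℂ) ^ i * mt θ (B (N + 1) i) =
        (-1) ^ i * mt θ (B N i) - (-1) ^ i * mt θ (B N i * Z i) := by
      intro i
      rw [h1, mt_sub, mul_sub]
    rw [Finset.sum_congr rfl fun i _ => h3 i, Finset.sum_sub_distrib, h2, sub_zero]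
  have hall : ∀ N, ∑ i ∈ Finset.range (X.len + 1), (-1) ^ i * mt θ (B N i) =
      ∑ i ∈ Finset.range (X.len + 1), (-1) ^ i * mt θ (ψ i) := by
    intro N
    induction N with
    | zero =>
      refine Finset.sum_congr rfl fun i _ => ?_
      rw [hB, pow_zero, Matrix.mul_one]
    | succ N ih => rw [hstep, ih]
  have hpow : ∀ i ∈ Finset.range (X.len + 1), ∀ N j k, ‖Θ x (((1 - Z i) ^ N) j k)‖ ≤ (1 / 2) ^ N := by
    intro i hi N
    have hn : (X.n i : ℝ) * η ≤ 1 / 2 := by
      have h1 : X.n i ≤ M := by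
        rw [hM]
        have := Finset.single_le_sum (f := fun i => X.n i) (fun i _ => Nat.zero_le _) hi
        omega
      have h2 : (X.n i : ℝ) ≤ M := by exact_mod_cast h1
      rw [hη, mul_one_div, div_le_div_iff₀ (by positivity) two_pos]
      linarith
    induction N with
    | zero =>
      intro j k
      rw [pow_zero, pow_zero, Matrix.one_apply]
      split_ifs
      · rw [map_one]
        exact ContinuousLinearMap.norm_id_le
      · rw [map_zero, norm_zero]
        exact zero_le_one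
    | succ N ih =>
      intro j k
      rw [pow_succ, Matrix.mul_apply, map_sum]
      refine (norm_sum_le _ _).trans ?_
      have h1 : ∀ l, ‖Θ x (((1 - Z i) ^ N) j l * (1 - Z i) l k)‖ ≤ (1 / 2) ^ N * η := by
        intro l
        rw [map_mul]
        exact (norm_mul_le _ _).trans (mul_le_mul (ih j l) (hxE i hi l k).le (norm_nonneg _) (by positivity))
      refine (Finset.sum_le_sum fun l _ => h1 l).trans ?_
      rw [Finset.sum_const, Finset.card_univ, Fintype.card_fin, nsmul_eq_mul, pow_succ]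
      calc (X.n i : ℝ) * ((1 / 2) ^ N * η) = (1 / 2) ^ N * (X.n i * η) := by ring
        _ ≤ (1 / 2) ^ N * (1 / 2) := mul_le_mul_of_nonneg_left hn (by positivity)
  obtain ⟨C, hC⟩ : ∃ C : ℝ, C = ∑ i ∈ Finset.range (X.len + 1), ∑ j, ∑ l, ‖Θ x (ψ i j l)‖ := ⟨_, rfl⟩
  have hbound : ∀ N : ℕ, ‖∑ i ∈ Finset.range (X.len + 1), (-1) ^ i * mt θ (ψ i)‖ ≤ C * (1 / 2) ^ N := by
    intro N
    rw [← hall N]
    refine (norm_sum_le _ _).trans ?_
    rw [hC, Finset.sum_mul]
    refine Finset.sum_le_sum fun i hi => ?_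
    rw [norm_mul, norm_pow, norm_neg, norm_one, one_pow, one_mul]
    unfold mt
    refine (norm_sum_le _ _).trans ?_
    rw [Finset.sum_mul]
    refine Finset.sum_le_sum fun j _ => ?_
    rw [hB, Matrix.mul_apply, map_sum, Finset.sum_mul]
    refine (norm_sum_le _ _).trans ?_
    refine Finset.sum_le_sum fun l _ => ?_
    rw [hθ]
    show ‖tau (Θ x (ψ i j l * ((1 - Z i) ^ N) l j))‖ ≤ _
    refine (norm_tau_le _).trans ?_
    rw [map_mul]
    exact (norm_mul_le _ _).trans (mul_le_mul_of_nonneg_left (hpow i hi N l j) (norm_nonneg _))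
  have hlim : Filter.Tendsto (fun N : ℕ => C * (1 / 2 : ℝ) ^ N) Filter.atTop (𝓝 0) := by
    have := (tendsto_pow_atTop_nhds_zero_of_lt_one (show (0 : ℝ) ≤ 1 / 2 by norm_num) (by norm_num)).const_mul C
    rwa [mul_zero] at this
  have h9 := ge_of_tendsto' hlim hbound
  exact norm_le_zero_iff.1 h9

end Pool.Agent.X250.RT
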